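import Pool.Agent.N809.JT.Jo

/-!
# JT: the level 15 side as a random linear system in the common coordinates
-/

set_option autoImplicit false
set_option linter.all false

open scoped Classical

namespace Pool.Agent.N809.JT

open Finset Module
open Pool.Agent.N916.GB (pt ps sx eta Po Vt)
open Pool.Agent.Y703.CQ (c2 nr)
open Pool.Agent.N916.AM (LAH Nd Rich Bs)
open Pool.Agent.N958.GB (rr NR sgm ud wd)
open Pool.Agent.N916.PQ (Hy Gc PM G15)
open Pool.Agent.N916.PQ (f15)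

/-- the criterion `G` is that a linear system with a random Laplacian block has only the trivial
solutions; the block on the large primes is the one of the matrix `NR` -/
def J15 (M : ℕ) (K : Finset ℕ) (t : Bool) (r s : ZMod 2) (G : Finset ℕ → Prop) : Prop :=
  ∀ (ι : Type) [Fintype ι] [LinearOrder ι] [Nonempty ι] (S₀ : Finset ℕ) (p : ι → ℕ),
    (∀ v ∈ S₀, Po v) → (∀ i, Po (p i) ∧ p i ∉ S₀ ∧ (p i).Coprime M) → Function.Injective p →
    ((∏ v ∈ S₀, v) * ∏ i, p i) % M ∈ K → Nd M S₀ (univ.image p) →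
    ∃ (R C : Type) (_ : Fintype R) (_ : Fintype C) (A : R ⊕ ι → C ⊕ ι → ZMod 2)
      (X : R ⊕ ι → ZMod 2) (Y : C ⊕ ι → ZMod 2),
      Hy A X Y (fun k => ud s (rr t S₀ p) (Sum.inr k)) ∧ Fintype.card C = Fintype.card R ∧
      Fintype.card R ≤ Fintype.card (Vt t S₀ : Finset ℕ) + 1 ∧
      (∀ k l, A (Sum.inr k) (Sum.inr l) =
        Pool.Agent.N916.PQ.Lm (NR r s (rr t S₀ p)) (Sum.inr k) (Sum.inr l)) ∧
      ∀ q : ι → ℕ, Function.Injective q → (∀ i, Po (q i) ∧ q i ∉ S₀ ∧ q i % M = p i % M ∧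
        ∀ v ∈ S₀, nr (q i) v = nr (p i) v) →
        (G (S₀ ∪ univ.image q) ↔ Gc A Y (sx (sgm q + sgm p)))

/-- the statement for the criterion of level 15 -/
def S15 : Prop := ∀ {s' : ℤ} {k c : ℕ} {t : Bool} {r s : ZMod 2}, PM s' k c t r s →
  ∀ K : Finset ℕ, (∀ a ∈ K, a % 4 = c ∧ f15 (s' * (k * a : ℕ)) = true) →
    J15 2040 K t r s (G15 s' k)

/-- the same for all moduli divisible by `2040` -/
def S15M : Prop := ∀ {M : ℕ}, 2040 ∣ M → 0 < M → ∀ {s' : ℤ} {k c : ℕ} {t : Bool} {r s : ZMod 2},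
  PM s' k c t r s → ∀ K : Finset ℕ, (∀ a ∈ K, a % 4 = c ∧ f15 (s' * (k * a : ℕ)) = true) →
    J15 M K t r s (G15 s' k)

end Pool.Agent.N809.JT
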