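import Pool.Agent.N809.JT.Tot
import Pool.Agent.N975.JT.Rn3b

/-!
# JT: the densities of the classes of the levels 15, 17, 21
-/

set_option autoImplicit false
set_option linter.all false

open scoped Classical

namespace Pool.Agent.N809.JT

open Finset Filter
open Pool.Agent.N919.BS (NN NS NF HG Rt17 Fund core)
open Pool.Agent.N916.PQ (f15)
open Pool.Agent.N916.PQ.L21 (fO fO_iff)
open Pool.Agent.N809.Red21 (f21 fD f21_iff fD_f21)
open Pool.Agent.N975.JT (fEq fNe fEq17 fNe17 fX17 fK f1521 f17 f17_iff fK_iff clE_NS clE_NF clN_NS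
  clN_NF clX_NS clX_NF clF_NS clF_NF clG_NS clG_NF clK rat_NS rat_NF)

theorem fEq_iff (d : ℤ) : fEq d = true ↔ Eqc d := decide_eq_true_iff

theorem fNe_iff (d : ℤ) : fNe d = true ↔ (f15 d = true ∧ f21 d = true) ∧ ¬ Eqc d := by
  unfold Pool.Agent.N975.JT.fNe Pool.Agent.N975.JT.f1521
  rw [Bool.and_eq_true, Bool.and_eq_true, Bool.not_eq_true', ← Bool.not_eq_true, fEq_iff]

theorem fEq17_iff (d : ℤ) : fEq17 d = true ↔ Eqc d ∧ Rt17 d := by
  unfold Pool.Agent.N975.JT.fEq17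
  rw [Bool.and_eq_true, fEq_iff, f17_iff]

theorem fNe17_iff (d : ℤ) :
    fNe17 d = true ↔ ((f15 d = true ∧ f21 d = true) ∧ ¬ Eqc d) ∧ Rt17 d := by
  unfold Pool.Agent.N975.JT.fNe17
  rw [Bool.and_eq_true, fNe_iff, f17_iff]

theorem fX17_iff (d : ℤ) : fX17 d = true ↔ fD d = true ∧ Rt17 d := by
  unfold Pool.Agent.N975.JT.fX17
  rw [Bool.and_eq_true, f17_iff, and_comm]

theorem dn_ns : Dn NS where
  x17 := ratio_congr fX17_iff clX_NS
  o17 := by
    have h := ratio_congr (N := NS) fK_iff (rat_NS clK)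
    have e : (((14280 : ℤ) : ℝ) + (30096 : ℤ)) / (2 * (110592 : ℤ)) = 1849 / 9216 := by norm_num
    rwa [e] at h
  q := ratio_congr fEq_iff clE_NS
  n := ratio_congr fNe_iff clN_NS
  q17 := ratio_congr fEq17_iff clF_NS
  n17 := ratio_congr fNe17_iff clG_NS

theorem dn_nf : Dn NF where
  x17 := ratio_congr fX17_iff clX_NF
  o17 := by
    have h := ratio_congr (N := NF) fK_iff (rat_NF clK)
    have e : (((14280 : ℤ) : ℝ) + (30096 : ℤ)) / (2 * (110592 : ℤ)) = 1849 / 9216 := by norm_num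
    rwa [e] at h
  q := ratio_congr fEq_iff clE_NF
  n := ratio_congr fNe_iff clN_NF
  q17 := ratio_congr fEq17_iff clF_NF
  n17 := ratio_congr fNe17_iff clG_NF

end Pool.Agent.N809.JT
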