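import Mathlib
import Pool.Agent.N916.MO.Hg
import Pool.Agent.N916.PQ.Fin15

/-!
# JT: the alternating form of level 17 as data
-/

set_option autoImplicit false
set_option linter.all false

open scoped Classical

namespace Pool.Agent.N809.JT

open Finset Module
open Pool.Agent.N916.GB (pt ps sx)
open Pool.Agent.N916.MO

/-- the property `P` of the symbols is the nondegeneracy of a random alternating form with a fixed
part of size at most `n` -/
def G2 {J : Type} [Fintype J] [LinearOrder J] (n : ℕ) (ν u : J → ZMod 2) (m : J → J → ZMod 2)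
    (P : (ps J → ZMod 2) → Prop) : Prop :=
  ∃ (U C C' : Type) (_ : Fintype U) (_ : Fintype C) (_ : Fintype C') (k0 : J) (J₀ : Finset J)
    (B : EE (E2 U) (Ix k0) →ₗ[ZMod 2] EE (E2 U) (Ix k0) →ₗ[ZMod 2] ZMod 2)
    (F : EE (E2 U) (Ix k0) → C) (G : (Ix k0 → ZMod 2) → C')
    (Φ Ψ : Ix k0 → E2 U → C → ZMod 2) (Θ : Ix k0 → C' → ZMod 2),
    Fintype.card U ≤ n ∧ Fintype.card C ≤ 32 ∧ Fintype.card C' ≤ 4 ∧
    k0 ∉ J₀ ∧ J₀.card ≤ 2 * n ∧ (∀ z, B z z = 0) ∧
    (∀ z (k : Ix k0), B z (fx k) = ν k * z.2.1 k + ∑ l : Ix k0, m k l * z.2.2 l + Φ k z.1 (F z)) ∧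
    (∀ z (k : Ix k0), B z (fy k) = u k * z.2.2 k + ∑ l : Ix k0, m l k * z.2.1 l + Ψ k z.1 (F z)) ∧
    (∀ (x : Ix k0 → ZMod 2) (k : Ix k0), ∑ l : Ix k0, m k l * x l + ∑ l : Ix k0, m l k * x l =
      u k * x k + Θ k (G x)) ∧
    (∀ e, (∀ k : Ix k0, (k : J) ∈ J₀ → B (e, 0, 0) (fx k) = 0 ∧ B (e, 0, 0) (fy k) = 0) → e = 0) ∧
    ∀ σ, P σ ↔ Nde B (Sg k0 σ)

/-- the data of the first form -/
theorem g2_of {U J : Type} [Fintype U] [Fintype J] [LinearOrder J] {k0 : J} {J₀ : Finset J}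
    {B : EE (E2 U) (Ix k0) →ₗ[ZMod 2] EE (E2 U) (Ix k0) →ₗ[ZMod 2] ZMod 2} {ν u : J → ZMod 2}
    {c : Ix k0 → ZMod 2} {lam lam' : J → E2 U → ZMod 2} {m : J → J → ZMod 2}
    (hk0 : k0 ∉ J₀) (hJ₀ : J₀.card ≤ 2 * Fintype.card U) (hB : ∀ z, B z z = 0)
    (hm : ∀ k l, k ≠ l → m k l + m l k = u k * u l)
    (hx : ∀ z (k : Ix k0), B z (fx k) = lam k z.1 + ν k * (∑ l : Ix k0, ν l * z.2.1 l) +
      ν k * z.2.1 k + ν k * (∑ l, c l * z.2.2 l) + ∑ l : Ix k0, m k l * z.2.2 l)
    (hy : ∀ z (k : Ix k0), B z (fy k) = lam' k z.1 + u k * (∑ l : Ix k0, u l * z.2.2 l) +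
      u k * z.2.2 k + (∑ l : Ix k0, ν l * z.2.1 l) * c k + ∑ l : Ix k0, m l k * z.2.1 l)
    (hnd : ∀ e, (∀ k ∈ J₀, lam k e = 0 ∧ lam' k e = 0) → e = 0)
    {P : (ps J → ZMod 2) → Prop} (hP : ∀ σ, P σ ↔ Nde B (Sg k0 σ)) :
    G2 (Fintype.card U) ν u m P := by
  refine ⟨U, ZMod 2 × ZMod 2 × ZMod 2, ZMod 2, inferInstance, inferInstance, inferInstance, k0, J₀,
    B, (fun z => (∑ l : Ix k0, ν l * z.2.1 l, ∑ l : Ix k0, c l * z.2.2 l,
      ∑ l : Ix k0, u l * z.2.2 l)),
    (fun x => ∑ l : Ix k0, u l * x l),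
    (fun k e F => lam k e + ν k * F.1 + ν k * F.2.1),
    (fun k e F => lam' k e + u k * F.2.2 + F.1 * c k),
    (fun k g => u k * g), le_refl _, ?_, ?_, hk0, hJ₀, hB, ?_, ?_, ?_, ?_, hP⟩
  · simp only [Fintype.card_prod, ZMod.card]
    norm_num
  · rw [ZMod.card]
    norm_num
  · intro z k
    rw [hx z k]
    ring
  · intro z k
    rw [hy z k]
    ring
  · intro x k
    have h := msum (u := fun k : Ix k0 => u k) (m := fun k l : Ix k0 => m k l)
      (fun k l hkl => hm _ _ fun h => hkl (Subtype.ext h)) k x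
    rw [h, add_comm]
  · intro e he
    refine hnd e fun k hk => ?_
    have hkk : k ≠ k0 := fun h => hk0 (h ▸ hk)
    obtain ⟨h1, h2⟩ := he ⟨k, hkk⟩ hk
    have hz : ∀ f : Ix k0 → ZMod 2, ∑ l, f l * (0 : Ix k0 → ZMod 2) l = 0 := fun f =>
      sum_eq_zero fun l _ => mul_zero _
    rw [hx] at h1
    rw [hy] at h2
    simp only [hz, Pi.zero_apply, mul_zero, zero_mul, add_zero, sum_const_zero] at h1 h2
    exact ⟨h1, h2⟩

/-- the form, unramified -/
theorem g2_u {U J : Type} [Fintype U] [DecidableEq U] [Fintype J] [LinearOrder J]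
    {w u ν : U ⊕ J → ZMod 2} {N : U ⊕ J → U ⊕ J → ZMod 2}
    (hw : ∀ k, w (Sum.inr k) = 1) (hu : ∑ i, u i = 1) (hν : ∑ i, ν i = 1)
    (hN : ∀ i j, i ≠ j → w i * N i j + w j * N j i = u i * u j)
    (hw0 : ∀ v, w (Sum.inl v) = 0 → u (Sum.inl v) = 1 ∧ ∀ v', w (Sum.inl v') = 0 → v = v')
    (hnd : ∀ (b : U → ZMod 2) (s a : ZMod 2), ((∃ v, b v ≠ 0) ∨ s ≠ 0 ∨ a ≠ 0) →
      ∃ k, ∑ v, b v * N (Sum.inl v) (Sum.inr k) + s * u (Sum.inr k) + a * ν (Sum.inr k) ≠ 0)
    (hJ : 2 * Fintype.card U < Fintype.card J) :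
    G2 (Fintype.card U) (fun k => ν (Sum.inr k)) (fun k => u (Sum.inr k))
      (fun k l => Lm N (Sum.inr k) (Sum.inr l)) (fun σ => Kx ν u (Lm (pt N (sx σ)))) := by
  have hkv : ∀ k v, Lm N (Sum.inr k) (Sum.inl v) = w (Sum.inl v) * N (Sum.inl v) (Sum.inr k) +
      u (Sum.inr k) * u (Sum.inl v) := by
    intro k v
    rw [Lm_ne _ (by simp)]
    have h3 := hN (Sum.inl v) (Sum.inr k) (by simp)
    rw [hw, one_mul] at h3
    have : ∀ a b c d : ZMod 2, a + b = c * d → b = a + d * c := by decide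
    exact this _ _ _ _ h3
  have hvk : ∀ k v, Lm N (Sum.inl v) (Sum.inr k) = N (Sum.inl v) (Sum.inr k) := by
    intro k v
    rw [Lm_ne _ (by simp)]
  have key : ∀ e : E2 U, (∀ k, mu ν (Lm N) k e = 0 ∧ mu' ν u (Lm N) k e = 0) → e = 0 := by
    intro e he
    set C : ZMod 2 := ∑ v, ν (Sum.inl v) * e.1 v + ∑ v, cs (Lm N) (Sum.inl v) * e.2 v with hC
    have h1 : ∀ k, ∑ v, (w (Sum.inl v) * e.2 v) * N (Sum.inl v) (Sum.inr k) +
        (∑ v, u (Sum.inl v) * e.2 v) * u (Sum.inr k) + C * ν (Sum.inr k) = 0 := by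
      intro k
      have h2 := (he k).1
      unfold mu at h2
      simp only [hkv] at h2
      rw [sw1 (fun v => u (Sum.inl v)) e.2 (fun v => N (Sum.inl v) (Sum.inr k)) _ 0
        (fun v => w (Sum.inl v))] at h2
      rw [add_comm, mul_comm] at h2
      rw [← h2]
      ring
    have h2 : ¬ ((∃ v, w (Sum.inl v) * e.2 v ≠ 0) ∨ ∑ v, u (Sum.inl v) * e.2 v ≠ 0 ∨ C ≠ 0) := by
      intro h
      obtain ⟨k, hk⟩ := hnd _ _ _ h
      exact hk (h1 k)
    push Not at h2
    obtain ⟨h3, h4, h5⟩ := h2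
    have e2z : ∀ v, e.2 v = 0 := by
      intro v
      rcases zz (w (Sum.inl v)) with h | h
      · obtain ⟨h6, h7⟩ := hw0 v h
        have h8 : ∑ v, u (Sum.inl v) * e.2 v = e.2 v := by
          rw [Finset.sum_eq_single v, h6, one_mul]
          · intro v' _ hv'
            rcases zz (w (Sum.inl v')) with h9 | h9
            · exact absurd (h7 v' h9).symm hv'
            · have := h3 v'
              rw [h9, one_mul] at this
              rw [this, mul_zero]
          · exact fun h => absurd (mem_univ v) h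
        rw [← h8, h4]
      · have := h3 v
        rwa [h, one_mul] at this
    have e2z' : e.2 = 0 := funext e2z
    have s2 : ∀ f : U → ZMod 2, ∑ v, f v * e.2 v = 0 := fun f =>
      sum_eq_zero fun v _ => by rw [e2z v, mul_zero]
    have C1 : ∑ v, ν (Sum.inl v) * e.1 v = 0 := by
      rw [hC, s2, add_zero] at h5
      exact h5
    have e1z : ∀ v, e.1 v = 0 := by
      by_contra hc
      push Not at hc
      obtain ⟨k, hk⟩ := hnd e.1 0 0 (Or.inl hc)
      apply hk
      have h6 := (he k).2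
      unfold mu' at h6
      rw [C1, s2, zero_mul, mul_zero, add_zero, add_zero] at h6
      rw [zero_mul, zero_mul, add_zero, add_zero, ← h6]
      refine sum_congr rfl fun v _ => ?_
      rw [hvk, mul_comm]
    exact Prod.ext (funext e1z) e2z'
  obtain ⟨k0, J₀, hk0, hJ₀, hnn⟩ := choice (fun k => mu ν (Lm N) k) (fun k => mu' ν u (Lm N) k)
    (fun k a b => by
      show mu ν (Lm N) k (a + b) = mu ν (Lm N) k a + mu ν (Lm N) k b
      unfold mu
      rw [Prod.fst_add, Prod.snd_add, s1a, s1a, s1a]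
      ring)
    (fun k c a => by
      show mu ν (Lm N) k (c • a) = c * mu ν (Lm N) k a
      unfold mu
      rw [Prod.smul_fst, Prod.smul_snd, s1s, s1s, s1s]
      ring)
    (fun k a b => by
      show mu' ν u (Lm N) k (a + b) = mu' ν u (Lm N) k a + mu' ν u (Lm N) k b
      unfold mu'
      rw [Prod.fst_add, Prod.snd_add, s1a, s1a, s1a]
      ring)
    (fun k c a => by
      show mu' ν u (Lm N) k (c • a) = c * mu' ν u (Lm N) k a
      unfold mu'
      rw [Prod.smul_fst, Prod.smul_snd, s1s, s1s, s1s]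
      ring)
    key hJ
  have hrow : ∀ i, ∑ j, Lm N i j = 0 := Lm_row N
  have hiff : ∀ σ : ps J → ZMod 2, Kx ν u (Lm (pt N (sx σ))) ↔
      Nde (BB ν u (Lm N) (bu ν (cs (Lm N)))) (Sg k0 σ) := by
    intro σ
    have hcs : cs (pt (Lm N) (Lm (sx σ))) = cs (Lm N) :=
      funext fun j => cs_pt (Lsx_symm σ) (Lm_row (sx σ)) j
    rw [red_u (k0 := k0) hν hu (Lm_row _), Lm_pt, hcs, BB_pt (Lsx_symm σ) (Lm_row (sx σ))]
    rfl
  exact g2_of (P := fun σ => Kx ν u (Lm (pt N (sx σ))))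
    (B := BB ν u (Lm N) (bu ν (cs (Lm N)))) (ν := fun k => ν (Sum.inr k))
    (u := fun k => u (Sum.inr k)) (m := fun k l => Lm N (Sum.inr k) (Sum.inr l))
    (c := fun k => cs (Lm N) (Sum.inr (k : J))) (lam := fun k => mu ν (Lm N) k)
    (lam' := fun k => mu' ν u (Lm N) k) hk0 hJ₀ (fun z => BB_alt hu z)
    (fun k l hkl => by
      have hne : (Sum.inr k : U ⊕ J) ≠ Sum.inr l := fun h => hkl (Sum.inr_injective h)
      rw [Lm_ne _ hne, Lm_ne _ (Ne.symm hne)]
      have h3 := hN _ _ hne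
      rwa [hw, hw, one_mul, one_mul] at h3)
    (fun z k => hx_u hν hrow z k) (fun z k => hy_u hν hu hrow z k) hnn hiff

/-- the form, ramified -/
theorem g2_r {U J : Type} [Fintype U] [DecidableEq U] [Fintype J] [LinearOrder J] {v0 : U}
    {w u ν : U ⊕ J → ZMod 2} {N : U ⊕ J → U ⊕ J → ZMod 2}
    (hw : ∀ k, w (Sum.inr k) = 1) (hu : ∑ i, u i = 1) (hwv : w (Sum.inl v0) = 1)
    (huv : u (Sum.inl v0) = 0) (hν : ∀ k, ν (Sum.inr k) = N (Sum.inl v0) (Sum.inr k))
    (hN : ∀ i j, i ≠ j → w i * N i j + w j * N j i = u i * u j)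
    (hw0 : ∀ v, w (Sum.inl v) = 0 → u (Sum.inl v) = 1 ∧ ∀ v', w (Sum.inl v') = 0 → v = v')
    (hnd : ∀ (b : U → ZMod 2) (s : ZMod 2), ((∃ v, b v ≠ 0) ∨ s ≠ 0) →
      ∃ k, ∑ v, b v * N (Sum.inl v) (Sum.inr k) + s * u (Sum.inr k) ≠ 0)
    (hJ : 2 * Fintype.card U < Fintype.card J) :
    G2 (Fintype.card U) (fun k => ν (Sum.inr k)) (fun k => u (Sum.inr k))
      (fun k l => Lm N (Sum.inr k) (Sum.inr l))
      (fun σ => Kr (Sum.inl v0) ν u (Lm (pt N (sx σ)))) := by
  have hkv : ∀ k v, Lm N (Sum.inr k) (Sum.inl v) = w (Sum.inl v) * N (Sum.inl v) (Sum.inr k) +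
      u (Sum.inr k) * u (Sum.inl v) := by
    intro k v
    rw [Lm_ne _ (by simp)]
    have h3 := hN (Sum.inl v) (Sum.inr k) (by simp)
    rw [hw, one_mul] at h3
    have : ∀ a b c d : ZMod 2, a + b = c * d → b = a + d * c := by decide
    exact this _ _ _ _ h3
  have hvk : ∀ k v, Lm N (Sum.inl v) (Sum.inr k) = N (Sum.inl v) (Sum.inr k) := by
    intro k v
    rw [Lm_ne _ (by simp)]
  have key : ∀ e : E2 U, (∀ k, mr v0 ν (Lm N) k e = 0 ∧ mr' v0 u (Lm N) k e = 0) → e = 0 := by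
    intro e he
    set C : ZMod 2 := e.1 v0 + (∑ v, ν (Sum.inl v) * e.1 v + e.1 v0 * ∑ i, ν i) with hC
    have h1 : ∀ k, ∑ v, (w (Sum.inl v) * e.2 v + if v = v0 then C else 0) *
        N (Sum.inl v) (Sum.inr k) + (∑ v, u (Sum.inl v) * e.2 v) * u (Sum.inr k) = 0 := by
      intro k
      have h2 := (he k).1
      unfold mr at h2
      simp only [hkv] at h2
      rw [sw1 (fun v => u (Sum.inl v)) e.2 (fun v => N (Sum.inl v) (Sum.inr k)) _ 0
        (fun v => w (Sum.inl v))] at h2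
      simp only [add_mul, sum_add_distrib, ite_mul, zero_mul]
      rw [sum_ite_eq' univ v0, if_pos (mem_univ _), ← h2, hν, hC]
      ring
    have h2 : ¬ ((∃ v, w (Sum.inl v) * e.2 v + (if v = v0 then C else 0) ≠ 0) ∨
        ∑ v, u (Sum.inl v) * e.2 v ≠ 0) := by
      intro h
      obtain ⟨k, hk⟩ := hnd _ _ h
      exact hk (h1 k)
    push Not at h2
    obtain ⟨h3, h4⟩ := h2
    have e2z : ∀ v, v ≠ v0 → e.2 v = 0 := by
      intro v hv
      rcases zz (w (Sum.inl v)) with h | h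
      · obtain ⟨h6, h7⟩ := hw0 v h
        have h8 : ∑ v, u (Sum.inl v) * e.2 v = e.2 v := by
          rw [Finset.sum_eq_single v, h6, one_mul]
          · intro v' _ hv'
            rcases zz (w (Sum.inl v')) with h9 | h9
            · exact absurd (h7 v' h9).symm hv'
            · by_cases hv0 : v' = v0
              · rw [hv0, huv, zero_mul]
              · have := h3 v'
                rw [h9, one_mul, if_neg hv0, add_zero] at this
                rw [this, mul_zero]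
          · exact fun h => absurd (mem_univ v) h
        rw [← h8, h4]
      · have := h3 v
        rwa [h, one_mul, if_neg hv, add_zero] at this
    have e2v : e.2 v0 = C := by
      have := h3 v0
      rw [hwv, one_mul, if_pos rfl] at this
      exact e01 this
    have h5 : ∀ k, ∑ v, (e.1 v + e.1 v0 * (1 + w (Sum.inl v))) * N (Sum.inl v) (Sum.inr k) = 0 := by
      intro k
      have h6 := (he k).2
      unfold mr' at h6
      rw [h4, mul_zero, add_zero, cs_big hw hu hN, mul_sum, ← sum_add_distrib] at h6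
      rw [← h6]
      refine sum_congr rfl fun v _ => ?_
      rw [hvk]
      ring
    have h6 : ∀ v, e.1 v + e.1 v0 * (1 + w (Sum.inl v)) = 0 := by
      by_contra hc
      push Not at hc
      obtain ⟨k, hk⟩ := hnd (fun v => e.1 v + e.1 v0 * (1 + w (Sum.inl v))) 0 (Or.inl hc)
      apply hk
      rw [zero_mul, add_zero]
      exact h5 k
    have e1v : e.1 v0 = 0 := by
      have := h6 v0
      rwa [hwv, aa, mul_zero, add_zero] at this
    have e1z : ∀ v, e.1 v = 0 := by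
      intro v
      have := h6 v
      rwa [e1v, zero_mul, add_zero] at this
    have C0 : C = 0 := by
      have : ∑ v, ν (Sum.inl v) * e.1 v = 0 := sum_eq_zero fun v _ => by rw [e1z v, mul_zero]
      rw [hC, this, e1v, zero_mul, add_zero, add_zero]
    refine Prod.ext (funext e1z) (funext fun v => ?_)
    by_cases hv : v = v0
    · rw [hv, e2v, C0]
      rfl
    · exact e2z v hv
  obtain ⟨k0, J₀, hk0, hJ₀, hnn⟩ := choice (fun k => mr v0 ν (Lm N) k) (fun k => mr' v0 u (Lm N) k)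
    (fun k a b => by
      show mr v0 ν (Lm N) k (a + b) = mr v0 ν (Lm N) k a + mr v0 ν (Lm N) k b
      unfold mr
      rw [Prod.fst_add, Prod.snd_add, s1a, s1a, Pi.add_apply]
      ring)
    (fun k c a => by
      show mr v0 ν (Lm N) k (c • a) = c * mr v0 ν (Lm N) k a
      unfold mr
      rw [Prod.smul_fst, Prod.smul_snd, s1s, s1s, Pi.smul_apply, smul_eq_mul]
      ring)
    (fun k a b => by
      show mr' v0 u (Lm N) k (a + b) = mr' v0 u (Lm N) k a + mr' v0 u (Lm N) k b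
      unfold mr'
      rw [Prod.fst_add, Prod.snd_add, s1a, s1a, Pi.add_apply]
      ring)
    (fun k c a => by
      show mr' v0 u (Lm N) k (c • a) = c * mr' v0 u (Lm N) k a
      unfold mr'
      rw [Prod.smul_fst, Prod.smul_snd, s1s, s1s, Pi.smul_apply, smul_eq_mul]
      ring)
    key hJ
  have hrow : ∀ i, ∑ j, Lm N i j = 0 := Lm_row N
  have hiff : ∀ σ : ps J → ZMod 2, Kr (Sum.inl v0) ν u (Lm (pt N (sx σ))) ↔
      Nde (BB ν u (Lm N) (br v0)) (Sg k0 σ) := by
    intro σ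
    rw [red_r (k0 := k0) hu (Lm_row _), Lm_pt, BB_pt (Lsx_symm σ) (Lm_row (sx σ))]
    rfl
  exact g2_of (P := fun σ => Kr (Sum.inl v0) ν u (Lm (pt N (sx σ))))
    (B := BB ν u (Lm N) (br v0)) (ν := fun k => ν (Sum.inr k))
    (u := fun k => u (Sum.inr k)) (m := fun k l => Lm N (Sum.inr k) (Sum.inr l))
    (c := fun k => 0) (lam := fun k => mr v0 ν (Lm N) k)
    (lam' := fun k => mr' v0 u (Lm N) k) hk0 hJ₀ (fun z => BB_alt hu z)
    (fun k l hkl => by
      have hne : (Sum.inr k : U ⊕ J) ≠ Sum.inr l := fun h => hkl (Sum.inr_injective h)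
      rw [Lm_ne _ hne, Lm_ne _ (Ne.symm hne)]
      have h3 := hN _ _ hne
      rwa [hw, hw, one_mul, one_mul] at h3)
    (fun z k => hx_r v0 hrow z k) (fun z k => hy_r v0 hu hrow z k) hnn hiff

/-- the form, one special index -/
theorem g2_p {U J : Type} [Fintype U] [DecidableEq U] [Fintype J] [LinearOrder J]
    {w u ν : Option U ⊕ J → ZMod 2} {N : Option U ⊕ J → Option U ⊕ J → ZMod 2}
    (hw : ∀ k, w (Sum.inr k) = 1) (hνs : ν (Sum.inl none) = 1) (hus : u (Sum.inl none) = 1)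
    (hu : ∑ i, u i = 0) (hν : ∑ i, ν i = 0)
    (hN : ∀ i j, i ≠ j → w i * N i j + w j * N j i = u i * u j)
    (hw0 : ∀ v, w (Sum.inl v) = 0 → u (Sum.inl v) = 1 ∧ ∀ v', w (Sum.inl v') = 0 → v = v')
    (hnd : ∀ (b : Option U → ZMod 2) (s a : ZMod 2), ((∃ v, b v ≠ 0) ∨ s ≠ 0 ∨ a ≠ 0) →
      ∃ k, ∑ v, b v * N (Sum.inl v) (Sum.inr k) + s * u (Sum.inr k) + a * ν (Sum.inr k) ≠ 0)
    (hJ : 2 * Fintype.card U < Fintype.card J) :
    G2 (Fintype.card U) (fun k => ν (Sum.inr k)) (fun k => u (Sum.inr k))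
      (fun k l => Lm N (Sum.inr k) (Sum.inr l)) (fun σ => Kx ν u (Lm (pt N (sx σ)))) := by
  have hkv : ∀ k v, Lm N (Sum.inr k) (Sum.inl v) = w (Sum.inl v) * N (Sum.inl v) (Sum.inr k) +
      u (Sum.inr k) * u (Sum.inl v) := by
    intro k v
    rw [Lm_ne _ (by simp)]
    have h3 := hN (Sum.inl v) (Sum.inr k) (by simp)
    rw [hw, one_mul] at h3
    have : ∀ a b c d : ZMod 2, a + b = c * d → b = a + d * c := by decide
    exact this _ _ _ _ h3
  have hvk : ∀ k v, Lm N (Sum.inl v) (Sum.inr k) = N (Sum.inl v) (Sum.inr k) := by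
    intro k v
    rw [Lm_ne _ (by simp)]
  set c := cs (Lm N) with hc
  -- the sum of the second component
  have su : ∀ e : E2 U, ∑ o, u (Sum.inl o) * e2x u e o = 0 := by
    intro e
    rw [Fintype.sum_option, hus, one_mul]
    exact aa _
  have key : ∀ e : E2 U, (∀ k, lamP ν u c (Lm N) k e = 0 ∧ lamP' ν u c (Lm N) k e = 0) → e = 0 := by
    intro e he
    have h1 : ∀ k, ∑ o, (w (Sum.inl o) * e2x u e o) * N (Sum.inl o) (Sum.inr k) +
        0 * u (Sum.inr k) + Xe ν u c (Lm N) e * ν (Sum.inr k) = 0 := by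
      intro k
      have h2 := (he k).1
      unfold lamP at h2
      simp only [hkv] at h2
      rw [sw1 (fun o => u (Sum.inl o)) (e2x u e) (fun o => N (Sum.inl o) (Sum.inr k)) _ 0
        (fun o => w (Sum.inl o)), su, zero_mul, add_zero] at h2
      rw [zero_mul, add_zero, ← h2]
      ring
    have h2 : ¬ ((∃ o, w (Sum.inl o) * e2x u e o ≠ 0) ∨ (0 : ZMod 2) ≠ 0 ∨
        Xe ν u c (Lm N) e ≠ 0) := by
      intro h
      obtain ⟨k, hk⟩ := hnd _ _ _ h
      exact hk (h1 k)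
    push Not at h2
    obtain ⟨h3, -, h5⟩ := h2
    have e2z : ∀ o, e2x u e o = 0 := by
      intro v
      rcases zz (w (Sum.inl v)) with h | h
      · obtain ⟨h6, h7⟩ := hw0 v h
        have h8 : ∑ v, u (Sum.inl v) * e2x u e v = e2x u e v := by
          rw [Finset.sum_eq_single v, h6, one_mul]
          · intro v' _ hv'
            rcases zz (w (Sum.inl v')) with h9 | h9
            · exact absurd (h7 v' h9).symm hv'
            · have := h3 v'
              rw [h9, one_mul] at this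
              rw [this, mul_zero]
          · exact fun h => absurd (mem_univ v) h
        rw [← h8, su]
      · have := h3 v
        rwa [h, one_mul] at this
    have ez2 : e.2 = 0 := funext fun v => e2z (some v)
    have X0 : e1x ν u c e none = 0 := by
      unfold Xe at h5
      have : ∑ o, Lm N (Sum.inl none) (Sum.inl o) * e2x u e o = 0 :=
        sum_eq_zero fun o _ => by rw [e2z, mul_zero]
      rw [this, add_zero, hνs, one_mul] at h5
      exact h5
    have d0 : ∑ o, ν (Sum.inl o) * e1x ν u c e o = 0 := by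
      rw [Fintype.sum_option, X0, mul_zero, zero_add]
      have h6 : e1x ν u c e none = ∑ v, ν (Sum.inl (some v)) * e.1 v +
        ∑ v, c (Sum.inl (some v)) * e.2 v + c (Sum.inl none) *
          ∑ v, u (Sum.inl (some v)) * e.2 v := rfl
      have z0 : ∀ f : U → ZMod 2, ∑ v, f v * e.2 v = 0 := fun f =>
        sum_eq_zero fun v _ => by rw [ez2]; exact mul_zero _
      rw [X0, z0, z0, mul_zero, add_zero, add_zero] at h6
      exact h6.symm
    have e1z : ∀ o, e1x ν u c e o = 0 := by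
      by_contra hcc
      push Not at hcc
      obtain ⟨k, hk⟩ := hnd (fun o => e1x ν u c e o) (Ye ν u c (Lm N) e) 0 (Or.inl hcc)
      apply hk
      have h6 := (he k).2
      unfold lamP' at h6
      rw [h5, d0, mul_zero, zero_mul, add_zero, add_zero] at h6
      rw [zero_mul, add_zero, ← h6]
      congr 1
      · refine sum_congr rfl fun v _ => ?_
        rw [hvk, mul_comm]
      · ring
    exact Prod.ext (funext fun v => e1z (some v)) ez2
  obtain ⟨k0, J₀, hk0, hJ₀, hnn⟩ := choice (fun k => lamP ν u c (Lm N) k)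
    (fun k => lamP' ν u c (Lm N) k) (fun k a b => lamP_add k a b) (fun k s a => lamP_smul k s a)
    (fun k a b => lamP'_add k a b) (fun k s a => lamP'_smul k s a) key hJ
  have hrow : ∀ i, ∑ j, Lm N i j = 0 := Lm_row N
  have hiff : ∀ σ : ps J → ZMod 2, Kx ν u (Lm (pt N (sx σ))) ↔
      Nde (BP ν u c (Lm N)) (Sg k0 σ) := by
    intro σ
    have hcs : cs (pt (Lm N) (Lm (sx σ))) = c :=
      funext fun j => cs_pt (Lsx_symm σ) (Lm_row (sx σ)) j
    rw [redP (k0 := k0) hν hu (Lm_row _) hνs hus, Lm_pt, hcs, BP_pt]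
    rfl
  refine ⟨U, ZMod 2 × ZMod 2 × ZMod 2 × ZMod 2 × ZMod 2, ZMod 2, inferInstance, inferInstance,
    inferInstance, k0, J₀, BP ν u c (Lm N), FP ν u c (Lm N),
    (fun x => ∑ l : Ix k0, u (Sum.inr (l : J)) * x l),
    (fun k e F => ∑ v, Lm N (Sum.inr (k : J)) (Sum.inl (some v)) * e.2 v +
        Lm N (Sum.inr (k : J)) (Sum.inl none) * F.2.1 + ν (Sum.inr (k : J)) * F.2.2.1),
    (fun k e F => ∑ v, Lm N (Sum.inl (some v)) (Sum.inr (k : J)) * e.1 v +
        Lm N (Sum.inl none) (Sum.inr (k : J)) * F.1 +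
        (c (Sum.inr (k : J)) + c (Sum.inl none) * u (Sum.inr (k : J))) * F.2.2.1 +
        u (Sum.inr (k : J)) * F.2.2.2.1 +
        F.2.2.2.2 * dP ν u c (fy k : EE (E2 U) (Ix k0))),
    (fun k g => u (Sum.inr (k : J)) * g), le_refl _,
    (by simp only [Fintype.card_prod, ZMod.card]; norm_num), (by rw [ZMod.card]; norm_num),
    hk0, hJ₀, ?_, (fun z k => hxP hνs z k), (fun z k => hyP z k), ?_, ?_, hiff⟩
  · intro z
    rw [BP_apply, SL_self, u_ph2 hus, add_zero, dP_apply]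
    have : ∀ a : ZMod 2, a + a * a = 0 := by decide
    exact this _
  · intro x k
    have hm : ∀ k l : Ix k0, k ≠ l → Lm N (Sum.inr (k : J)) (Sum.inr (l : J)) +
        Lm N (Sum.inr (l : J)) (Sum.inr (k : J)) = u (Sum.inr (k : J)) * u (Sum.inr (l : J)) := by
      intro k l hkl
      have hne : (Sum.inr (k : J) : Option U ⊕ J) ≠ Sum.inr (l : J) := fun h =>
        hkl (Subtype.ext (Sum.inr_injective h))
      rw [Lm_ne _ hne, Lm_ne _ (Ne.symm hne)]
      have h3 := hN _ _ hne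
      rwa [hw, hw, one_mul, one_mul] at h3
    have h5 := msum (u := fun k : Ix k0 => u (Sum.inr (k : J)))
      (m := fun k l : Ix k0 => Lm N (Sum.inr (k : J)) (Sum.inr (l : J))) hm k x
    rw [h5, add_comm]
  · intro e he
    by_contra hcc
    refine hcc (hnn e fun k hk => ?_)
    have hkk : k ≠ k0 := fun h => hk0 (h ▸ hk)
    have h1 := he ⟨k, hkk⟩ hk
    rw [BP_ex hνs, BP_ey hνs] at h1
    exact h1

end Pool.Agent.N809.JT
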