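import Pool.Agent.N809.JT.Lr
import Pool.Agent.N877.JT.Main
import Pool.Agent.N972.JT.Sd
import Pool.Agent.N963.JT.Cls

/-!
# JT: the joint law of the criteria of levels 15 and 17
-/

set_option autoImplicit false
set_option linter.all false

open scoped Classical

namespace Pool.Agent.N809.JT

open Finset Module
open Pool.Agent.N916.GB (pt ps sx eta Po Vt)
open Pool.Agent.Y703.CQ (c2 nr)
open Pool.Agent.N916.AM (LAH Nd Rich Bs)
open Pool.Agent.N916.MO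
open Pool.Agent.N916.PQ (Hy Gc PM G15 f15 prodS PT)
open Pool.Agent.N972.P17 (Sx Sr)
open Pool.Agent.N969.P17G (SxP)
open Pool.Agent.N919.BS (HG Rt17)
open Pool.Agent.N809.PQ (Sg15)
open Pool.Agent.N875.X15 (d2 oe oe_mod d2_spec)

/-- the joint estimate holds -/
theorem jm : JM := by
  intro ε hε
  obtain ⟨V₀, hV⟩ := Pool.Agent.N877.JT.jmain ε hε
  refine ⟨V₀, ?_⟩
  intro R C J U CC CC' _ _ _ _ _ _ _ M X Y u k0 J₀ n0 B ν υ m F G Φ Ψ Θ hH hCR hR hU hCC hCC' hk0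
    hJ0 hB hx hy hm hl r1 r2 r3 r4 hnd
  refine hV R C J (E2 U) CC CC' M X Y u k0 J₀ n0 B ν υ m F G Φ Ψ Θ hH hCR hR ?_ ev_E2 hCC hCC' hk0
    hJ0 ⟨hB, hx, hy, hm⟩ hnd hl r1 r2 r3 r4
  have h1 : Fintype.card (E2 U) = 4 ^ Fintype.card U := by
    rw [Fintype.card_prod, Fintype.card_fun, ZMod.card, ← mul_pow]
    norm_num
  rw [h1]
  exact Nat.pow_le_pow_right (by norm_num) hU

theorem J17.mono {M : ℕ} {K K' : Finset ℕ} {t : Bool} {r s : ZMod 2}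
    {G : Finset ℕ → Prop} {η : ℝ} (hK : K' ⊆ K) (h : J17 M K t r s G η) : J17 M K' t r s G η := by
  intro ε hε
  obtain ⟨V, hV⟩ := h ε hε
  refine ⟨V, ?_⟩
  intro ι _ _ S₀ p hS₀ hp hpi hpK hN hR
  exact hV ι S₀ p hS₀ hp hpi (hK hpK) hN hR

section
variable {M : ℕ} {K : Finset ℕ} {k c : ℕ} {t : Bool} {r s : ZMod 2}

/-- positive integers -/
theorem j_pos (hM : 136 ∣ M) (hM0 : 0 < M) (hk : k = 1 ∨ k = 2) (hc : c = 1 ∨ c = 3)
    (hts : t = false → s = 0) (htr : t = true → r ≠ 0 ∨ s ≠ 0)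
    (hcs : c = if s = 0 then 1 else 3)
    (hK : ∀ a ∈ K, a % 4 = c ∧ Rt17 (1 * ((k * a : ℕ) : ℤ)))
    (hG : ∀ n, 0 < n → Squarefree n → n % 4 = c → ¬ 17 ∣ n →
      (G17 (1 * ((k * n : ℕ) : ℤ)) ↔ Gu t r s n.primeFactors)) :
    J17 M K t r s (fun S => G17 (1 * ((k * ∏ v ∈ S, v : ℕ) : ℤ))) (eta * c2) := by
  have h4M : (4 : ℕ) ∣ M := Dvd.dvd.trans (by norm_num) hM
  have h17M : (17 : ℕ) ∣ M := Dvd.dvd.trans (by norm_num) hM
  have h1M : 1 < M := lt_of_lt_of_le (by norm_num) (Nat.le_of_dvd hM0 hM)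
  have hK' : ∀ a ∈ K, a % 4 = (if s = 0 then 1 else 3) ∧ nr 17 a = 0 ∧ ¬ 17 ∣ a := by
    intro a ha
    obtain ⟨h1, h2⟩ := hK a ha
    exact ⟨h1.trans hcs, (rt_pos hk (by rcases hc with h | h <;> omega)).1 h2⟩
  refine J17.congr h1M ?_ (j17_p jm hM hM0 hts htr hK')
  intro S hS hK1 _
  obtain ⟨e1, e2, e3⟩ := prodS hS
  have h4 := (hK _ hK1).1
  rw [Nat.mod_mod_of_dvd _ h4M] at h4
  have h17 := (hK' _ hK1).2.2
  rw [Nat.dvd_mod_iff h17M] at h17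
  have := hG _ e3 e1 h4 h17
  rw [e2] at this
  exact this

/-- negative integers -/
theorem j_neg {e : ℕ} (hM : 136 ∣ M) (hM0 : 0 < M) (hk : k = 1 ∨ k = 2) (hc : c = 1 ∨ c = 3)
    (hts : t = false → s = 0) (htr : t = true → r ≠ 0 ∨ s ≠ 0)
    (hcs : c = if s = 0 then 3 else 1) (he : ¬ 17 ∣ e)
    (hK : ∀ a ∈ K, a % 4 = c ∧ Rt17 (-1 * ((k * a : ℕ) : ℤ)))
    (hG : ∀ n, Squarefree n → n % 4 = c → (G17 (-1 * ((k * n : ℕ) : ℤ)) ↔ C17 (e * n)))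
    (hu : ∀ n, Squarefree n → n % 4 = c → ¬ 17 ∣ e * n → (Sx (e * n) ↔ Gu t r s n.primeFactors))
    (hw : ∀ n, Squarefree n → n % 4 = c → 17 ∣ e * n → (Sr (e * n) ↔ Gw t r s n.primeFactors)) :
    J17 M K t r s (fun S => G17 (-1 * ((k * ∏ v ∈ S, v : ℕ) : ℤ))) (eta * c2) := by
  have h4M : (4 : ℕ) ∣ M := Dvd.dvd.trans (by norm_num) hM
  have h17M : (17 : ℕ) ∣ M := Dvd.dvd.trans (by norm_num) hM
  have h1M : 1 < M := lt_of_lt_of_le (by norm_num) (Nat.le_of_dvd hM0 hM)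
  have hd : ∀ n, 17 ∣ e * n ↔ 17 ∣ n := by
    intro n
    rw [p17.dvd_mul]
    exact ⟨fun h => h.resolve_left he, Or.inr⟩
  have hsub : K ⊆ (K.filter fun a => ¬ 17 ∣ a) ∪ K.filter fun a => 17 ∣ a := by
    intro a ha
    rw [mem_union, mem_filter, mem_filter]
    by_cases h : 17 ∣ a
    · exact Or.inr ⟨ha, h⟩
    · exact Or.inl ⟨ha, h⟩
  refine J17.mono hsub (J17.union ?_ ?_)
  · refine J17.congr h1M ?_ (j17_u jm hM hM0 hts htr ?_)
    · intro S hS hK1 _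
      obtain ⟨hK2, h17⟩ := mem_filter.1 hK1
      obtain ⟨e1, e2, e3⟩ := prodS hS
      have h4 := (hK _ hK2).1
      rw [Nat.mod_mod_of_dvd _ h4M] at h4
      rw [Nat.dvd_mod_iff h17M] at h17
      have h17' : ¬ 17 ∣ e * ∏ v ∈ S, v := fun h => h17 ((hd _).1 h)
      have h5 := hu _ e1 h4 h17'
      rw [e2] at h5
      rw [hG _ e1 h4, ← h5]
      exact ⟨fun h => h.1 h17', fun h => ⟨fun _ => h, fun h' => absurd h' h17'⟩⟩
    · intro a ha
      obtain ⟨hK2, h17⟩ := mem_filter.1 ha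
      obtain ⟨h1, h2⟩ := hK a hK2
      exact ⟨h1.trans hcs, ((rt_neg hk (by rcases hc with h | h <;> omega)).1 h2).resolve_right h17⟩
  · refine J17.congr h1M ?_ (j17_w jm hM hM0 hts htr ?_)
    · intro S hS hK1 _
      obtain ⟨hK2, h17⟩ := mem_filter.1 hK1
      obtain ⟨e1, e2, e3⟩ := prodS hS
      have h4 := (hK _ hK2).1
      rw [Nat.mod_mod_of_dvd _ h4M] at h4
      rw [Nat.dvd_mod_iff h17M] at h17
      have h17' : 17 ∣ e * ∏ v ∈ S, v := (hd _).2 h17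
      have h5 := hw _ e1 h4 h17'
      rw [e2] at h5
      rw [hG _ e1 h4, ← h5]
      exact ⟨fun h => h.2 h17', fun h => ⟨fun h' => absurd h17' h', fun _ => h⟩⟩
    · intro a ha
      obtain ⟨hK2, h17⟩ := mem_filter.1 ha
      exact ⟨(hK a hK2).1.trans hcs, h17⟩

end

/-- the parameters in the eight classes -/
theorem det8 {s' : ℤ} {k c : ℕ} {t : Bool} {r s : ZMod 2} (H : PM s' k c t r s) :
    (s' = 1 ∧ k = 1 ∧ c = 1 ∧ t = false ∧ r = 0 ∧ s = 0) ∨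
    (s' = 1 ∧ k = 1 ∧ c = 3 ∧ t = true ∧ r = 0 ∧ s = 1) ∨
    (s' = 1 ∧ k = 2 ∧ c = 1 ∧ t = true ∧ r = 1 ∧ s = 0) ∨
    (s' = 1 ∧ k = 2 ∧ c = 3 ∧ t = true ∧ r = 1 ∧ s = 1) ∨
    (s' = -1 ∧ k = 1 ∧ c = 1 ∧ t = true ∧ r = 0 ∧ s = 1) ∨
    (s' = -1 ∧ k = 1 ∧ c = 3 ∧ t = false ∧ r = 0 ∧ s = 0) ∨
    (s' = -1 ∧ k = 2 ∧ c = 1 ∧ t = true ∧ r = 1 ∧ s = 1) ∨
    (s' = -1 ∧ k = 2 ∧ c = 3 ∧ t = true ∧ r = 1 ∧ s = 0) := by
  have hsq : Squarefree c := by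
    rcases H.hc with h | h <;> rw [h]
    · exact squarefree_one
    · exact Nat.prime_three.prime.squarefree
  have hc4 : c % 4 = c := by
    rcases H.hc with h | h <;> rw [h]
  have h1 := H.pt c hsq hc4
  have h2 := d2_spec (H.sqf hsq hc4)
  have h3 := oe_mod (s' * (k * c : ℕ))
  rcases H.hs with rfl | rfl <;> rcases H.hk with rfl | rfl <;> rcases H.hc with rfl | rfl <;>
    rcases h1 with ⟨i1, i2, i3, i4, i5⟩ | ⟨i1, i2, i3, i4, i5⟩ | ⟨i1, i2, i3, i4, i5⟩ |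
      ⟨i1, i2, i3, i4, i5⟩ <;> subst i1 <;> subst i2 <;> subst i3 <;>
    first
      | (exfalso; norm_num at i4; done)
      | (exfalso; norm_num at i5; done)
      | (exfalso; norm_num at i4 h2 h3; rw [i4] at h2; omega)
      | simp

/-- **the joint hypothesis LAH** for all moduli and all sets of residues with both root numbers
`+ 1` -/
theorem jl : Pool.Agent.N963.JT.JL := by
  intro s' k c t r s H M hM hM0 K hK
  have h136 : 136 ∣ M := Dvd.dvd.trans (by norm_num) hM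
  have h1M : 1 < M := lt_of_lt_of_le (by norm_num) (Nat.le_of_dvd hM0 hM)
  have h15 : J15 M K t r s (G15 s' k) :=
    Pool.Agent.N972.JT.s15M (Dvd.dvd.trans (by norm_num) hM) hM0 H K fun a ha =>
      ⟨(hK a ha).1, (hK a ha).2.1⟩
  have hK' : ∀ a ∈ K, a % 4 = c ∧ Rt17 (s' * ((k * a : ℕ) : ℤ)) := fun a ha =>
    ⟨(hK a ha).1, (hK a ha).2.2⟩
  have key : J17 M K t r s (fun S => G17 (s' * ((k * ∏ v ∈ S, v : ℕ) : ℤ))) (eta * c2) := by
    rcases det8 H with ⟨rfl, rfl, rfl, rfl, rfl, rfl⟩ | ⟨rfl, rfl, rfl, rfl, rfl, rfl⟩ |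
      ⟨rfl, rfl, rfl, rfl, rfl, rfl⟩ | ⟨rfl, rfl, rfl, rfl, rfl, rfl⟩ |
      ⟨rfl, rfl, rfl, rfl, rfl, rfl⟩ | ⟨rfl, rfl, rfl, rfl, rfl, rfl⟩ |
      ⟨rfl, rfl, rfl, rfl, rfl, rfl⟩ | ⟨rfl, rfl, rfl, rfl, rfl, rfl⟩
    · -- 1, 1, 1
      refine j_pos h136 hM0 (Or.inl rfl) (Or.inl rfl) H.ts H.tr (if_pos rfl).symm hK' ?_
      intro M h0 h1 h2 h3
      rw [G_pos (n := M) (by omega) (by rw [Kn_odd (by omega)]; omega)]
      exact SxP_iff (parP0 h2) pf_odd (odd2 (Or.inl h2)) h3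
    · -- 1, 1, 3
      refine j_pos h136 hM0 (Or.inl rfl) (Or.inr rfl) H.ts H.tr (if_neg (by decide)).symm hK' ?_
      intro M h0 h1 h2 h3
      rw [G_pos (n := 4 * M) (by omega) (by rw [Kn_ev (by omega)]; omega)]
      exact SxP_iff (parP1 h2) (pf_4 h1.ne_zero) (odd2 (Or.inr h2)) (e17 (by norm_num) h3)
    · -- 1, 2, 1
      refine j_pos h136 hM0 (Or.inr rfl) (Or.inl rfl) H.ts H.tr (if_pos rfl).symm hK' ?_
      intro M h0 h1 h2 h3
      rw [G_pos (n := 8 * M) (by omega) (by rw [Kn_ev (by omega)]; omega)]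
      exact SxP_iff (parP2 h2) (pf_8 h1.ne_zero) (odd2 (Or.inl h2)) (e17 (by norm_num) h3)
    · -- 1, 2, 3
      refine j_pos h136 hM0 (Or.inr rfl) (Or.inr rfl) H.ts H.tr (if_neg (by decide)).symm hK' ?_
      intro M h0 h1 h2 h3
      rw [G_pos (n := 8 * M) (by omega) (by rw [Kn_ev (by omega)]; omega)]
      exact SxP_iff (parP3 h2) (pf_8 h1.ne_zero) (odd2 (Or.inr h2)) (e17 (by norm_num) h3)
    · -- -1, 1, 1
      refine j_neg (e := 4) h136 hM0 (Or.inl rfl) (Or.inl rfl) H.ts H.tr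
        (if_neg (by decide)).symm (by norm_num) hK' ?_ ?_ ?_
      · intro M h1 h2
        exact G_neg (by have := h1.ne_zero; omega) (by rw [Kn_ev (by omega)]; omega)
      · intro M h1 h2 h3
        exact Sx_iff (par1 h2) (pf_4 h1.ne_zero) (odd2 (Or.inl h2)) h3
      · intro M h1 h2 h3
        exact Sr_iff (par1 h2) (pf_4 h1.ne_zero) (odd2 (Or.inl h2)) h3
          (mul_ne_zero (by norm_num) h1.ne_zero)
    · -- -1, 1, 3
      refine j_neg (e := 1) h136 hM0 (Or.inl rfl) (Or.inr rfl) H.ts H.tr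
        (if_pos rfl).symm (by norm_num) hK' ?_ ?_ ?_
      · intro M h1 h2
        exact G_neg (by have := h1.ne_zero; omega) (by rw [Kn_odd (by omega)]; omega)
      · intro M h1 h2 h3
        rw [one_mul] at h3 ⊢
        exact Sx_iff (par0 h2) pf_odd (odd2 (Or.inr h2)) h3
      · intro M h1 h2 h3
        rw [one_mul] at h3 ⊢
        exact Sr_iff (par0 h2) pf_odd (odd2 (Or.inr h2)) h3 h1.ne_zero
    · -- -1, 2, 1
      refine j_neg (e := 8) h136 hM0 (Or.inr rfl) (Or.inl rfl) H.ts H.tr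
        (if_neg (by decide)).symm (by norm_num) hK' ?_ ?_ ?_
      · intro M h1 h2
        exact G_neg (by have := h1.ne_zero; omega) (by rw [Kn_ev (by omega)]; omega)
      · intro M h1 h2 h3
        exact Sx_iff (par2 h2) (pf_8 h1.ne_zero) (odd2 (Or.inl h2)) h3
      · intro M h1 h2 h3
        exact Sr_iff (par2 h2) (pf_8 h1.ne_zero) (odd2 (Or.inl h2)) h3
          (mul_ne_zero (by norm_num) h1.ne_zero)
    · -- -1, 2, 3
      refine j_neg (e := 8) h136 hM0 (Or.inr rfl) (Or.inr rfl) H.ts H.tr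
        (if_pos rfl).symm (by norm_num) hK' ?_ ?_ ?_
      · intro M h1 h2
        exact G_neg (by have := h1.ne_zero; omega) (by rw [Kn_ev (by omega)]; omega)
      · intro M h1 h2 h3
        exact Sx_iff (par3 h2) (pf_8 h1.ne_zero) (odd2 (Or.inr h2)) h3
      · intro M h1 h2 h3
        exact Sr_iff (par3 h2) (pf_8 h1.ne_zero) (odd2 (Or.inr h2)) h3
          (mul_ne_zero (by norm_num) h1.ne_zero)
  exact lahj h1M h15 key

/-- **the joint law of the two criteria among the integers with both root numbers `+ 1`** -/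
theorem hgJ : HG (fun d => f15 d = true ∧ Rt17 d) (fun d => Sg15 d ∧ G17 d) (eta * c2) :=
  Pool.Agent.N963.JT.hg_J jl

end Pool.Agent.N809.JT
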