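import Pool.Agent.N809.JT.Tri
import Pool.Agent.N975.JT.Hg21


/-!
# JT: the joint law of the curves of conductors 15, 17, 21
-/

set_option autoImplicit false
set_option linter.all false

open scoped Classical

namespace Pool.Agent.N809.JT

open Finset Filter
open Pool.Agent.N919.BS (NN NS NF HG Rt17 Fund core)
open Pool.Agent.N963.JT (Sp cls_NS cls_NF dens_NS dens_NF NS_cl NF_cl R15 R17)
open Pool.Agent.N969.Den (NS_close NF_close lim_close NS_top NF_top)
open Pool.Agent.N809.PQ (Sg15 Sg21 w15 w21)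
open Pool.Agent.N916.PQ (f15 f15_w15 f15_of_sg)
open Pool.Agent.N916.PQ.L21 (fO fO_iff f21_of_sg)
open Pool.Agent.N809.Red21 (f21 fD f21_iff fD_f21)
open Pool.Agent.N916.MO (G17)
open Pool.Agent.N916.GB (eta)
open Pool.Agent.Y703.CQ (c2)

/-- `2`-Selmer minimal, level 21 -/
def R21 (d : ℤ) : Prop := Pool.Agent.N875.X15.Fin2 (Pool.Agent.N637.P21.WS d)

/-- the three conditions -/
def RR : Fin 3 → ℤ → Prop := ![R15, R17, R21]

/-- the three root number conditions -/
def RT : Fin 3 → ℤ → Prop := ![fun d => f15 d = true, Rt17, fun d => f21 d = true]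

/-- the three criteria -/
def GG : Fin 3 → ℤ → Prop := ![Sg15, G17, Sg21]

/-- the class in which the criteria of the levels 15 and 21 coincide -/
def Eqc (d : ℤ) : Prop := d < 0 ∧ d % 3 = 0 ∧ ¬ (d % 5 = 1 ∨ d % 5 = 4) ∧
  ¬ (d % 7 = 3 ∨ d % 7 = 5 ∨ d % 7 = 6)

theorem eqc_roots {d : ℤ} (h : Eqc d) : f15 d = true ∧ f21 d = true := by
  obtain ⟨h1, h2, h3, h4⟩ := h
  unfold Pool.Agent.N916.PQ.f15 Pool.Agent.N809.Red21.f21
  rw [decide_eq_true_iff, decide_eq_true_iff, if_pos h1, if_neg (by omega), if_neg h3,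
    if_neg (by omega), if_neg h4]
  exact ⟨by norm_num, by norm_num⟩

/-- the laws for the classes -/
structure Inp : Prop where
  e15 : Law (fun d => f15 d = true) Sg15 eta
  e17 : Law Rt17 G17 c2
  o21 : Law (fun d => fO d = true) Sg21 eta
  d21 : Law (fun d => fD d = true) Sg21 (4 / 3 * eta)
  e1517 : Law (fun d => f15 d = true ∧ Rt17 d) (fun d => Sg15 d ∧ G17 d) (eta * c2)
  o1721 : Law (fun d => fO d = true ∧ Rt17 d) (fun d => Sg21 d ∧ G17 d) (eta * c2)
  d1721 : Law (fun d => fD d = true ∧ Rt17 d) (fun d => Sg21 d ∧ G17 d) (4 / 3 * (eta * c2))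
  q1521 : Law Eqc (fun d => Sg15 d ∧ Sg21 d) eta
  n1521 : Law (fun d => (f15 d = true ∧ f21 d = true) ∧ ¬ Eqc d) (fun d => Sg15 d ∧ Sg21 d)
    (eta / 2)
  q3 : Law (fun d => Eqc d ∧ Rt17 d) (fun d => (Sg15 d ∧ Sg21 d) ∧ G17 d) (eta * c2)
  n3 : Law (fun d => ((f15 d = true ∧ f21 d = true) ∧ ¬ Eqc d) ∧ Rt17 d)
    (fun d => (Sg15 d ∧ Sg21 d) ∧ G17 d) (eta * c2 / 2)

/-- the constant of a set of curves -/
noncomputable def cst (S : Finset (Fin 3)) : ℝ :=
  (if 0 ∈ S ∨ 2 ∈ S then eta else 1) * (if 1 ∈ S then c2 else 1)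

/-- the weights -/
noncomputable def wt (S : Finset (Fin 3)) (d : ℤ) : ℝ :=
  if 0 ∈ S ∧ 2 ∈ S then (if Eqc d then 1 else 1 / 2) else if 2 ∈ S ∧ fD d = true then 4 / 3 else 1

theorem all3 (S : Finset (Fin 3)) (F : Fin 3 → Prop) :
    (∀ j ∈ S, F j) ↔ (0 ∈ S → F 0) ∧ (1 ∈ S → F 1) ∧ (2 ∈ S → F 2) := by
  constructor
  · intro h
    exact ⟨h 0, h 1, h 2⟩
  · rintro ⟨h0, h1, h2⟩ j hj
    fin_cases j
    · exact h0 hj
    · exact h1 hj
    · exact h2 hj

theorem RT0 (d : ℤ) : RT 0 d ↔ f15 d = true := Iff.rfl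
theorem RT1 (d : ℤ) : RT 1 d ↔ Rt17 d := Iff.rfl
theorem RT2 (d : ℤ) : RT 2 d ↔ f21 d = true := Iff.rfl
theorem GG0 (d : ℤ) : GG 0 d ↔ Sg15 d := Iff.rfl
theorem GG1 (d : ℤ) : GG 1 d ↔ G17 d := Iff.rfl
theorem GG2 (d : ℤ) : GG 2 d ↔ Sg21 d := Iff.rfl

theorem hg_true (P : ℤ → Prop) : HG P (fun _ => True) 1 := by
  intro s k r hs hk hr ε hε
  refine ⟨0, fun Y _ => ?_⟩
  have e : NN (fun d => P d ∧ True) s k r Y = NN P s k r Y := by
    congr 1
    funext d
    exact propext (and_iff_left trivial)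
  rw [e, one_mul, sub_self, abs_zero]
  positivity

theorem HG.eq {P P' G G' : ℤ → Prop} {c : ℝ} (h : HG P G c) (h1 : ∀ d, P' d ↔ P d)
    (h2 : ∀ d, G' d ↔ G d) : HG P' G' c := by
  have e1 : P' = P := funext fun d => propext (h1 d)
  have e2 : G' = G := funext fun d => propext (h2 d)
  rw [e1, e2]
  exact h

variable (H : Inp)

include H

/-- **the law for every set of curves, in every class of signs and residues** -/
theorem main_pt (S : Finset (Fin 3)) {m : ℕ} (hm : 0 < m) {V : ℤ → Prop} (hV : Sp m V) :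
    Pt (fun d => (∀ j ∈ S, RT j d) ∧ V d) (fun d => ∀ j ∈ S, GG j d) (wt S) (cst S) := by
  by_cases h0 : (0 : Fin 3) ∈ S <;> by_cases h1 : (1 : Fin 3) ∈ S <;> by_cases h2 : (2 : Fin 3) ∈ S
  · -- 15, 17, 21
    have ec : cst S = eta * c2 := by simp [cst, h0, h1, h2]
    rw [ec]
    refine Pt.two (Q := Eqc) (HG.eq (H.q3.sp hm hV) (fun d => ?_) (fun d => ?_))
      (HG.eq (H.n3.sp hm hV) (fun d => ?_) (fun d => ?_)) (fun d hd hq => ?_) (fun d hd hq => ?_)
    · rw [all3]
      simp only [h0, h1, h2, forall_const, RT0, RT1, RT2]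
      have := @eqc_roots d
      tauto
    · rw [all3]
      simp only [h0, h1, h2, true_imp_iff, false_imp_iff, true_and, and_true, GG0, GG1, GG2]
      try tauto
    · rw [all3]
      simp only [h0, h1, h2, forall_const, RT0, RT1, RT2]
      have hO := fO_iff d
      rw [← Bool.not_eq_true] at hO
      try tauto
    · rw [all3]
      simp only [h0, h1, h2, true_imp_iff, false_imp_iff, true_and, and_true, GG0, GG1, GG2]
      try tauto
    · simp [wt, h0, h2, hq]
    · simp [wt, h0, h2, hq]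
      ring
  · -- 15, 17
    have ec : cst S = eta * c2 := by simp [cst, h0, h1, h2]
    rw [ec]
    refine Pt.one (HG.eq (H.e1517.sp hm hV) (fun d => ?_) (fun d => ?_)) (fun d _ => ?_)
    · rw [all3]
      simp only [h0, h1, h2, forall_const, RT0, RT1, RT2]
      have hO := fO_iff d
      rw [← Bool.not_eq_true] at hO
      try tauto
    · rw [all3]
      simp only [h0, h1, h2, true_imp_iff, false_imp_iff, true_and, and_true, GG0, GG1, GG2]
      try tauto
    · simp [wt, h0, h1, h2]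
  · -- 15, 21
    have ec : cst S = eta := by simp [cst, h0, h1, h2]
    rw [ec]
    refine Pt.two (Q := Eqc) (HG.eq (H.q1521.sp hm hV) (fun d => ?_) (fun d => ?_))
      (HG.eq (H.n1521.sp hm hV) (fun d => ?_) (fun d => ?_)) (fun d hd hq => ?_) (fun d hd hq => ?_)
    · rw [all3]
      simp only [h0, h1, h2, forall_const, RT0, RT1, RT2]
      have := @eqc_roots d
      tauto
    · rw [all3]
      simp only [h0, h1, h2, true_imp_iff, false_imp_iff, true_and, and_true, GG0, GG1, GG2]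
      try tauto
    · rw [all3]
      simp only [h0, h1, h2, forall_const, RT0, RT1, RT2]
      have hO := fO_iff d
      rw [← Bool.not_eq_true] at hO
      try tauto
    · rw [all3]
      simp only [h0, h1, h2, true_imp_iff, false_imp_iff, true_and, and_true, GG0, GG1, GG2]
      try tauto
    · simp [wt, h0, h2, hq]
    · simp [wt, h0, h2, hq]
      ring
  · -- 15
    have ec : cst S = eta := by simp [cst, h0, h1, h2]
    rw [ec]
    refine Pt.one (HG.eq (H.e15.sp hm hV) (fun d => ?_) (fun d => ?_)) (fun d _ => ?_)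
    · rw [all3]
      simp only [h0, h1, h2, forall_const, RT0, RT1, RT2]
      have hO := fO_iff d
      rw [← Bool.not_eq_true] at hO
      try tauto
    · rw [all3]
      simp only [h0, h1, h2, true_imp_iff, false_imp_iff, true_and, and_true, GG0, GG1, GG2]
      try tauto
    · simp [wt, h0, h1, h2]
  · -- 17, 21
    have ec : cst S = eta * c2 := by simp [cst, h0, h1, h2]
    rw [ec]
    refine Pt.two (Q := fun d => fD d = true) (HG.eq (H.d1721.sp hm hV) (fun d => ?_) (fun d => ?_))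
      (HG.eq (H.o1721.sp hm hV) (fun d => ?_) (fun d => ?_)) (fun d hd hq => ?_) (fun d hd hq => ?_)
    · rw [all3]
      simp only [h0, h1, h2, forall_const, RT0, RT1, RT2]
      have := @fD_f21 d
      tauto
    · rw [all3]
      simp only [h0, h1, h2, true_imp_iff, false_imp_iff, true_and, and_true, GG0, GG1, GG2]
      try tauto
    · rw [all3]
      simp only [h0, h1, h2, forall_const, RT0, RT1, RT2]
      have hO := fO_iff d
      rw [← Bool.not_eq_true] at hO
      try tauto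
    · rw [all3]
      simp only [h0, h1, h2, true_imp_iff, false_imp_iff, true_and, and_true, GG0, GG1, GG2]
      try tauto
    · simp [wt, h0, h2, hq]
      ring
    · simp [wt, h0, h2, hq]
  · -- 17
    have ec : cst S = c2 := by simp [cst, h0, h1, h2]
    rw [ec]
    refine Pt.one (HG.eq (H.e17.sp hm hV) (fun d => ?_) (fun d => ?_)) (fun d _ => ?_)
    · rw [all3]
      simp only [h0, h1, h2, forall_const, RT0, RT1, RT2]
      have hO := fO_iff d
      rw [← Bool.not_eq_true] at hO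
      try tauto
    · rw [all3]
      simp only [h0, h1, h2, true_imp_iff, false_imp_iff, true_and, and_true, GG0, GG1, GG2]
      try tauto
    · simp [wt, h0, h1, h2]
  · -- 21
    have ec : cst S = eta := by simp [cst, h0, h1, h2]
    rw [ec]
    refine Pt.two (Q := fun d => fD d = true) (HG.eq (H.d21.sp hm hV) (fun d => ?_) (fun d => ?_))
      (HG.eq (H.o21.sp hm hV) (fun d => ?_) (fun d => ?_)) (fun d hd hq => ?_) (fun d hd hq => ?_)
    · rw [all3]
      simp only [h0, h1, h2, forall_const, RT0, RT1, RT2]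
      have := @fD_f21 d
      tauto
    · rw [all3]
      simp only [h0, h1, h2, true_imp_iff, false_imp_iff, true_and, and_true, GG0, GG1, GG2]
      try tauto
    · rw [all3]
      simp only [h0, h1, h2, forall_const, RT0, RT1, RT2]
      have hO := fO_iff d
      rw [← Bool.not_eq_true] at hO
      try tauto
    · rw [all3]
      simp only [h0, h1, h2, true_imp_iff, false_imp_iff, true_and, and_true, GG0, GG1, GG2]
      try tauto
    · simp [wt, h0, h2, hq]
      ring
    · simp [wt, h0, h2, hq]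
  · -- the empty set
    have ec : cst S = 1 := by simp [cst, h0, h1, h2]
    rw [ec]
    refine Pt.one (HG.eq (hg_true V) (fun d => ?_) (fun d => ?_))
      (fun d _ => ?_)
    · rw [all3]
      simp only [h0, h1, h2]
      tauto
    · rw [all3]
      simp only [h0, h1, h2]
      tauto
    · simp [wt, h0, h1, h2]

omit H in
/-- the criteria -/
theorem rr_iff (j : Fin 3) {d : ℤ} (hs : Squarefree d) (h1 : d ≠ 1) (h2 : d ≠ -1) :
    RR j d ↔ RT j d ∧ GG j d := by
  fin_cases j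
  · show R15 d ↔ f15 d = true ∧ Sg15 d
    rw [← Pool.Agent.N963.JT.r15_iff d hs h1 h2]
    exact ⟨fun h => ⟨f15_of_sg hs h, h⟩, fun h => h.2⟩
  · show R17 d ↔ Rt17 d ∧ G17 d
    exact Pool.Agent.N963.JT.r17_iff hs
  · show R21 d ↔ f21 d = true ∧ Sg21 d
    have h3 : R21 d ↔ Sg21 d := Pool.Agent.N809.D21.fin2_iff hs h1
    rw [h3]
    exact ⟨fun h => ⟨f21_of_sg hs h, h⟩, fun h => h.2⟩

omit H in
theorem rrS_iff (S : Finset (Fin 3)) {d : ℤ} (hs : Squarefree d) (h1 : d ≠ 1) (h2 : d ≠ -1) :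
    (∀ j ∈ S, RR j d) ↔ (∀ j ∈ S, RT j d) ∧ ∀ j ∈ S, GG j d :=
  ⟨fun h => ⟨fun j hj => ((rr_iff j hs h1 h2).1 (h j hj)).1,
    fun j hj => ((rr_iff j hs h1 h2).1 (h j hj)).2⟩,
    fun h j hj => (rr_iff j hs h1 h2).2 ⟨h.1 j hj, h.2 j hj⟩⟩

/-- a class given by the sign and the residue modulo `m` -/
def Cs (m : ℕ) (A B : Set ℤ) (d : ℤ) : Prop :=
  (0 < d ∧ d % (m : ℤ) ∈ A) ∨ (d < 0 ∧ d % (m : ℤ) ∈ B)

omit H in
theorem sp_Cs (m : ℕ) (A B : Set ℤ) : Sp m (Cs m A B) := by
  intro a b hab hM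
  unfold Cs
  rw [hM]
  rcases hab with ⟨h1, h2⟩ | ⟨h1, h2⟩
  · have e1 : ¬ a < 0 := by omega
    have e2 : ¬ b < 0 := by omega
    simp only [h1, h2, e1, e2]
  · have e1 : ¬ 0 < a := by omega
    have e2 : ¬ 0 < b := by omega
    simp only [h1, h2, e1, e2]

omit H in
theorem sp_f21 {M : ℕ} (h : 21 ∣ M) : Sp M fun d => f21 d = true := by
  intro a b hab hM
  have h21 : a % (21 : ℕ) = b % (21 : ℕ) := by
    have h1 : ((21 : ℕ) : ℤ) ∣ M := Int.natCast_dvd_natCast.2 h
    rw [← Int.emod_emod_of_dvd a h1, hM, Int.emod_emod_of_dvd b h1]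
  have e3 : a % 3 = b % 3 := by push_cast at h21; omega
  have e7 : a % 7 = b % 7 := by push_cast at h21; omega
  show f21 a = true ↔ f21 b = true
  unfold Pool.Agent.N809.Red21.f21
  rw [e3, e7]
  rcases hab with ⟨h1, h2⟩ | ⟨h1, h2⟩
  · rw [if_neg (by omega : ¬ a < 0), if_neg (by omega : ¬ b < 0)]
  · rw [if_pos h1, if_pos h2]

omit H in
theorem sp_RT (j : Fin 3) : Sp 1785 (RT j) := by
  fin_cases j
  · exact Pool.Agent.N963.JT.sp_f15 (by norm_num)
  · exact Pool.Agent.N963.JT.sp_rt (by norm_num)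
  · exact sp_f21 (by norm_num)

omit H in
theorem sp_RTs (T : Finset (Fin 3)) : Sp 1785 (fun d => ∀ j ∈ T, RT j d) := by
  intro a b hab hM
  constructor
  · exact fun h j hj => (sp_RT j a b hab hM).1 (h j hj)
  · exact fun h j hj => (sp_RT j a b hab hM).2 (h j hj)

/-- **the joint law for every set of curves, in every class, both orderings** -/
theorem main_cls (S T : Finset (Fin 3)) (hST : S ⊆ T) {m : ℕ} (hm : 0 < m) (A B : Set ℤ) :
    Tendsto (fun X : ℕ => ((NS (fun d => ((∀ j ∈ T, RT j d) ∧ Cs m A B d) ∧ ∀ j ∈ S, RR j d) X : ℝ) -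
      cst S * WS (wt S) (fun d => (∀ j ∈ T, RT j d) ∧ Cs m A B d) X) / (X : ℝ)) atTop
      (nhds 0) ∧
    Tendsto (fun X : ℕ => ((NF (fun d => ((∀ j ∈ T, RT j d) ∧ Cs m A B d) ∧ ∀ j ∈ S, RR j d) X : ℝ) -
      cst S * WF (wt S) (fun d => (∀ j ∈ T, RT j d) ∧ Cs m A B d) X) / (X : ℝ)) atTop
      (nhds 0) := by
  have hV : Sp (1785 * m) (fun d => (∀ j ∈ T, RT j d) ∧ Cs m A B d) :=
    (sp_mono (Dvd.intro _ rfl) (sp_RTs T)).and (sp_mono (Dvd.intro_left _ rfl) (sp_Cs m A B))
  obtain ⟨g1, g2⟩ := (main_pt H S (m := 1785 * m) (by positivity) hV).lim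
  have eV : (fun d => (∀ j ∈ S, RT j d) ∧ ((∀ j ∈ T, RT j d) ∧ Cs m A B d)) =
      fun d => (∀ j ∈ T, RT j d) ∧ Cs m A B d :=
    funext fun d => propext ⟨fun h => h.2, fun h => ⟨fun j hj => h.1 j (hST hj), h⟩⟩
  have key : ∀ d, Squarefree d → d ≠ 1 → d ≠ -1 →
      (((∀ j ∈ S, RT j d) ∧ ((∀ j ∈ T, RT j d) ∧ Cs m A B d)) ∧ (∀ j ∈ S, GG j d) ↔
        ((∀ j ∈ T, RT j d) ∧ Cs m A B d) ∧ (∀ j ∈ S, RR j d)) := by
    intro d hs e1 e2
    rw [rrS_iff S hs e1 e2]
    tauto
  rw [← eV]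
  exact ⟨close_w g1 (fun X => NS_close key X)
      (fun X => NS_close (fun d a b c => (key d a b c).symm) X),
    close_w g2 (fun X => NF_close key X)
      (fun X => NF_close (fun d a b c => (key d a b c).symm) X)⟩

end Pool.Agent.N809.JT
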