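import Pool.Agent.N809.JT.L17
import Pool.Agent.N809.JT.Triple
import Pool.Agent.N877.JX.Fin

/-!
# JT: the laws for the classes
-/

set_option autoImplicit false
set_option linter.all false

open scoped Classical

namespace Pool.Agent.N809.JT

open Finset Filter
open Pool.Agent.N919.BS (NN NS NF HG Rt17 Fund core)
open Pool.Agent.N963.JT (Sp)
open Pool.Agent.N809.PQ (Sg15 Sg21 w15 w21 B3 B5 C3 C7)
open Pool.Agent.N916.PQ (f15 f15_w15 f15_of_sg f15_pos f15_neg)
open Pool.Agent.N916.PQ.L21 (fO fO_iff f21_of_sg fD_pos fD_neg)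
open Pool.Agent.N809.Red21 (f21 fD f21_iff fD_f21 fD_iff)
open Pool.Agent.N916.MO (G17)
open Pool.Agent.N916.GB (eta)
open Pool.Agent.Y703.CQ (c2)
open Pool.Agent.N877.JX

theorem eqc_iff (d : ℤ) : Eqc d ↔ P1 d := by
  unfold Eqc P1 Pool.Agent.N809.PQ.B3 Pool.Agent.N809.PQ.B5 Pool.Agent.N809.PQ.C3
    Pool.Agent.N809.PQ.C7
  omega

theorem exc_iff' (d : ℤ) : fD d = true ↔ PX d := fD_iff d

theorem f0_15 : f15 0 = false := by decide

theorem ne_iff (d : ℤ) : ((f15 d = true ∧ f21 d = true) ∧ ¬ Eqc d) ↔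
    (P2 d ∨ P3 d ∨ P4 d ∨ P5 d ∨ PE d) := by
  have hO := fO_iff d
  have e3 : d % 3 = 0 ↔ ¬ B3 d ∧ ¬ C3 d := by
    unfold Pool.Agent.N809.PQ.B3 Pool.Agent.N809.PQ.C3
    omega
  have ex : ¬ (B3 d ∧ C3 d) := by
    unfold Pool.Agent.N809.PQ.B3 Pool.Agent.N809.PQ.C3
    omega
  have e5 : ¬ (d % 5 = 1 ∨ d % 5 = 4) ↔ ¬ B5 d := Iff.rfl
  have e7 : ¬ (d % 7 = 3 ∨ d % 7 = 5 ∨ d % 7 = 6) ↔ ¬ C7 d := Iff.rfl
  unfold Eqc P2 P3 P4 P5 PE
  rw [e3, e5, e7]
  rcases lt_trichotomy d 0 with h | h | h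
  · have h1 := f15_neg h
    have h2 := fD_neg h
    have h3 := Pool.Agent.N916.PQ.L21.fO_neg h
    rw [h2] at hO
    have h4 : ¬ 0 < d := by omega
    have h5 : f21 d = true ↔ fO d = true := by
      rw [hO]
      simp
    rw [h1, h5, h3]
    clear h1 h2 h3 h5 hO e3 e5 e7
    by_cases b3 : B3 d <;> by_cases b5 : B5 d <;> by_cases c3 : C3 d <;> by_cases c7 : C7 d <;>
      simp [b3, b5, c3, c7, h, h4] at ex ⊢
  · subst h
    have h1 := f0_15
    constructor
    · rintro ⟨⟨h, -⟩, -⟩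
      rw [h1] at h
      exact absurd h (by decide)
    · rintro (h | h | h | h | h) <;> exact absurd h.1 (by decide)
  · have h1 := f15_pos h
    have h2 := fD_pos h
    have h3 := Pool.Agent.N916.PQ.L21.fO_pos h
    have h4 : ¬ d < 0 := by omega
    have h5 : f21 d = true ↔ (fO d = true ∨ fD d = true) := by
      constructor
      · intro hf
        by_cases hd : fD d = true
        · exact Or.inr hd
        · exact Or.inl (hO.2 ⟨hf, by simpa using hd⟩)
      · rintro (h | h)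
        · exact (hO.1 h).1
        · exact fD_f21 h
    rw [h1, h5, h2, h3]
    clear h1 h2 h3 h5 hO e3 e5 e7
    by_cases b3 : B3 d <;> by_cases b5 : B5 d <;> by_cases c3 : C3 d <;> by_cases c7 : C7 d <;>
      simp [b3, b5, c3, c7, h, h4] at ex ⊢

/-- **the laws hold** -/
theorem inp : Inp where
  e15 := fun m hm A => in_hg (by norm_num) (by norm_num)
    (fun M h => Pool.Agent.N963.JT.sp_f15 ((by norm_num : 15 ∣ 840).trans h))
    Pool.Agent.N916.PQ.eta01.1 Pool.Agent.N916.PQ.eta01.2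
    ((i15 (P := fun d => f15 d = true) fun d h => h).lah (by norm_num)) hm A
  e17 := law17
  o21 := fun m hm A => in_hg (by norm_num) (by norm_num)
    (fun M h => Pool.Agent.N975.JT.sp_fO ((by norm_num : 21 ∣ 840).trans h))
    Pool.Agent.N916.PQ.eta01.1 Pool.Agent.N916.PQ.eta01.2
    ((i21 (P := fun d => fO d = true) fun d h => h).lah (by norm_num)) hm A
  d21 := fun m hm A => HG.eq (hxE hm A) (fun d => and_congr (exc_iff' d) Iff.rfl) fun d => Iff.rfl
  e1517 := fun m hm A => Pool.Agent.N963.JT.hg_cls jl hm A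
  o1721 := fun m hm A => Pool.Agent.N975.JT.hg21_cls hm A
  d1721 := fun m hm A => by
    have h := hxE17 hm A
    rw [mul_assoc] at h
    exact HG.eq h (fun d => and_congr (and_congr (exc_iff' d) Iff.rfl) Iff.rfl) fun d => Iff.rfl
  q1521 := fun m hm A => HG.eq (hx_eq hm A) (fun d => and_congr (eqc_iff d) Iff.rfl) fun d => Iff.rfl
  n1521 := fun m hm A => HG.eq (hx_ne hm A) (fun d => and_congr (ne_iff d) Iff.rfl) fun d => Iff.rfl
  q3 := fun m hm A => HG.eq (hx_eq17 hm A)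
    (fun d => and_congr (and_congr (eqc_iff d) Iff.rfl) Iff.rfl) fun d => Iff.rfl
  n3 := fun m hm A => HG.eq (hx_ne17 hm A)
    (fun d => and_congr (and_congr (ne_iff d) Iff.rfl) Iff.rfl) fun d => Iff.rfl

end Pool.Agent.N809.JT
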