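import Pool.Agent.N809.JT.Ge

/-!
# JT: the joint estimate for a random linear system and a random alternating form
-/

set_option autoImplicit false
set_option linter.all false

open scoped Classical

namespace Pool.Agent.N809.JT

open Finset Module
open Pool.Agent.N916.GB (pt ps sx eta)
open Pool.Agent.Y703.CQ (c2)
open Pool.Agent.N916.MO
open Pool.Agent.N916.PQ (Hy Gc)

/-- the joint estimate -/
def JM : Prop := ∀ ε : ℝ, 0 < ε → ∃ V₀ : ℕ, ∀ (R C J U CC CC' : Type) [Fintype R] [Fintype C]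
    [Fintype J] [LinearOrder J] [Fintype U] [Fintype CC] [Fintype CC']
    (M : R ⊕ J → C ⊕ J → ZMod 2) (X : R ⊕ J → ZMod 2) (Y : C ⊕ J → ZMod 2) (u : J → ZMod 2)
    (k0 : J) (J₀ : Finset J) (n0 : ℕ)
    (B : EE (E2 U) (Ix k0) →ₗ[ZMod 2] EE (E2 U) (Ix k0) →ₗ[ZMod 2] ZMod 2) (ν υ : J → ZMod 2)
    (m : Ix k0 → Ix k0 → ZMod 2) (F : EE (E2 U) (Ix k0) → CC) (G : (Ix k0 → ZMod 2) → CC')
    (Φ Ψ : Ix k0 → E2 U → CC → ZMod 2) (Θ : Ix k0 → CC' → ZMod 2),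
    Hy M X Y u → Fintype.card C = Fintype.card R → Fintype.card R ≤ n0 → Fintype.card U ≤ n0 →
    Fintype.card CC ≤ 32 → Fintype.card CC' ≤ 4 → k0 ∉ J₀ → J₀.card ≤ 2 * n0 →
    (∀ z, B z z = 0) →
    (∀ z (k : Ix k0), B z (fx k) = ν k * z.2.1 k + ∑ l, m k l * z.2.2 l + Φ k z.1 (F z)) →
    (∀ z (k : Ix k0), B z (fy k) = υ k * z.2.2 k + ∑ l, m l k * z.2.1 l + Ψ k z.1 (F z)) →
    (∀ (x : Ix k0 → ZMod 2) (k : Ix k0), ∑ l, m k l * x l + ∑ l, m l k * x l =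
      υ k * x k + Θ k (G x)) →
    (∀ k l : Ix k0, m k l = M (Sum.inr (k : J)) (Sum.inr (l : J))) →
    V₀ * (n0 + 1) ≤ (univ.filter fun k : J => u k = 1).card →
    V₀ * (n0 + 1) ≤ (univ.filter fun k : J => ν k = 1).card →
    V₀ * (n0 + 1) ≤ (univ.filter fun k : J => υ k = 1).card →
    V₀ * (n0 + 1) ≤ (univ.filter fun k : J => ν k ≠ υ k).card →
    (∀ e, (∀ k : Ix k0, (k : J) ∈ J₀ → B (e, 0, 0) (fx k) = 0 ∧ B (e, 0, 0) (fy k) = 0) → e = 0) →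
    |((univ.filter fun σ : ps J → ZMod 2 => Gc M Y (sx σ) ∧ Nde B (Sg k0 σ)).card : ℝ) /
      2 ^ (ps J).card - eta * c2| ≤ ε

/-- the estimate for the data of a form -/
theorem est (hJM : JM) (ε : ℝ) (hε : 0 < ε) : ∃ V₀ : ℕ, ∀ (R C J : Type) [Fintype R] [Fintype C]
    [Fintype J] [LinearOrder J] (M : R ⊕ J → C ⊕ J → ZMod 2) (X : R ⊕ J → ZMod 2)
    (Y : C ⊕ J → ZMod 2) (ν u : J → ZMod 2) (m : J → J → ZMod 2) (P : (ps J → ZMod 2) → Prop)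
    (n : ℕ), Hy M X Y u → Fintype.card C = Fintype.card R → Fintype.card R ≤ n → G2 n ν u m P →
    (∀ k l, m k l = M (Sum.inr k) (Sum.inr l)) →
    V₀ * (n + 1) ≤ (univ.filter fun k : J => ν k = 1).card →
    V₀ * (n + 1) ≤ (univ.filter fun k : J => u k = 1).card →
    V₀ * (n + 1) ≤ (univ.filter fun k : J => ν k ≠ u k).card →
    |((univ.filter fun σ : ps J → ZMod 2 => Gc M Y (sx σ) ∧ P σ).card : ℝ) /
      2 ^ (ps J).card - eta * c2| ≤ ε := by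
  obtain ⟨V₀, hV⟩ := hJM ε hε
  refine ⟨V₀, ?_⟩
  intro R C J _ _ _ _ M X Y ν u m P n hH hCR hR hG hm r1 r2 r3
  obtain ⟨U, CC, CC', _, _, _, k0, J₀, B, F, G, Φ, Ψ, Θ, g1, g2, g3, g4, g5, g6, g7, g8, g9, g10,
    g11⟩ := hG
  have h := hV R C J U CC CC' M X Y u k0 J₀ n B ν u (fun k l => m k l) F G Φ Ψ Θ hH hCR hR g1 g2 g3
    g4 g5 g6 g7 g8 g9 (fun k l => hm _ _) r2 r1 r2 r3 g10
  have e : (univ.filter fun σ : ps J → ZMod 2 => Gc M Y (sx σ) ∧ P σ) =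
      univ.filter fun σ : ps J → ZMod 2 => Gc M Y (sx σ) ∧ Nde B (Sg k0 σ) :=
    filter_congr fun σ _ => and_congr_right fun _ => g11 σ
  rw [e]
  exact h

end Pool.Agent.N809.JT
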