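import Pool.Agent.N809.JT.Mv

/-!
# JT: the joint probabilities
-/

set_option autoImplicit false
set_option linter.all false

open scoped Classical

namespace Pool.Agent.N809.JT

open Finset Module
open Pool.Agent.N916.GB (pt ps sx eta)
open Pool.Agent.Y703.CQ (c2)
open Pool.Agent.N916.MO
open Pool.Agent.N916.PQ (Hy Gc)

theorem G2.mono {J : Type} [Fintype J] [LinearOrder J] {n n' : ℕ} (h : n ≤ n') {ν u : J → ZMod 2}
    {m : J → J → ZMod 2} {P : (ps J → ZMod 2) → Prop} (H : G2 n ν u m P) : G2 n' ν u m P := by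
  obtain ⟨U, CC, CC', i1, i2, i3, k0, J₀, B, F, G, Φ, Ψ, Θ, g1, g2, g3, g4, g5, g6, g7, g8, g9, g10,
    g11⟩ := H
  exact ⟨U, CC, CC', i1, i2, i3, k0, J₀, B, F, G, Φ, Ψ, Θ, g1.trans h, g2, g3, g4, by omega, g6, g7,
    g8, g9, g10, g11⟩

theorem card_le_J {J : Type} [Fintype J] (P : J → Prop) [DecidablePred P] : (univ.filter P).card ≤ Fintype.card J := by
  rw [← Finset.card_univ]
  exact card_le_card (filter_subset _ _)

/-- **joint, unramified** -/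
theorem ja_u (hJM : JM) (ε : ℝ) (hε : 0 < ε) : ∃ V₀ : ℕ, ∀ (U J R C : Type) [Fintype U]
    [DecidableEq U] [Fintype J] [LinearOrder J] [Fintype R] [Fintype C]
    (w u ν : U ⊕ J → ZMod 2) (N : U ⊕ J → U ⊕ J → ZMod 2) (A : R ⊕ J → C ⊕ J → ZMod 2)
    (X : R ⊕ J → ZMod 2) (Y : C ⊕ J → ZMod 2),
    (∀ k, w (Sum.inr k) = 1) → ∑ i, u i = 1 → ∑ i, ν i = 1 →
    (∀ i j, i ≠ j → w i * N i j + w j * N j i = u i * u j) →
    (∀ v, w (Sum.inl v) = 0 → u (Sum.inl v) = 1 ∧ ∀ v', w (Sum.inl v') = 0 → v = v') →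
    (∀ (b : U → ZMod 2) (s a : ZMod 2), ((∃ v, b v ≠ 0) ∨ s ≠ 0 ∨ a ≠ 0) →
      ∃ k, ∑ v, b v * N (Sum.inl v) (Sum.inr k) + s * u (Sum.inr k) + a * ν (Sum.inr k) ≠ 0) →
    Hy A X Y (fun k => u (Sum.inr k)) → Fintype.card C = Fintype.card R →
    Fintype.card R ≤ Fintype.card U + 1 →
    (∀ k l, A (Sum.inr k) (Sum.inr l) = Lm N (Sum.inr k) (Sum.inr l)) →
    V₀ * (Fintype.card U + 1) ≤ (univ.filter fun k : J => ν (Sum.inr k) = 1).card →
    V₀ * (Fintype.card U + 1) ≤ (univ.filter fun k : J => u (Sum.inr k) = 1).card →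
    V₀ * (Fintype.card U + 1) ≤ (univ.filter fun k : J => ν (Sum.inr k) ≠ u (Sum.inr k)).card →
    |((univ.filter fun σ : ps J → ZMod 2 => Gc A Y (sx σ) ∧ Kx ν u (Lm (pt N (sx σ)))).card : ℝ) /
      2 ^ (ps J).card - eta * c2| ≤ ε := by
  obtain ⟨V, hV⟩ := est hJM ε hε
  refine ⟨2 * V + 3, ?_⟩
  intro U J R C _ _ _ _ _ _ w u ν N A X Y hw hu hν hN hw0 hnd hH hCR hR hA r1 r2 r3
  have hJ := card_le_J (fun k : J => ν (Sum.inr k) = 1)
  have e0 : (2 * V + 3) * (Fintype.card U + 1) = V * (Fintype.card U + 1 + 1) +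
      V * Fintype.card U + 3 * Fintype.card U + 3 := by ring
  have e1 := Nat.zero_le (V * Fintype.card U)
  have hG := (g2_u hw hu hν hN hw0 hnd (by omega)).mono (Nat.le_succ _)
  exact hV R C J A X Y (fun k => ν (Sum.inr k)) (fun k => u (Sum.inr k))
    (fun k l => Lm N (Sum.inr k) (Sum.inr l)) (fun σ => Kx ν u (Lm (pt N (sx σ))))
    (Fintype.card U + 1) hH hCR hR hG (fun k l => (hA k l).symm) (by omega) (by omega) (by omega)

/-- **joint, ramified** -/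
theorem ja_r (hJM : JM) (ε : ℝ) (hε : 0 < ε) : ∃ V₀ : ℕ, ∀ (U J R C : Type) [Fintype U]
    [DecidableEq U] [Fintype J] [LinearOrder J] [Fintype R] [Fintype C] (v0 : U)
    (w u ν : U ⊕ J → ZMod 2) (N : U ⊕ J → U ⊕ J → ZMod 2) (A : R ⊕ J → C ⊕ J → ZMod 2)
    (X : R ⊕ J → ZMod 2) (Y : C ⊕ J → ZMod 2),
    (∀ k, w (Sum.inr k) = 1) → ∑ i, u i = 1 → w (Sum.inl v0) = 1 → u (Sum.inl v0) = 0 →
    (∀ k, ν (Sum.inr k) = N (Sum.inl v0) (Sum.inr k)) →
    (∀ i j, i ≠ j → w i * N i j + w j * N j i = u i * u j) →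
    (∀ v, w (Sum.inl v) = 0 → u (Sum.inl v) = 1 ∧ ∀ v', w (Sum.inl v') = 0 → v = v') →
    (∀ (b : U → ZMod 2) (s : ZMod 2), ((∃ v, b v ≠ 0) ∨ s ≠ 0) →
      ∃ k, ∑ v, b v * N (Sum.inl v) (Sum.inr k) + s * u (Sum.inr k) ≠ 0) →
    Hy A X Y (fun k => u (Sum.inr k)) → Fintype.card C = Fintype.card R →
    Fintype.card R ≤ Fintype.card U + 1 →
    (∀ k l, A (Sum.inr k) (Sum.inr l) = Lm N (Sum.inr k) (Sum.inr l)) →
    V₀ * (Fintype.card U + 1) ≤ (univ.filter fun k : J => ν (Sum.inr k) = 1).card →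
    V₀ * (Fintype.card U + 1) ≤ (univ.filter fun k : J => u (Sum.inr k) = 1).card →
    V₀ * (Fintype.card U + 1) ≤ (univ.filter fun k : J => ν (Sum.inr k) ≠ u (Sum.inr k)).card →
    |((univ.filter fun σ : ps J → ZMod 2 => Gc A Y (sx σ) ∧
      Kr (Sum.inl v0) ν u (Lm (pt N (sx σ)))).card : ℝ) / 2 ^ (ps J).card - eta * c2| ≤ ε := by
  obtain ⟨V, hV⟩ := est hJM ε hε
  refine ⟨2 * V + 3, ?_⟩
  intro U J R C _ _ _ _ _ _ v0 w u ν N A X Y hw hu hwv huv hν hN hw0 hnd hH hCR hR hA r1 r2 r3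
  have hJ := card_le_J (fun k : J => ν (Sum.inr k) = 1)
  have e0 : (2 * V + 3) * (Fintype.card U + 1) = V * (Fintype.card U + 1 + 1) +
      V * Fintype.card U + 3 * Fintype.card U + 3 := by ring
  have e1 := Nat.zero_le (V * Fintype.card U)
  have hG := (g2_r hw hu hwv huv hν hN hw0 hnd (by omega)).mono (Nat.le_succ _)
  exact hV R C J A X Y (fun k => ν (Sum.inr k)) (fun k => u (Sum.inr k))
    (fun k l => Lm N (Sum.inr k) (Sum.inr l)) (fun σ => Kr (Sum.inl v0) ν u (Lm (pt N (sx σ))))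
    (Fintype.card U + 1) hH hCR hR hG (fun k l => (hA k l).symm) (by omega) (by omega) (by omega)

section
variable {U J : Type} [Fintype U] [DecidableEq U] [Fintype J] [LinearOrder J] {k1 : J}
  {u ν : U ⊕ J → ZMod 2} {N : U ⊕ J → U ⊕ J → ZMod 2}

/-- few indices to avoid -/
theorem few17 (hnd : NDg N u ν) : ∃ J₀ : Finset J, J₀.card ≤ Fintype.card U + 2 ∧
    ∀ k1 : J, k1 ∉ J₀ → ∀ (b : U → ZMod 2) (s a : ZMod 2), ((∃ v, b v ≠ 0) ∨ s ≠ 0 ∨ a ≠ 0) →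
      ∃ k : Ix k1, ∑ v, b v * N (Sum.inl v) (Sum.inr (k : J)) + s * u (Sum.inr (k : J)) +
        a * ν (Sum.inr (k : J)) ≠ 0 := by
  obtain ⟨J₀, h1, h2⟩ := few (fun k : J => LinearMap.ker (ff N u ν k)) (by
    intro x hx
    by_contra hc
    have h3 : (∃ v, x.1 v ≠ 0) ∨ x.2.1 ≠ 0 ∨ x.2.2 ≠ 0 := by
      by_contra h4
      push Not at h4
      exact hc (Prod.ext (funext h4.1) (Prod.ext h4.2.1 h4.2.2))
    obtain ⟨k, hk⟩ := hnd _ _ _ h3
    exact hk (hx k))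
  have hfr : finrank (ZMod 2) ((U → ZMod 2) × ZMod 2 × ZMod 2) = Fintype.card U + 2 := by
    rw [Module.finrank_prod, Module.finrank_prod, Module.finrank_fintype_fun_eq_card,
      Module.finrank_self]
  rw [hfr] at h1
  refine ⟨J₀, h1, fun k1 hk2 b s a hbs => ?_⟩
  by_contra hc
  push Not at hc
  have h3 := h2 (b, s, a) (fun k hk => by
    have hkk : k ≠ k1 := fun h => hk2 (h ▸ hk)
    exact hc ⟨k, hkk⟩)
  have h4 : b = 0 ∧ s = 0 ∧ a = 0 := by
    rw [Prod.ext_iff, Prod.ext_iff] at h3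
    exact h3
  rcases hbs with ⟨v, hv⟩ | h | h
  · exact hv (congrFun h4.1 v)
  · exact h h4.2.1
  · exact h h4.2.2

theorem Lm_add' {V : Type} [Fintype V] [DecidableEq V] (N N' : V → V → ZMod 2) (i j : V) :
    Lm (fun i j => N i j + N' i j) i j = Lm N i j + Lm N' i j := by
  unfold Lm
  by_cases h : i = j
  · rw [if_pos h, if_pos h, if_pos h, ← sum_add_distrib]
    refine sum_congr rfl fun k _ => ?_
    by_cases hk : k = i
    · rw [if_pos hk, if_pos hk, if_pos hk, add_zero]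
    · rw [if_neg hk, if_neg hk, if_neg hk]
  · rw [if_neg h, if_neg h, if_neg h]

/-- the block on the large indices after moving `k1` -/
theorem link_mv {R C : Type} [Fintype R] [Fintype C] {A : R ⊕ J → C ⊕ J → ZMod 2}
    (hA : ∀ k l, A (Sum.inr k) (Sum.inr l) = Lm N (Sum.inr k) (Sum.inr l))
    (τ : Ix k1 → ZMod 2) (k l : Ix k1) :
    Lm (Nt N τ) (Sum.inr k) (Sum.inr l) = Mτ A τ (Sum.inr k) (Sum.inr l) := by
  have h1 : Lm (Nt N τ) (Sum.inr k) (Sum.inr l) =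
      Lm (fun i j => N (mve k1 i) (mve k1 j)) (Sum.inr k) (Sum.inr l) +
        Lm (tq τ : Option U ⊕ Ix k1 → Option U ⊕ Ix k1 → ZMod 2) (Sum.inr k) (Sum.inr l) :=
    Lm_add' _ _ _ _
  rw [h1, Lm_comp (mve k1) N]
  have h2 : Mτ A τ (Sum.inr k) (Sum.inr l) = A (Sum.inr (k : J)) (Sum.inr (l : J)) +
      (if k = l then τ k else 0) := rfl
  rw [h2, hA]
  congr 1
  by_cases h : k = l
  · subst h
    rw [if_pos rfl]
    unfold Lm
    rw [if_pos rfl, sum_split]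
    have h3 : ∀ v : U, (if (Sum.inl (some v) : Option U ⊕ Ix k1) = Sum.inr k then (0 : ZMod 2) else
        (tq τ : Option U ⊕ Ix k1 → Option U ⊕ Ix k1 → ZMod 2) (Sum.inr k) (Sum.inl (some v))) = 0 := by
      intro v
      rw [if_neg (by simp)]
      rfl
    have h4 : ∀ l : Ix k1, (if (Sum.inr l : Option U ⊕ Ix k1) = Sum.inr k then (0 : ZMod 2) else
        (tq τ : Option U ⊕ Ix k1 → Option U ⊕ Ix k1 → ZMod 2) (Sum.inr k) (Sum.inr l)) = 0 := by
      intro l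
      split_ifs
      · rfl
      · rfl
    simp only [h3, h4, sum_const_zero, add_zero]
    rw [if_neg (by simp)]
    rfl
  · rw [if_neg h, Lm_ne _ (fun h' => h (Sum.inr_injective h'))]
    rfl

end

end Pool.Agent.N809.JT
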