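import Pool.Agent.N809.JT.Jp

/-!
# JT: the joint probability, positive discriminants
-/

set_option autoImplicit false
set_option linter.all false

open scoped Classical

namespace Pool.Agent.N809.JT

open Finset Module
open Pool.Agent.N916.GB (pt ps sx eta)
open Pool.Agent.Y703.CQ (c2)
open Pool.Agent.N916.MO
open Pool.Agent.N916.PQ (Hy Gc)

theorem eta_c2 : 0 ≤ eta * c2 ∧ eta * c2 ≤ 1 := by
  obtain ⟨-, h1, h2, -, -⟩ := Pool.Agent.Y948.CQ.t_C2
  have h3 := Pool.Agent.N916.AM.eta01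
  exact ⟨mul_nonneg h3.1 h1.le, mul_le_one₀ h3.2 h1.le h2.le⟩

/-- **joint, positive discriminants** -/
theorem ja_p (hJM : JM) (ε : ℝ) (hε : 0 < ε) : ∃ V₀ : ℕ, ∀ (U J R C : Type) [Fintype U]
    [DecidableEq U] [Fintype J] [LinearOrder J] [Fintype R] [Fintype C]
    (w u ν : U ⊕ J → ZMod 2) (N : U ⊕ J → U ⊕ J → ZMod 2) (A : R ⊕ J → C ⊕ J → ZMod 2)
    (X : R ⊕ J → ZMod 2) (Y : C ⊕ J → ZMod 2),
    (∀ k, w (Sum.inr k) = 1) → ∑ i, u i = 0 → ∑ i, ν i = 0 →
    (∀ i j, i ≠ j → w i * N i j + w j * N j i = u i * u j) →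
    (∀ v, w (Sum.inl v) = 0 → u (Sum.inl v) = 1 ∧ ∀ v', w (Sum.inl v') = 0 → v = v') →
    NDg N u ν →
    Hy A X Y (fun k => u (Sum.inr k)) → Fintype.card C = Fintype.card R →
    Fintype.card R ≤ Fintype.card U + 1 →
    (∀ k l, A (Sum.inr k) (Sum.inr l) = Lm N (Sum.inr k) (Sum.inr l)) →
    V₀ * (Fintype.card U + 1) ≤ (univ.filter fun k : J => ν (Sum.inr k) = 1).card →
    V₀ * (Fintype.card U + 1) ≤ (univ.filter fun k : J => u (Sum.inr k) = 1).card →
    V₀ * (Fintype.card U + 1) ≤ (univ.filter fun k : J => ν (Sum.inr k) ≠ u (Sum.inr k)).card →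
    V₀ * (Fintype.card U + 1) ≤
      (univ.filter fun k : J => ν (Sum.inr k) = 1 ∧ u (Sum.inr k) = 1).card →
    |((univ.filter fun σ : ps J → ZMod 2 => Gc A Y (sx σ) ∧ Kx ν u (Lm (pt N (sx σ)))).card : ℝ) /
      2 ^ (ps J).card - eta * c2| ≤ ε := by
  obtain ⟨V, hV⟩ := est hJM (ε / 2) (by positivity)
  obtain ⟨n, hn⟩ : ∃ n : ℕ, (1 : ℝ) / 2 ^ n ≤ ε / 2 := by
    obtain ⟨n, h⟩ := exists_pow_lt_of_lt_one (show (0 : ℝ) < ε / 2 by positivity)
      (show (1 / 2 : ℝ) < 1 by norm_num)
    refine ⟨n, ?_⟩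
    rw [one_div_pow] at h
    exact h.le
  refine ⟨3 * V + n + 8, ?_⟩
  intro U J R C _ _ _ _ _ _ w u ν N A X Y hw hu hν hN hw0 hnd hH hCR hR hA r1 r2 r3 r4
  have e0 : (3 * V + n + 8) * (Fintype.card U + 1) = V * (Fintype.card U + 2 + 1) +
      2 * (V * Fintype.card U) + n * Fintype.card U + n + 8 * Fintype.card U + 8 := by ring
  have e1 := Nat.zero_le (V * Fintype.card U)
  have e2 := Nat.zero_le (n * Fintype.card U)
  -- the choice of `k1`
  obtain ⟨J₀, j1, j2⟩ := few17 hnd
  obtain ⟨J₁, j3, j4⟩ := few_lin (fun (r : R) (l : J) => A (Sum.inl r) (Sum.inr l))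
    (fun b hb => hH.nr b hb)
  obtain ⟨J₂, j5, j6⟩ := few_lin (fun (c : C) (l : J) => A (Sum.inr l) (Sum.inl c))
    (fun b hb => hH.nc b fun l => by
      rw [← hb l]
      exact sum_congr rfl fun c _ => mul_comm _ _)
  obtain ⟨k1, hk1, hk2⟩ : ∃ k1 ∈ univ.filter (fun k : J => ν (Sum.inr k) = 1 ∧ u (Sum.inr k) = 1),
      k1 ∉ J₀ ∪ J₁ ∪ J₂ := by
    by_contra hc
    push Not at hc
    have h1 := card_le_card (show univ.filter (fun k : J => ν (Sum.inr k) = 1 ∧
      u (Sum.inr k) = 1) ⊆ J₀ ∪ J₁ ∪ J₂ from fun k hk => hc k hk)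
    have h2 := card_union_le (J₀ ∪ J₁) J₂
    have h3 := card_union_le J₀ J₁
    omega
  have hk1 := (mem_filter.1 hk1).2
  rw [mem_union, mem_union, not_or, not_or] at hk2
  obtain ⟨⟨m1, m2⟩, m3⟩ := hk2
  have hnd1 := j2 k1 m1
  have hr1 : ∀ b : R → ZMod 2, (∀ l : Ix k1, ∑ r, b r * A (Sum.inl r) (Sum.inr (l : J)) = 0) →
      ∀ r, b r = 0 := by
    intro b hb
    refine j4 b fun l hl => ?_
    exact hb ⟨l, fun h => m2 (h ▸ hl)⟩
  have hc1 : ∀ b : C → ZMod 2, (∀ l : Ix k1, ∑ c, A (Sum.inr (l : J)) (Sum.inl c) * b c = 0) →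
      ∀ c, b c = 0 := by
    intro b hb
    refine j6 b fun l hl => ?_
    rw [← hb ⟨l, fun h => m3 (h ▸ hl)⟩]
    exact sum_congr rfl fun c _ => mul_comm _ _
  have hbad := bad_tau hnd1
  have hbad' := card_bad k1 A
  -- the cardinality of `J`
  have hJ1 := card_le_J (fun k : J => ν (Sum.inr k) = 1)
  have hIx : Fintype.card (Ix k1) = Fintype.card J - 1 := by
    have := Fintype.card_subtype_compl (fun k : J => k = k1)
    rw [Fintype.card_subtype_eq] at this
    exact this
  have rich : ∀ P : J → Prop, (3 * V + n + 8) * (Fintype.card U + 1) ≤ (univ.filter P).card →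
      V * (Fintype.card U + 2 + 1) ≤ (univ.filter fun k : Ix k1 => P k).card := by
    intro P hP
    have h1 : (univ.filter P) ⊆ insert k1 ((univ.filter fun k : Ix k1 => P k).image
        (Subtype.val : Ix k1 → J)) := by
      intro k hk
      by_cases h : k = k1
      · rw [h]
        exact mem_insert_self _ _
      · exact mem_insert_of_mem (mem_image.2 ⟨⟨k, h⟩, mem_filter.2 ⟨mem_univ _,
          (mem_filter.1 hk).2⟩, rfl⟩)
    have h2 := (card_le_card h1).trans (card_insert_le _ _)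
    have h5 : ((univ.filter fun k : Ix k1 => P k).image (Subtype.val : Ix k1 → J)).card ≤
        (univ.filter fun k : Ix k1 => P k).card := card_image_le
    omega
  -- the good choices
  set D : ℝ := 2 ^ (ps (Ix k1)).card with hD
  set K : ℝ := 2 ^ Fintype.card (Ix k1) with hK
  set F : (Ix k1 → ZMod 2) → (ps (Ix k1) → ZMod 2) → Prop := fun τ σ' =>
    Gc (Mτ A τ) (fun j => Y (mve k1 j)) (sx σ') ∧ Kx (fun i => ν (mve k1 i))
      (fun i => u (mve k1 i)) (Lm (pt (Nt N τ) (sx σ'))) with hF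
  have hgood : ∀ τ : Ix k1 → ZMod 2, NDg (Nt N τ) (fun i => u (mve k1 i)) (fun i => ν (mve k1 i)) →
      ¬ bad k1 A τ → |((univ.filter fun σ' => F τ σ').card : ℝ) / D - eta * c2| ≤ ε / 2 := by
    intro τ hτ hτ'
    have hG : G2 (Fintype.card U + 2) (fun k : Ix k1 => ν (Sum.inr (k : J)))
        (fun k : Ix k1 => u (Sum.inr (k : J)))
        (fun k l : Ix k1 => Lm (Nt N τ) (Sum.inr k) (Sum.inr l))
        (fun σ' => Kx (fun i => ν (mve k1 i)) (fun i => u (mve k1 i))
          (Lm (pt (Nt N τ) (sx σ')))) := by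
      refine G2.mono (n := Fintype.card U) (by omega) ?_
      refine g2_p (w := fun i => w (mve k1 i)) (u := fun i => u (mve k1 i))
        (ν := fun i => ν (mve k1 i)) (N := Nt N τ) (fun k => hw _) hk1.1 hk1.2 ?_ ?_ ?_ ?_ hτ
        (by omega)
      · rw [Equiv.sum_comp (mve k1) u]
        exact hu
      · rw [Equiv.sum_comp (mve k1) ν]
        exact hν
      · intro i j hij
        have h1 := hN (mve k1 i) (mve k1 j) (fun h => hij ((mve k1).injective h))
        have h2 : w (mve k1 i) * tq τ i j + w (mve k1 j) * tq τ j i = 0 := by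
          rcases i with (_ | v) | k <;> rcases j with (_ | v') | l
          · exact absurd rfl hij
          · show _ * 0 + _ * 0 = (0 : ZMod 2); ring
          · show w (Sum.inr k1) * τ l + w (Sum.inr (l : J)) * τ l = 0
            rw [hw, hw, one_mul, aa]
          · show _ * 0 + _ * 0 = (0 : ZMod 2); ring
          · show _ * 0 + _ * 0 = (0 : ZMod 2); ring
          · show _ * 0 + _ * 0 = (0 : ZMod 2); ring
          · show w (Sum.inr (k : J)) * τ k + w (Sum.inr k1) * τ k = 0
            rw [hw, hw, one_mul, aa]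
          · show _ * 0 + _ * 0 = (0 : ZMod 2); ring
          · show _ * 0 + _ * 0 = (0 : ZMod 2); ring
        show w (mve k1 i) * (N (mve k1 i) (mve k1 j) + tq τ i j) +
          w (mve k1 j) * (N (mve k1 j) (mve k1 i) + tq τ j i) = _
        rw [← h1]
        have e : ∀ a b x y p q : ZMod 2, a * x + b * y = 0 → a * (p + x) + b * (q + y) =
          a * p + b * q := by decide
        exact e _ _ _ _ _ _ h2
      · intro o ho
        rcases o with _ | v
        · have h1 : w (Sum.inr k1) = 0 := ho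
          rw [hw] at h1
          exact absurd h1 (by decide)
        · obtain ⟨h1, h2⟩ := hw0 v ho
          refine ⟨h1, fun v' hv' => ?_⟩
          rcases v' with _ | v'
          · have h1 : w (Sum.inr k1) = 0 := hv'
            rw [hw] at h1
            exact absurd h1 (by decide)
          · rw [h2 v' hv']
    exact hV (Option R) (Option C) (Ix k1) (Mτ A τ) (fun i => X (mve k1 i))
      (fun j => Y (mve k1 j)) (fun k => ν (Sum.inr (k : J))) (fun k => u (Sum.inr (k : J)))
      (fun k l => Lm (Nt N τ) (Sum.inr k) (Sum.inr l)) _ (Fintype.card U + 2)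
      (Hy_mv hH hr1 hc1 hτ') (by rw [Fintype.card_option, Fintype.card_option, hCR])
      (by rw [Fintype.card_option]; omega) hG (fun k l => link_mv hA τ k l)
      (by convert rich (fun k => ν (Sum.inr k) = 1) (by convert r1))
      (by convert rich (fun k => u (Sum.inr k) = 1) (by convert r2))
      (by convert rich (fun k => ν (Sum.inr k) ≠ u (Sum.inr k)) (by convert r3))
  -- the average
  set B : (Ix k1 → ZMod 2) → ℝ := fun τ => ((univ.filter fun σ' => F τ σ').card : ℝ) with hB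
  have hD0 : 0 < D := by positivity
  have hK0 : 0 < K := by positivity
  have hc2 := eta_c2
  have q1 : ((univ.filter fun σ : ps J → ZMod 2 => Gc A Y (sx σ) ∧
      Kx ν u (Lm (pt N (sx σ)))).card : ℝ) = ∑ τ, B τ := by
    have h0 := card_tr (k1 := k1) F
    have h1 : (univ.filter fun σ : ps J → ZMod 2 => Gc A Y (sx σ) ∧
        Kx ν u (Lm (pt N (sx σ)))).card = (@Finset.filter (ps J → ZMod 2)
          (fun σ => F (tau k1 σ) (res k1 σ)) (fun a => Classical.propDecidable _) univ).card := by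
      refine congrArg Finset.card (Finset.ext fun σ => ?_)
      simp only [mem_filter, mem_univ, true_and]
      exact and_congr (Gc_mv (k1 := k1) σ) (Kx_mv (k1 := k1) N σ)
    refine (congrArg (Nat.cast : ℕ → ℝ) h1).trans (h0.trans ?_)
    refine sum_congr rfl fun τ _ => ?_
    refine congrArg (Nat.cast : ℕ → ℝ) (congrArg Finset.card (Finset.ext fun σ => ?_))
    simp only [mem_filter, mem_univ, true_and]
  have hBD : ∀ τ, 0 ≤ B τ / D ∧ B τ / D ≤ 1 := by
    intro τ
    refine ⟨by positivity, ?_⟩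
    rw [div_le_one hD0, hB, hD]
    have h1 : (univ.filter fun σ' => F τ σ').card ≤ 2 ^ (ps (Ix k1)).card := by
      refine (card_le_card (filter_subset _ _)).trans ?_
      rw [Finset.card_univ, Fintype.card_fun, ZMod.card, Fintype.card_coe]
    have h2 : (((univ.filter fun σ' => F τ σ').card : ℕ) : ℝ) ≤
        ((2 ^ (ps (Ix k1)).card : ℕ) : ℝ) := Nat.cast_le.2 h1
    rw [Nat.cast_pow, Nat.cast_ofNat] at h2
    exact h2
  have q2 : ∀ τ, |B τ / D - eta * c2| ≤ ε / 2 + ((if ¬ NDg (Nt N τ) (fun i => u (mve k1 i))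
      (fun i => ν (mve k1 i)) then 1 else 0) + if bad k1 A τ then 1 else 0) := by
    intro τ
    have := hBD τ
    by_cases h : NDg (Nt N τ) (fun i => u (mve k1 i)) (fun i => ν (mve k1 i))
    · rw [if_neg (not_not.2 h), zero_add]
      by_cases h' : bad k1 A τ
      · rw [if_pos h', abs_le]
        constructor <;> linarith [this.1, this.2, hc2.1, hc2.2]
      · rw [if_neg h', add_zero]
        exact hgood τ h h'
    · rw [if_pos h, abs_le]
      have h3 : (0 : ℝ) ≤ if bad k1 A τ then 1 else 0 := by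
        split_ifs <;> norm_num
      constructor <;> linarith [this.1, this.2, hc2.1, hc2.2]
  have q3 : |∑ τ, (B τ / D - eta * c2)| ≤ K * (ε / 2) + (2 ^ (Fintype.card U + 2) +
      (2 ^ Fintype.card R + 2 ^ Fintype.card C)) := by
    refine (abs_sum_le_sum_abs _ _).trans ((sum_le_sum fun τ _ => q2 τ).trans ?_)
    rw [sum_add_distrib, sum_const, Finset.card_univ, Fintype.card_fun, ZMod.card, nsmul_eq_mul]
    push_cast
    refine add_le_add le_rfl ?_
    rw [sum_add_distrib, sum_boole, sum_boole]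
    refine add_le_add ?_ ?_
    · exact_mod_cast hbad
    · exact_mod_cast hbad'
  have q4 : ((univ.filter fun σ : ps J → ZMod 2 => Gc A Y (sx σ) ∧
      Kx ν u (Lm (pt N (sx σ)))).card : ℝ) / 2 ^ (ps J).card - eta * c2 =
      (∑ τ, (B τ / D - eta * c2)) / K := by
    rw [q1, card_ps (k1 := k1), ← hD, ← hK, sum_sub_distrib, sum_const, Finset.card_univ,
      Fintype.card_fun, ZMod.card, nsmul_eq_mul, ← sum_div]
    push_cast
    rw [← hK]
    field_simp
  rw [q4, abs_div, abs_of_pos hK0, div_le_iff₀ hK0]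
  refine q3.trans ?_
  have q5 : (2 : ℝ) ^ (Fintype.card U + 2) + (2 ^ Fintype.card R + 2 ^ Fintype.card C) ≤
      2 ^ (Fintype.card U + 4) := by
    have h1 : (2 : ℝ) ^ Fintype.card R ≤ 2 ^ (Fintype.card U + 2) :=
      pow_le_pow_right₀ (by norm_num) (by omega)
    have h2 : (2 : ℝ) ^ Fintype.card C ≤ 2 ^ (Fintype.card U + 2) :=
      pow_le_pow_right₀ (by norm_num) (by omega)
    have h3 : (2 : ℝ) ^ (Fintype.card U + 4) = 4 * 2 ^ (Fintype.card U + 2) := by ring
    have h4 : (0 : ℝ) ≤ 2 ^ (Fintype.card U + 2) := by positivity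
    linarith
  have q6 : (2 : ℝ) ^ (Fintype.card U + 4) ≤ ε / 2 * K := by
    have h1 : (2 : ℝ) ^ (Fintype.card U + 4) * 2 ^ n ≤ K := by
      rw [hK, ← pow_add]
      exact pow_le_pow_right₀ (by norm_num) (by omega)
    have h2 : (2 : ℝ) ^ (Fintype.card U + 4) ≤ K * (1 / 2 ^ n) := by
      rw [mul_one_div, le_div_iff₀ (by positivity)]
      exact h1
    refine h2.trans ?_
    rw [mul_comm]
    exact mul_le_mul_of_nonneg_right hn hK0.le
  linarith

end Pool.Agent.N809.JT
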