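import Pool.Agent.N809.JT.Law

/-!
# JT: level 17 alone, every modulus
-/

set_option autoImplicit false
set_option linter.all false

open scoped Classical

namespace Pool.Agent.N809.JT

open Finset Module
open Pool.Agent.N916.GB (pt ps sx eta Po Vt)
open Pool.Agent.Y703.CQ (c2 nr)
open Pool.Agent.N916.AM (LAH Nd Rich Bs)
open Pool.Agent.N916.MO
open Pool.Agent.N916.PQ (Hy Gc PM G15 f15 prodS PT LAH.congr LAH.union)
open Pool.Agent.N972.P17 (Sx Sr)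
open Pool.Agent.N969.P17G (SxP)
open Pool.Agent.N919.BS (HG Rt17)
open Pool.Agent.N809.PQ (Sg15)
open Pool.Agent.N875.X15 (d2 oe oe_mod d2_spec)

theorem LAHm {M : ℕ} {K K' : Finset ℕ} {G : Finset ℕ → Prop} {η : ℝ} (hK : K' ⊆ K)
    (h : LAH M K G η) : LAH M K' G η := by
  intro ε hε
  obtain ⟨V, hV⟩ := h ε hε
  refine ⟨V, ?_⟩
  intro ι _ _ S₀ p hS₀ hp hpi hpK hN hR
  exact hV ι S₀ p hS₀ hp hpi (hK hpK) hN hR

section
variable {M : ℕ} {K : Finset ℕ} {k c : ℕ} {t : Bool} {r s : ZMod 2}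

/-- positive integers -/
theorem l_pos (hM : 136 ∣ M) (hM0 : 0 < M) (hk : k = 1 ∨ k = 2) (hc : c = 1 ∨ c = 3)
    (hts : t = false → s = 0) (htr : t = true → r ≠ 0 ∨ s ≠ 0)
    (hcs : c = if s = 0 then 1 else 3)
    (hK : ∀ a ∈ K, a % 4 = c ∧ Rt17 (1 * ((k * a : ℕ) : ℤ)))
    (hG : ∀ n, 0 < n → Squarefree n → n % 4 = c → ¬ 17 ∣ n →
      (G17 (1 * ((k * n : ℕ) : ℤ)) ↔ Gu t r s n.primeFactors)) :
    LAH M K (fun S => G17 (1 * ((k * ∏ v ∈ S, v : ℕ) : ℤ))) c2 := by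
  have h4M : (4 : ℕ) ∣ M := Dvd.dvd.trans (by norm_num) hM
  have h17M : (17 : ℕ) ∣ M := Dvd.dvd.trans (by norm_num) hM
  have h1M : 1 < M := lt_of_lt_of_le (by norm_num) (Nat.le_of_dvd hM0 hM)
  have hK' : ∀ a ∈ K, a % 4 = (if s = 0 then 1 else 3) ∧ nr 17 a = 0 ∧ ¬ 17 ∣ a := by
    intro a ha
    obtain ⟨h1, h2⟩ := hK a ha
    exact ⟨h1.trans hcs, (rt_pos hk (by rcases hc with h | h <;> omega)).1 h2⟩
  refine LAH.congr h1M ?_ (lah_p hM hM0 hts htr hK')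
  intro S hS hK1 _
  obtain ⟨e1, e2, e3⟩ := prodS hS
  have h4 := (hK _ hK1).1
  rw [Nat.mod_mod_of_dvd _ h4M] at h4
  have h17 := (hK' _ hK1).2.2
  rw [Nat.dvd_mod_iff h17M] at h17
  have := hG _ e3 e1 h4 h17
  rw [e2] at this
  exact this

/-- negative integers -/
theorem l_neg {e : ℕ} (hM : 136 ∣ M) (hM0 : 0 < M) (hk : k = 1 ∨ k = 2) (hc : c = 1 ∨ c = 3)
    (hts : t = false → s = 0) (htr : t = true → r ≠ 0 ∨ s ≠ 0)
    (hcs : c = if s = 0 then 3 else 1) (he : ¬ 17 ∣ e)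
    (hK : ∀ a ∈ K, a % 4 = c ∧ Rt17 (-1 * ((k * a : ℕ) : ℤ)))
    (hG : ∀ n, Squarefree n → n % 4 = c → (G17 (-1 * ((k * n : ℕ) : ℤ)) ↔ C17 (e * n)))
    (hu : ∀ n, Squarefree n → n % 4 = c → ¬ 17 ∣ e * n → (Sx (e * n) ↔ Gu t r s n.primeFactors))
    (hw : ∀ n, Squarefree n → n % 4 = c → 17 ∣ e * n → (Sr (e * n) ↔ Gw t r s n.primeFactors)) :
    LAH M K (fun S => G17 (-1 * ((k * ∏ v ∈ S, v : ℕ) : ℤ))) c2 := by
  have h4M : (4 : ℕ) ∣ M := Dvd.dvd.trans (by norm_num) hM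
  have h17M : (17 : ℕ) ∣ M := Dvd.dvd.trans (by norm_num) hM
  have h1M : 1 < M := lt_of_lt_of_le (by norm_num) (Nat.le_of_dvd hM0 hM)
  have hd : ∀ n, 17 ∣ e * n ↔ 17 ∣ n := by
    intro n
    rw [p17.dvd_mul]
    exact ⟨fun h => h.resolve_left he, Or.inr⟩
  have hsub : K ⊆ (K.filter fun a => ¬ 17 ∣ a) ∪ K.filter fun a => 17 ∣ a := by
    intro a ha
    rw [mem_union, mem_filter, mem_filter]
    by_cases h : 17 ∣ a
    · exact Or.inr ⟨ha, h⟩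
    · exact Or.inl ⟨ha, h⟩
  refine LAHm hsub (LAH.union ?_ ?_)
  · refine LAH.congr h1M ?_ (lah_u hM hM0 hts htr ?_)
    · intro S hS hK1 _
      obtain ⟨hK2, h17⟩ := mem_filter.1 hK1
      obtain ⟨e1, e2, e3⟩ := prodS hS
      have h4 := (hK _ hK2).1
      rw [Nat.mod_mod_of_dvd _ h4M] at h4
      rw [Nat.dvd_mod_iff h17M] at h17
      have h17' : ¬ 17 ∣ e * ∏ v ∈ S, v := fun h => h17 ((hd _).1 h)
      have h5 := hu _ e1 h4 h17'
      rw [e2] at h5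
      rw [hG _ e1 h4, ← h5]
      exact ⟨fun h => h.1 h17', fun h => ⟨fun _ => h, fun h' => absurd h' h17'⟩⟩
    · intro a ha
      obtain ⟨hK2, h17⟩ := mem_filter.1 ha
      obtain ⟨h1, h2⟩ := hK a hK2
      exact ⟨h1.trans hcs, ((rt_neg hk (by rcases hc with h | h <;> omega)).1 h2).resolve_right h17⟩
  · refine LAH.congr h1M ?_ (lah_w hM hM0 hts htr ?_)
    · intro S hS hK1 _
      obtain ⟨hK2, h17⟩ := mem_filter.1 hK1
      obtain ⟨e1, e2, e3⟩ := prodS hS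
      have h4 := (hK _ hK2).1
      rw [Nat.mod_mod_of_dvd _ h4M] at h4
      rw [Nat.dvd_mod_iff h17M] at h17
      have h17' : 17 ∣ e * ∏ v ∈ S, v := (hd _).2 h17
      have h5 := hw _ e1 h4 h17'
      rw [e2] at h5
      rw [hG _ e1 h4, ← h5]
      exact ⟨fun h => h.2 h17', fun h => ⟨fun h' => absurd h17' h', fun _ => h⟩⟩
    · intro a ha
      obtain ⟨hK2, h17⟩ := mem_filter.1 ha
      exact ⟨(hK a hK2).1.trans hcs, h17⟩

end

/-- the level 17 side, every modulus divisible by `136` -/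
theorem lah17 {M : ℕ} (h136 : 136 ∣ M) (hM0 : 0 < M) {s' : ℤ} {k c : ℕ} {t : Bool} {r s : ZMod 2}
    (H : PM s' k c t r s) (K : Finset ℕ)
    (hK' : ∀ a ∈ K, a % 4 = c ∧ Rt17 (s' * ((k * a : ℕ) : ℤ))) :
    LAH M K (fun S => G17 (s' * ((k * ∏ v ∈ S, v : ℕ) : ℤ))) c2 := by
  rcases det8 H with ⟨rfl, rfl, rfl, rfl, rfl, rfl⟩ | ⟨rfl, rfl, rfl, rfl, rfl, rfl⟩ |
    ⟨rfl, rfl, rfl, rfl, rfl, rfl⟩ | ⟨rfl, rfl, rfl, rfl, rfl, rfl⟩ |
    ⟨rfl, rfl, rfl, rfl, rfl, rfl⟩ | ⟨rfl, rfl, rfl, rfl, rfl, rfl⟩ |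
    ⟨rfl, rfl, rfl, rfl, rfl, rfl⟩ | ⟨rfl, rfl, rfl, rfl, rfl, rfl⟩
  · refine l_pos h136 hM0 (Or.inl rfl) (Or.inl rfl) H.ts H.tr (if_pos rfl).symm hK' ?_
    intro M h0 h1 h2 h3
    rw [G_pos (n := M) (by omega) (by rw [Kn_odd (by omega)]; omega)]
    exact SxP_iff (parP0 h2) pf_odd (odd2 (Or.inl h2)) h3
  · refine l_pos h136 hM0 (Or.inl rfl) (Or.inr rfl) H.ts H.tr (if_neg (by decide)).symm hK' ?_
    intro M h0 h1 h2 h3
    rw [G_pos (n := 4 * M) (by omega) (by rw [Kn_ev (by omega)]; omega)]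
    exact SxP_iff (parP1 h2) (pf_4 h1.ne_zero) (odd2 (Or.inr h2)) (e17 (by norm_num) h3)
  · refine l_pos h136 hM0 (Or.inr rfl) (Or.inl rfl) H.ts H.tr (if_pos rfl).symm hK' ?_
    intro M h0 h1 h2 h3
    rw [G_pos (n := 8 * M) (by omega) (by rw [Kn_ev (by omega)]; omega)]
    exact SxP_iff (parP2 h2) (pf_8 h1.ne_zero) (odd2 (Or.inl h2)) (e17 (by norm_num) h3)
  · refine l_pos h136 hM0 (Or.inr rfl) (Or.inr rfl) H.ts H.tr (if_neg (by decide)).symm hK' ?_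
    intro M h0 h1 h2 h3
    rw [G_pos (n := 8 * M) (by omega) (by rw [Kn_ev (by omega)]; omega)]
    exact SxP_iff (parP3 h2) (pf_8 h1.ne_zero) (odd2 (Or.inr h2)) (e17 (by norm_num) h3)
  · refine l_neg (e := 4) h136 hM0 (Or.inl rfl) (Or.inl rfl) H.ts H.tr
      (if_neg (by decide)).symm (by norm_num) hK' ?_ ?_ ?_
    · intro M h1 h2
      exact G_neg (by have := h1.ne_zero; omega) (by rw [Kn_ev (by omega)]; omega)
    · intro M h1 h2 h3
      exact Sx_iff (par1 h2) (pf_4 h1.ne_zero) (odd2 (Or.inl h2)) h3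
    · intro M h1 h2 h3
      exact Sr_iff (par1 h2) (pf_4 h1.ne_zero) (odd2 (Or.inl h2)) h3
        (mul_ne_zero (by norm_num) h1.ne_zero)
  · refine l_neg (e := 1) h136 hM0 (Or.inl rfl) (Or.inr rfl) H.ts H.tr
      (if_pos rfl).symm (by norm_num) hK' ?_ ?_ ?_
    · intro M h1 h2
      exact G_neg (by have := h1.ne_zero; omega) (by rw [Kn_odd (by omega)]; omega)
    · intro M h1 h2 h3
      rw [one_mul] at h3 ⊢
      exact Sx_iff (par0 h2) pf_odd (odd2 (Or.inr h2)) h3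
    · intro M h1 h2 h3
      rw [one_mul] at h3 ⊢
      exact Sr_iff (par0 h2) pf_odd (odd2 (Or.inr h2)) h3 h1.ne_zero
  · refine l_neg (e := 8) h136 hM0 (Or.inr rfl) (Or.inl rfl) H.ts H.tr
      (if_neg (by decide)).symm (by norm_num) hK' ?_ ?_ ?_
    · intro M h1 h2
      exact G_neg (by have := h1.ne_zero; omega) (by rw [Kn_ev (by omega)]; omega)
    · intro M h1 h2 h3
      exact Sx_iff (par2 h2) (pf_8 h1.ne_zero) (odd2 (Or.inl h2)) h3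
    · intro M h1 h2 h3
      exact Sr_iff (par2 h2) (pf_8 h1.ne_zero) (odd2 (Or.inl h2)) h3
        (mul_ne_zero (by norm_num) h1.ne_zero)
  · refine l_neg (e := 8) h136 hM0 (Or.inr rfl) (Or.inr rfl) H.ts H.tr
      (if_pos rfl).symm (by norm_num) hK' ?_ ?_ ?_
    · intro M h1 h2
      exact G_neg (by have := h1.ne_zero; omega) (by rw [Kn_ev (by omega)]; omega)
    · intro M h1 h2 h3
      exact Sx_iff (par3 h2) (pf_8 h1.ne_zero) (odd2 (Or.inr h2)) h3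
    · intro M h1 h2 h3
      exact Sr_iff (par3 h2) (pf_8 h1.ne_zero) (odd2 (Or.inr h2)) h3
        (mul_ne_zero (by norm_num) h1.ne_zero)


/-- level 17 -/
theorem ll17 : LL 136 Rt17 G17 c2 := fun s' k c t r s H M hM hM0 K hK => lah17 hM hM0 H K hK

/-- **level 17 in every residue class** -/
theorem law17 : Law Rt17 G17 c2 :=
  ll17.law (by norm_num) (by norm_num) (Pool.Agent.N963.JT.sp_rt (by norm_num))
    Pool.Agent.N916.MO.c201.1 Pool.Agent.N916.MO.c201.2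

end Pool.Agent.N809.JT
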