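import Pool.Agent.N809.JT.Hj
import Pool.Agent.N963.JT.Fin
import Pool.Agent.N916.PQ.Main21

/-!
# JT: laws in all residue classes
-/

set_option autoImplicit false
set_option linter.all false

open scoped Classical

namespace Pool.Agent.N809.JT

open Finset Filter
open Pool.Agent.N919.BS (NN NS NF HG Rt17 Fund core)
open Pool.Agent.N916.PQ (PM pm_all hg_one)
open Pool.Agent.N916.AM (LAH)
open Pool.Agent.N963.JT (Sp sp_mod KC KC_prop mem_KC cls_NS cls_NF close_X)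

/-- the criterion `G` has relative density `c` in the class `W`, in every residue class -/
def Law (W G : ℤ → Prop) (c : ℝ) : Prop :=
  ∀ m : ℕ, 0 < m → ∀ A : Set ℤ, HG (fun d => W d ∧ d % (m : ℤ) ∈ A) G c

/-- the hypothesis of the density machine, for all sets of residues inside the class `W` -/
def LL (M₀ : ℕ) (W G : ℤ → Prop) (η : ℝ) : Prop :=
  ∀ (s' : ℤ) (k c : ℕ) (t : Bool) (r s : ZMod 2), PM s' k c t r s →
  ∀ M : ℕ, M₀ ∣ M → 0 < M → ∀ K : Finset ℕ,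
    (∀ a ∈ K, a % 4 = c ∧ W (s' * (k * a : ℕ))) →
    LAH M K (fun S => G (s' * (k * ∏ v ∈ S, v : ℕ))) η

theorem LL.mono {M₀ M₁ : ℕ} {W W' G : ℤ → Prop} {η : ℝ} (h : LL M₀ W G η) (hM : M₀ ∣ M₁)
    (hW : ∀ d, W' d → W d) : LL M₁ W' G η := by
  intro s' k c t r s H M hM1 hM0 K hK
  exact h s' k c t r s H M (hM.trans hM1) hM0 K fun a ha => ⟨(hK a ha).1, hW _ (hK a ha).2⟩

theorem sp_mono {M M' : ℕ} (h : M ∣ M') {P : ℤ → Prop} (hP : Sp M P) : Sp M' P := by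
  intro a b hab hM
  have h1 : ((M : ℕ) : ℤ) ∣ M' := Int.natCast_dvd_natCast.2 h
  refine hP a b hab ?_
  rw [← Int.emod_emod_of_dvd a h1, hM, Int.emod_emod_of_dvd b h1]

theorem LL.law {M₀ : ℕ} {W G : ℤ → Prop} {η : ℝ} (h : LL M₀ W G η) (h0 : 0 < M₀) (h8 : 8 ∣ M₀)
    (hW : Sp M₀ W) (e0 : 0 ≤ η) (e1 : η ≤ 1) : Law W G η := by
  intro m hm A s' k c hs hk hc
  obtain ⟨t, r, s, H⟩ := pm_all hs hk hc
  have hM : 0 < M₀ * m := Nat.mul_pos h0 hm
  have hdM : M₀ ∣ M₀ * m := Dvd.intro _ rfl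
  have hP : Sp (M₀ * m) fun d => W d ∧ d % (m : ℤ) ∈ A :=
    (sp_mono hdM hW).and (sp_mod (Dvd.intro_left _ rfl) A)
  have h4 : 4 ∣ M₀ * m := ((by norm_num : 4 ∣ 8).trans h8).trans hdM
  have hL := h s' k c t r s H (M₀ * m) hdM hM
    (KC (M₀ * m) (fun d => W d ∧ d % (m : ℤ) ∈ A) s' k c) fun a ha =>
      ⟨(KC_prop ha).1, (KC_prop ha).2.1⟩
  have h := hg_one (s' := s') (k := k) (c := c) (M := M₀ * m)
    (f := fun d => decide (W d ∧ d % (m : ℤ) ∈ A)) (Q := G) (h8.trans hdM) hM hc e0 e1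
    (fun n hn => by rw [mem_KC hM h4 hP hs hk hc hn, decide_eq_true_iff]) hL
  simpa only [decide_eq_true_iff] using h

theorem Law.hg {W G : ℤ → Prop} {c : ℝ} (h : Law W G c) : HG W G c := by
  have h1 := h 1 one_pos Set.univ
  simpa only [Set.mem_univ, and_true] using h1

theorem pt4 (q u p a b : Prop) [Decidable (q ∧ u ∧ p ∧ a)] [Decidable (q ∧ u ∧ p ∧ b)]
    [Decidable (q ∧ u ∧ p ∧ Xor' a b)] [Decidable (q ∧ u ∧ p ∧ (a ∧ b))] :
    (if q ∧ u ∧ p ∧ a then 1 else 0) + (if q ∧ u ∧ p ∧ b then 1 else 0) =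
      (if q ∧ u ∧ p ∧ Xor' a b then 1 else 0) + 2 * (if q ∧ u ∧ p ∧ (a ∧ b) then 1 else 0) := by
  by_cases h1 : q <;> by_cases h2 : u <;> by_cases h3 : p <;> by_cases h4 : a <;>
    by_cases h5 : b <;> simp [h1, h2, h3, h4, h5, Xor']

theorem NN_xor (P A B : ℤ → Prop) (s : ℤ) (k r Y : ℕ) :
    NN (fun d => P d ∧ A d) s k r Y + NN (fun d => P d ∧ B d) s k r Y =
      NN (fun d => P d ∧ Xor' (A d) (B d)) s k r Y + 2 * NN (fun d => P d ∧ (A d ∧ B d)) s k r Y := by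
  unfold NN
  simp only [card_filter]
  rw [mul_sum, ← sum_add_distrib, ← sum_add_distrib]
  refine sum_congr rfl fun n _ => ?_
  exact pt4 _ _ _ _ _

/-- from the exclusive disjunction to the conjunction -/
theorem hg_xor {P A B : ℤ → Prop} {a b x : ℝ} (hA : HG P A a) (hB : HG P B b)
    (hX : HG P (fun d => Xor' (A d) (B d)) x) : HG P (fun d => A d ∧ B d) ((a + b - x) / 2) := by
  intro s k r hs hk hr ε hε
  obtain ⟨Y₁, h1⟩ := hA s k r hs hk hr (ε / 2) (by positivity)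
  obtain ⟨Y₂, h2⟩ := hB s k r hs hk hr (ε / 2) (by positivity)
  obtain ⟨Y₃, h3⟩ := hX s k r hs hk hr (ε / 2) (by positivity)
  refine ⟨max Y₁ (max Y₂ Y₃), fun Y hY => ?_⟩
  have a1 := h1 Y ((le_max_left _ _).trans hY)
  have a2 := h2 Y (((le_max_left _ _).trans (le_max_right _ _)).trans hY)
  have a3 := h3 Y (((le_max_right _ _).trans (le_max_right _ _)).trans hY)
  have e : (NN (fun d => P d ∧ A d) s k r Y : ℝ) + NN (fun d => P d ∧ B d) s k r Y =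
      NN (fun d => P d ∧ Xor' (A d) (B d)) s k r Y +
        2 * NN (fun d => P d ∧ (A d ∧ B d)) s k r Y := by
    exact_mod_cast NN_xor P A B s k r Y
  have hY0 : (0 : ℝ) ≤ ε * Y := mul_nonneg hε.le (Nat.cast_nonneg _)
  rw [abs_le] at a1 a2 a3 ⊢
  constructor <;> linarith [a1.1, a1.2, a2.1, a2.2, a3.1, a3.2]

theorem Law.xor {W A B : ℤ → Prop} {a b x : ℝ} (hA : Law W A a) (hB : Law W B b)
    (hX : Law W (fun d => Xor' (A d) (B d)) x) : Law W (fun d => A d ∧ B d) ((a + b - x) / 2) :=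
  fun m hm C => hg_xor (hA m hm C) (hB m hm C) (hX m hm C)

theorem HG.congr {P G G' : ℤ → Prop} {c : ℝ} (h : HG P G c)
    (hG : ∀ d, Squarefree d → P d → (G d ↔ G' d)) : HG P G' c := by
  intro s k r hs hk hr ε hε
  obtain ⟨Y₀, hY⟩ := h s k r hs hk hr ε hε
  refine ⟨Y₀, fun Y hY' => ?_⟩
  have e : NN (fun d => P d ∧ G' d) s k r Y = NN (fun d => P d ∧ G d) s k r Y := by
    unfold NN
    congr 1
    ext n
    simp only [mem_filter]
    refine and_congr_right fun hn => and_congr_right fun h1 => and_congr_right fun h2 =>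
      and_congr_right fun h3 => (hG _ ?_ h3).symm
    exact Pool.Agent.N916.PQ.L21.sq_k hs hk h1 (by rcases hr with h | h <;> omega)
  rw [e]
  exact hY Y hY'

theorem Law.congr {W G G' : ℤ → Prop} {c : ℝ} (h : Law W G c)
    (hG : ∀ d, Squarefree d → W d → (G d ↔ G' d)) : Law W G' c :=
  fun m hm A => HG.congr (h m hm A) fun d hs hd => hG d hs hd.1

theorem NN_cg {P Q : ℤ → Prop} {s : ℤ} {k r : ℕ}
    (h : ∀ n : ℕ, 0 < n → (P (s * (k * n : ℕ)) ↔ Q (s * (k * n : ℕ)))) (Y : ℕ) :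
    NN P s k r Y = NN Q s k r Y := by
  unfold Pool.Agent.N919.BS.NN
  congr 1
  ext n
  simp only [mem_filter, mem_Icc]
  constructor
  · rintro ⟨⟨h1, h2⟩, h3, h4, h5⟩
    exact ⟨⟨h1, h2⟩, h3, h4, (h n (by omega)).1 h5⟩
  · rintro ⟨⟨h1, h2⟩, h3, h4, h5⟩
    exact ⟨⟨h1, h2⟩, h3, h4, (h n (by omega)).2 h5⟩

theorem nn_close {P P' Q Q' : ℤ → Prop} {s : ℤ} {k r : ℕ} {c : ℝ}
    (hP : ∀ n : ℕ, 0 < n → (P (s * (k * n : ℕ)) ↔ P' (s * (k * n : ℕ))))
    (hQ : ∀ n : ℕ, 0 < n → (Q (s * (k * n : ℕ)) ↔ Q' (s * (k * n : ℕ))))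
    (h : ∀ ε : ℝ, 0 < ε → ∃ Y₀ : ℕ, ∀ Y : ℕ, Y₀ ≤ Y →
      |(NN P' s k r Y : ℝ) - c * NN Q' s k r Y| ≤ ε * Y) :
    ∀ ε : ℝ, 0 < ε → ∃ Y₀ : ℕ, ∀ Y : ℕ, Y₀ ≤ Y →
      |(NN P s k r Y : ℝ) - c * NN Q s k r Y| ≤ ε * Y := by
  intro ε hε
  obtain ⟨Y₀, hY⟩ := h ε hε
  refine ⟨Y₀, fun Y hY' => ?_⟩
  rw [NN_cg hP, NN_cg hQ]
  exact hY Y hY'

/-- the law in a class which depends on the sign and on the residue modulo `M` -/
theorem Law.sp {W G V : ℤ → Prop} {c : ℝ} {M : ℕ} (h : Law W G c) (hM : 0 < M) (hV : Sp M V) :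
    HG (fun d => W d ∧ V d) G c := by
  intro s k r hs hk hr
  have hk0 : 0 < k := by rcases hk with rfl | rfl <;> norm_num
  rcases hs with rfl | rfl
  · have key : ∀ n : ℕ, 0 < n → (V (1 * (k * n : ℕ)) ↔
        (1 * (k * n : ℕ) : ℤ) % (M : ℤ) ∈ {a | ∃ e : ℤ, 0 < e ∧ e % (M : ℤ) = a ∧ V e}) := by
      intro n hn
      have h0 : (0 : ℤ) < 1 * (k * n : ℕ) := by
        have : 0 < k * n := Nat.mul_pos hk0 hn
        push_cast
        push_cast at this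
        exact_mod_cast (by simpa using this)
      constructor
      · exact fun h => ⟨_, h0, rfl, h⟩
      · rintro ⟨e, e1, e2, e3⟩
        exact (hV _ _ (Or.inl ⟨e1, h0⟩) e2).1 e3
    refine nn_close (fun n hn => ?_) (fun n hn => ?_)
      (h M hM {a | ∃ e : ℤ, 0 < e ∧ e % (M : ℤ) = a ∧ V e} 1 k r (Or.inl rfl) hk hr)
    · have := key n hn
      simp only [this]
    · have := key n hn
      simp only [this]
  · have key : ∀ n : ℕ, 0 < n → (V (-1 * (k * n : ℕ)) ↔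
        (-1 * (k * n : ℕ) : ℤ) % (M : ℤ) ∈ {a | ∃ e : ℤ, e < 0 ∧ e % (M : ℤ) = a ∧ V e}) := by
      intro n hn
      have h0 : (-1 * (k * n : ℕ) : ℤ) < 0 := by
        have h1 : 0 < k * n := Nat.mul_pos hk0 hn
        have h2 : (0 : ℤ) < (k * n : ℕ) := by exact_mod_cast h1
        omega
      constructor
      · exact fun h => ⟨_, h0, rfl, h⟩
      · rintro ⟨e, e1, e2, e3⟩
        exact (hV _ _ (Or.inr ⟨e1, h0⟩) e2).1 e3
    refine nn_close (fun n hn => ?_) (fun n hn => ?_)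
      (h M hM {a | ∃ e : ℤ, e < 0 ∧ e % (M : ℤ) = a ∧ V e} (-1) k r (Or.inr rfl) hk hr)
    · have := key n hn
      simp only [this]
    · have := key n hn
      simp only [this]

end Pool.Agent.N809.JT
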