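import Pool.Agent.N809.JT.Jq
import Pool.Agent.N809.JT.Df
import Pool.Agent.N916.MO.LkP

/-!
# JT: the hypothesis of the density machine for both criteria
-/

set_option autoImplicit false
set_option linter.all false

open scoped Classical

namespace Pool.Agent.N809.JT

open Finset Module
open Pool.Agent.N916.GB (pt ps sx eta Po Vt)
open Pool.Agent.Y703.CQ (c2 nr)
open Pool.Agent.N973.ND (uu nr_rec nr_self)
open Pool.Agent.N916.AM (LAH Nd Rich Bs sub_Bs uu_mod nr_Bs)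
open Pool.Agent.N958.GB (lb rr rr_inj rr_im NR sgm two_tuples rec_NR ud wd z2 mem_Vt Vt_sub sy_ne)
open Pool.Agent.N916.MO
open Pool.Agent.N916.PQ (Hy Gc)

theorem Lm_eq {V : Type} [Fintype V] [DecidableEq V] (N : V → V → ZMod 2) (i j : V) :
    Lm N i j = Pool.Agent.N916.PQ.Lm N i j := by
  unfold Lm Pool.Agent.N916.PQ.Lm
  by_cases h : i = j
  · rw [if_pos h, if_pos h]
    refine sum_congr rfl fun k _ => ?_
    by_cases hk : k = i
    · rw [if_pos hk, if_pos hk]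
    · rw [if_neg hk, if_neg hk]
  · rw [if_neg h, if_neg h]

/-- the criterion `G'` together with a linear system -/
def J17 (M : ℕ) (K : Finset ℕ) (t : Bool) (r s : ZMod 2) (G' : Finset ℕ → Prop) (η : ℝ) : Prop :=
  ∀ ε : ℝ, 0 < ε → ∃ V : ℕ, ∀ (ι : Type) [Fintype ι] [LinearOrder ι] (S₀ : Finset ℕ) (p : ι → ℕ),
    (∀ v ∈ S₀, Po v) → (∀ i, Po (p i) ∧ p i ∉ S₀ ∧ (p i).Coprime M) → Function.Injective p →
    ((∏ v ∈ S₀, v) * ∏ i, p i) % M ∈ K → Nd M S₀ (univ.image p) → Rich M V S₀ (univ.image p) →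
    ∀ (R C : Type) [Fintype R] [Fintype C] (A : R ⊕ ι → C ⊕ ι → ZMod 2)
      (X : R ⊕ ι → ZMod 2) (Y : C ⊕ ι → ZMod 2),
      Hy A X Y (fun k => ud s (rr t S₀ p) (Sum.inr k)) → Fintype.card C = Fintype.card R →
      Fintype.card R ≤ Fintype.card (Vt t S₀ : Finset ℕ) + 1 →
      (∀ k l, A (Sum.inr k) (Sum.inr l) =
        Pool.Agent.N916.PQ.Lm (NR r s (rr t S₀ p)) (Sum.inr k) (Sum.inr l)) →
      ∃ P : (ps ι → ZMod 2) → Prop,
        (∀ q : ι → ℕ, Function.Injective q → (∀ i, Po (q i) ∧ q i ∉ S₀ ∧ q i % M = p i % M ∧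
          ∀ v ∈ S₀, nr (q i) v = nr (p i) v) →
          (G' (S₀ ∪ univ.image q) ↔ P (sgm q + sgm p))) ∧
        |((univ.filter fun σ : ps ι → ZMod 2 => Gc A Y (sx σ) ∧ P σ).card : ℝ) /
          2 ^ (ps ι).card - η| ≤ ε

theorem ne_i {M V : ℕ} (hM : 1 < M) {S₀ : Finset ℕ} {ι : Type} [Fintype ι] {p : ι → ℕ}
    (hR : Rich M (V + 1) S₀ (univ.image p)) : Nonempty ι := by
  have hcnt := hR 1 hM (Nat.coprime_one_left M)
  have hpos : 0 < ((univ.image p).filter fun x => x % M = 1).card := by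
    have : 0 < (V + 1) * (S₀.card + 1) := by positivity
    omega
  obtain ⟨x, hx⟩ := card_pos.1 hpos
  obtain ⟨i₀, -, -⟩ := mem_image.1 (mem_filter.1 hx).1
  exact ⟨i₀⟩

/-- **both criteria** -/
theorem lahj {M : ℕ} (hM : 1 < M) {K : Finset ℕ} {t : Bool} {r s : ZMod 2}
    {G G' : Finset ℕ → Prop} {η : ℝ} (h15 : J15 M K t r s G) (h17 : J17 M K t r s G' η) :
    LAH M K (fun S => G S ∧ G' S) η := by
  intro ε hε
  obtain ⟨V, hV⟩ := h17 ε hε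
  refine ⟨V + 1, ?_⟩
  intro ι _ _ S₀ p hS₀ hp hpi hpK hN hR
  haveI := ne_i hM hR
  obtain ⟨R, C, _, _, A, X, Y, a1, a2, a3, a4, a5⟩ := h15 ι S₀ p hS₀ hp hpi hpK hN
  obtain ⟨P, b1, b2⟩ := hV ι S₀ p hS₀ hp hpi hpK hN
    (Pool.Agent.N916.PQ.Rich.mono (Nat.le_succ V) hR) R C A X Y a1 a2 a3 a4
  refine ⟨fun σ => Gc A Y (sx (σ + sgm p)) ∧ P (σ + sgm p), ?_, ?_⟩
  · intro q hqi hq
    exact and_congr (a5 q hqi hq) (b1 q hqi hq)
  · rw [shift_card (fun σ => Gc A Y (sx σ) ∧ P σ)]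
    convert b2

theorem J17.congr {M : ℕ} (hM : 1 < M) {K : Finset ℕ} {t : Bool} {r s : ZMod 2}
    {G G' : Finset ℕ → Prop} {η : ℝ}
    (h : ∀ S : Finset ℕ, (∀ v ∈ S, Po v) → (∏ v ∈ S, v) % M ∈ K → S.Nonempty → (G S ↔ G' S))
    (hL : J17 M K t r s G' η) : J17 M K t r s G η := by
  intro ε hε
  obtain ⟨V, hV⟩ := hL ε hε
  refine ⟨V + 1, ?_⟩
  intro ι _ _ S₀ p hS₀ hp hpi hpK hN hR R C _ _ A X Y a1 a2 a3 a4
  obtain ⟨i₀⟩ := ne_i hM hR
  obtain ⟨P, hQ, hQ2⟩ := hV ι S₀ p hS₀ hp hpi hpK hN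
    (Pool.Agent.N916.PQ.Rich.mono (Nat.le_succ V) hR) R C A X Y a1 a2 a3 a4
  refine ⟨P, ?_, hQ2⟩
  intro q hqi hq
  rw [← hQ q hqi hq]
  refine h _ ?_ ?_ ⟨q i₀, mem_union_right _ (mem_image_of_mem q (mem_univ i₀))⟩
  · intro v hv
    rcases mem_union.1 hv with h | h
    · exact hS₀ v h
    · obtain ⟨i, -, rfl⟩ := mem_image.1 h
      exact (hq i).1
  · have hdis : Disjoint S₀ (univ.image q) := by
      rw [Finset.disjoint_left]
      intro x hx hx'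
      obtain ⟨i, -, rfl⟩ := mem_image.1 hx'
      exact (hq i).2.1 hx
    rw [prod_union hdis, prod_image fun i _ j _ h => hqi h]
    have h1 : (∏ i, q i) % M = (∏ i, p i) % M := by
      rw [Finset.prod_nat_mod, Finset.prod_nat_mod univ M p]
      simp only [fun i => (hq i).2.2.1]
    rw [Nat.mul_mod, h1, ← Nat.mul_mod]
    exact hpK

theorem J17.union {M : ℕ} {K K' : Finset ℕ} {t : Bool} {r s : ZMod 2}
    {G : Finset ℕ → Prop} {η : ℝ} (h : J17 M K t r s G η) (h' : J17 M K' t r s G η) :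
    J17 M (K ∪ K') t r s G η := by
  intro ε hε
  obtain ⟨V, hV⟩ := h ε hε
  obtain ⟨V', hV'⟩ := h' ε hε
  refine ⟨V + V', ?_⟩
  intro ι _ _ S₀ p hS₀ hp hpi hpK hN hR
  rcases mem_union.1 hpK with hK | hK
  · exact hV ι S₀ p hS₀ hp hpi hK hN
      (Pool.Agent.N916.PQ.Rich.mono (Nat.le_add_right V V') hR)
  · exact hV' ι S₀ p hS₀ hp hpi hK hN
      (Pool.Agent.N916.PQ.Rich.mono (Nat.le_add_left V' V) hR)

/-- enough large primes -/
theorem enoughJ {M : ℕ} {ι : Type} [Fintype ι] [LinearOrder ι] {S₀ : Finset ℕ} {p : ι → ℕ}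
    {t : Bool} {s : ZMod 2} (hM : 136 ∣ M) (hM0 : 0 < M) {V₀ : ℕ}
    (hp : ∀ i, Po (p i) ∧ p i ∉ S₀ ∧ (p i).Coprime M) (hpi : Function.Injective p)
    (hR : Rich M (2 * V₀) S₀ (univ.image p)) :
    V₀ * (Fintype.card (Vt t S₀ : Finset ℕ) + 1) ≤
      (univ.filter fun k : ι => nv (rr t S₀ p) (Sum.inr k) = 1).card ∧
    V₀ * (Fintype.card (Vt t S₀ : Finset ℕ) + 1) ≤
      (univ.filter fun k : ι => ud s (rr t S₀ p) (Sum.inr k) = 1).card ∧
    V₀ * (Fintype.card (Vt t S₀ : Finset ℕ) + 1) ≤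
      (univ.filter fun k : ι => nv (rr t S₀ p) (Sum.inr k) ≠ ud s (rr t S₀ p) (Sum.inr k)).card ∧
    V₀ * (Fintype.card (Vt t S₀ : Finset ℕ) + 1) ≤
      (univ.filter fun k : ι => nv (rr t S₀ p) (Sum.inr k) = 1 ∧
        ud s (rr t S₀ p) (Sum.inr k) = 1).card := by
  have h17 : ∀ k, p k ≠ 17 := by
    intro k h
    have h1 := (hp k).2.2
    rw [h] at h1
    have : (17 : ℕ) ∣ M := Dvd.dvd.trans (by norm_num) hM
    have := Nat.Coprime.eq_one_of_dvd h1 this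
    omega
  have hnv : ∀ k, nv (rr t S₀ p) (Sum.inr k) = nr 17 (p k % 17) := by
    intro k
    show nr (p k) 17 = _
    rw [nr17 (hp k).1 (h17 k), nr17_mod]
  have hud : ∀ k, ud s (rr t S₀ p) (Sum.inr k) = uu (p k) := fun k => if_neg (hp k).1.2
  have hle : V₀ * (Fintype.card (Vt t S₀ : Finset ℕ) + 1) ≤ 2 * V₀ * (S₀.card + 1) := by
    have h1 := card_Vt (t := t) (S₀ := S₀)
    have h2 : 2 * V₀ * (S₀.card + 1) = V₀ * (2 * S₀.card + 2) := by ring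
    rw [h2]
    exact Nat.mul_le_mul_left _ (by omega)
  have m17 : ∀ {k a : ℕ}, k % 136 = a % 136 → k % 17 = a % 17 := by
    intro k a h
    have h1 := congrArg (· % 17) h
    simp only [Nat.mod_mod_of_dvd _ (show 17 ∣ 136 by norm_num)] at h1
    exact h1
  have m4 : ∀ {k a : ℕ}, k % 136 = a % 136 → k % 4 = a % 4 := by
    intro k a h
    have h1 := congrArg (· % 4) h
    simp only [Nat.mod_mod_of_dvd _ (show 4 ∣ 136 by norm_num)] at h1
    exact h1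
  refine ⟨hle.trans ?_, hle.trans ?_, hle.trans ?_, hle.trans ?_⟩
  · refine rich_cls hpi hR hM0 hM 3 ?_ _ fun i hi => ?_
    · rw [ZMod.isUnit_iff_coprime]
      norm_num
    · rw [hnv, m17 hi]
      exact nr17_3
  · refine rich_cls hpi hR hM0 hM 3 ?_ _ fun i hi => ?_
    · rw [ZMod.isUnit_iff_coprime]
      norm_num
    · rw [hud]
      unfold uu
      rw [if_pos (m4 hi)]
  · refine rich_cls hpi hR hM0 hM 5 ?_ _ fun i hi => ?_
    · rw [ZMod.isUnit_iff_coprime]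
      norm_num
    · rw [hnv, m17 hi, hud]
      unfold uu
      rw [if_neg (by rw [m4 hi]; norm_num)]
      show nr 17 (5 % 17) ≠ 0
      rw [show 5 % 17 = 5 from rfl, nr17_5]
      decide
  · refine rich_cls hpi hR hM0 hM 3 ?_ _ fun i hi => ?_
    · rw [ZMod.isUnit_iff_coprime]
      norm_num
    · rw [hnv, m17 hi, hud]
      refine ⟨nr17_3, ?_⟩
      unfold uu
      rw [if_pos (m4 hi)]

section
variable {M : ℕ} {ι : Type} [Fintype ι] [LinearOrder ι] {S₀ : Finset ℕ} {p : ι → ℕ}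
  {t : Bool} {r s : ZMod 2}

/-- the nondegeneracy with the label of `17` -/
theorem ndg17 (hM : 136 ∣ M) (hM0 : 0 < M) (hp : ∀ i, Po (p i) ∧ p i ∉ S₀ ∧ (p i).Coprime M)
    (hN : Nd M S₀ (univ.image p)) (h17V : 17 ∉ Vt t S₀) (b : ↥(Vt t S₀) → ZMod 2) (s' a : ZMod 2)
    (hbs : (∃ v, b v ≠ 0) ∨ s' ≠ 0 ∨ a ≠ 0) :
    ∃ k, ∑ v, b v * NR r s (rr t S₀ p) (Sum.inl v) (Sum.inr k) +
      s' * ud s (rr t S₀ p) (Sum.inr k) + a * nv (rr t S₀ p) (Sum.inr k) ≠ 0 := by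
  have h8 := d8 hM
  set w : ℕ → ZMod 2 := fun n => if h : n ∈ Vt t S₀ then b ⟨n, h⟩ else if n = 17 then a else 0
    with hw
  have hw1 : ∀ v : (Vt t S₀ : Finset ℕ), w v = b v := fun v => by
    rw [hw]
    exact dif_pos v.2
  have hw17 : w 17 = a := by
    rw [hw]
    show dite _ _ _ = _
    rw [dif_neg h17V, if_pos rfl]
  have hw2 : ∀ n, n ∉ insert 17 (Vt t S₀) → w n = 0 := fun n hn => by
    rw [mem_insert, not_or] at hn
    rw [hw]
    show dite _ _ _ = _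
    rw [dif_neg hn.2, if_neg hn.1]
  have hsub : insert 17 (Vt t S₀) ⊆ Bs M S₀ := by
    intro x hx
    rcases mem_insert.1 hx with h | h
    · rw [h]
      exact mem17 hM hM0 S₀
    · exact (Vt_sub t S₀).trans (sub_Bs h8 hM0 S₀) h
  obtain ⟨x, hx, hx2⟩ := hN w s' (by
    rcases hbs with ⟨v, hv⟩ | h | h
    · exact Or.inl ⟨v, hsub (mem_insert_of_mem v.2), by rw [hw1]; exact hv⟩
    · exact Or.inr h
    · exact Or.inl ⟨17, mem17 hM hM0 S₀, by rw [hw17]; exact h⟩)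
  obtain ⟨k, -, rfl⟩ := mem_image.1 hx
  refine ⟨k, ?_⟩
  have hur : ud s (rr t S₀ p) (Sum.inr k) = uu (p k) := if_neg (hp k).1.2
  rw [hur]
  intro h0
  apply hx2
  refine Eq.trans ?_ h0
  have c2 : ∑ v ∈ insert 17 (Vt t S₀), w v * nr (p k) v = ∑ v ∈ Bs M S₀, w v * nr (p k) v :=
    sum_subset hsub fun x _ hx => by rw [hw2 x hx, zero_mul]
  have c3 : ∑ v : (Vt t S₀ : Finset ℕ), b v * NR r s (rr t S₀ p) (Sum.inl v) (Sum.inr k) =
      ∑ v ∈ Vt t S₀, w v * nr (p k) v := by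
    rw [← Finset.sum_coe_sort (Vt t S₀)]
    refine sum_congr rfl fun v _ => ?_
    rw [hw1]
    congr 1
    exact sy_ne r s (hp k).1.2
  rw [← c2, sum_insert h17V, hw17, c3]
  show a * nr (p k) 17 + _ + _ = _ + _ + a * nr (p k) 17
  ring

end

/-- **unramified** -/
theorem j17_u (hJM : JM) {M : ℕ} (hM : 136 ∣ M) (hM0 : 0 < M) {t : Bool} {r s : ZMod 2}
    {K : Finset ℕ} (hts : t = false → s = 0) (htr : t = true → r ≠ 0 ∨ s ≠ 0)
    (hK : ∀ a ∈ K, a % 4 = (if s = 0 then 3 else 1) ∧ nr 17 a = 1) :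
    J17 M K t r s (Gu t r s) (eta * c2) := by
  have h8 := d8 hM
  have h4M : (4 : ℕ) ∣ M := Dvd.dvd.trans (by norm_num) hM
  have h17M : (17 : ℕ) ∣ M := Dvd.dvd.trans (by norm_num) hM
  intro ε hε
  obtain ⟨V₀, hV₀⟩ := ja_u hJM ε hε
  refine ⟨2 * V₀, ?_⟩
  intro ι _ _ S₀ p hS₀ hp hpi hpK hN hR R C _ _ A X Y a1 a2 a3 a4
  set r₀ := rr t S₀ p with hr₀
  have hrp : ∀ i, (r₀ i).Prime := prm hS₀ hp
  have hrinj : Function.Injective r₀ := rr_inj t hpi (fun i => (hp i).2.1) fun i => (hp i).1.2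
  have hK4 := (hK _ hpK).1
  have hK17 := (hK _ hpK).2
  rw [Nat.mod_mod_of_dvd _ h4M] at hK4
  rw [nr17_mod, Nat.mod_mod_of_dvd _ h17M, ← nr17_mod] at hK17
  have h17S : 17 ∉ S₀ := by
    intro h
    have h1 : 17 ∣ (∏ v ∈ S₀, v) * ∏ i, p i :=
      Dvd.dvd.mul_right (dvd_prod_of_mem (fun x => x) h) _
    rw [nr17_mod, Nat.mod_eq_zero_of_dvd h1] at hK17
    unfold nr at hK17
    rw [if_pos (by decide)] at hK17
    exact absurd hK17 (by decide)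
  have h17V : 17 ∉ Vt t S₀ := by
    intro h
    rcases mem_Vt.1 h with h | h
    · exact absurd h.2 (by norm_num)
    · exact h17S h
  obtain ⟨e1, e2, e3, -⟩ := enoughJ (t := t) (s := s) hM hM0 hp hpi hR
  have h2 := hV₀ (Vt t S₀) ι R C (wd r r₀) (ud s r₀) (nv r₀) (NR r s r₀) A X Y
    (fun k => if_neg (hp k).1.2) (sum_ud hS₀ hp hpi hts hK4) (sum_nv hS₀ hp hpi hK17)
    (fun i j hij => rec_NR r s hrinj hrp i j hij) (uniq2 htr hS₀)
    (fun b s' a hbs => ndg17 hM hM0 hp hN h17V b s' a hbs) a1 a2 a3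
    (fun k l => by rw [a4, Lm_eq])
    e1 e2 e3
  refine ⟨fun σ => Kx (nv r₀) (ud s r₀) (Lm (pt (NR r s r₀) (sx σ))), ?_, h2⟩
  intro q hqi hq
  rw [Gu_iff (rr_inj t hqi (fun i => (hq i).2.1) fun i => (hq i).1.2) (rr_im t)]
  obtain ⟨b1, b2, b3⟩ := two_q (t := t) (r := r) (s := s) hM hM0 hS₀ hp hpi hqi hq
  rw [b1, b2, b3]

/-- **positive discriminants** -/
theorem j17_p (hJM : JM) {M : ℕ} (hM : 136 ∣ M) (hM0 : 0 < M) {t : Bool} {r s : ZMod 2}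
    {K : Finset ℕ} (hts : t = false → s = 0) (htr : t = true → r ≠ 0 ∨ s ≠ 0)
    (hK : ∀ a ∈ K, a % 4 = (if s = 0 then 1 else 3) ∧ nr 17 a = 0 ∧ ¬ 17 ∣ a) :
    J17 M K t r s (Gu t r s) (eta * c2) := by
  have h8 := d8 hM
  have h4M : (4 : ℕ) ∣ M := Dvd.dvd.trans (by norm_num) hM
  have h17M : (17 : ℕ) ∣ M := Dvd.dvd.trans (by norm_num) hM
  intro ε hε
  obtain ⟨V₀, hV₀⟩ := ja_p hJM ε hε
  refine ⟨2 * V₀, ?_⟩
  intro ι _ _ S₀ p hS₀ hp hpi hpK hN hR R C _ _ A X Y a1 a2 a3 a4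
  set r₀ := rr t S₀ p with hr₀
  have hrp : ∀ i, (r₀ i).Prime := prm hS₀ hp
  have hrinj : Function.Injective r₀ := rr_inj t hpi (fun i => (hp i).2.1) fun i => (hp i).1.2
  have hK4 := (hK _ hpK).1
  have hK17 := (hK _ hpK).2.1
  have hKd := (hK _ hpK).2.2
  rw [Nat.dvd_mod_iff h17M] at hKd
  rw [Nat.mod_mod_of_dvd _ h4M] at hK4
  rw [nr17_mod, Nat.mod_mod_of_dvd _ h17M, ← nr17_mod] at hK17
  have h17S : 17 ∉ S₀ := by
    intro h
    exact hKd (Dvd.dvd.mul_right (dvd_prod_of_mem (fun x => x) h) _)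
  have h17V : 17 ∉ Vt t S₀ := by
    intro h
    rcases mem_Vt.1 h with h | h
    · exact absurd h.2 (by norm_num)
    · exact h17S h
  obtain ⟨e1, e2, e3, e4⟩ := enoughJ (t := t) (s := s) hM hM0 hp hpi hR
  have h2 := hV₀ (Vt t S₀) ι R C (wd r r₀) (ud s r₀) (nv r₀) (NR r s r₀) A X Y
    (fun k => if_neg (hp k).1.2) (sum_udP hS₀ hp hpi hts hK4) (sum_nvP hS₀ hp hpi hKd hK17)
    (fun i j hij => rec_NR r s hrinj hrp i j hij) (uniq2 htr hS₀)
    (fun b s' a hbs => ndg17 hM hM0 hp hN h17V b s' a hbs) a1 a2 a3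
    (fun k l => by rw [a4, Lm_eq])
    e1 e2 e3 (by convert e4)
  refine ⟨fun σ => Kx (nv r₀) (ud s r₀) (Lm (pt (NR r s r₀) (sx σ))), ?_, h2⟩
  intro q hqi hq
  rw [Gu_iff (rr_inj t hqi (fun i => (hq i).2.1) fun i => (hq i).1.2) (rr_im t)]
  obtain ⟨b1, b2, b3⟩ := two_q (t := t) (r := r) (s := s) hM hM0 hS₀ hp hpi hqi hq
  rw [b1, b2, b3]

end Pool.Agent.N809.JT
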