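import Pool.Agent.N809.JT.Lj

/-!
# JT: the ramified case
-/

set_option autoImplicit false
set_option linter.all false

open scoped Classical

namespace Pool.Agent.N809.JT

open Finset Module
open Pool.Agent.N916.GB (pt ps sx eta Po Vt)
open Pool.Agent.Y703.CQ (c2 nr)
open Pool.Agent.N973.ND (uu nr_rec nr_self)
open Pool.Agent.N916.AM (LAH Nd Rich Bs sub_Bs uu_mod nr_Bs)
open Pool.Agent.N958.GB (lb rr rr_inj rr_im NR sgm two_tuples rec_NR ud wd z2 mem_Vt Vt_sub sy_ne)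
open Pool.Agent.N916.MO
open Pool.Agent.N916.PQ (Hy Gc)

section
variable {M : ℕ} {ι : Type} [Fintype ι] [LinearOrder ι] {S₀ : Finset ℕ} {p : ι → ℕ}
  {t : Bool} {r s : ZMod 2}

/-- the nondegeneracy -/
theorem ndgW (hM : 136 ∣ M) (hM0 : 0 < M) (hp : ∀ i, Po (p i) ∧ p i ∉ S₀ ∧ (p i).Coprime M)
    (hN : Nd M S₀ (univ.image p)) (b : ↥(Vt t S₀) → ZMod 2) (s' : ZMod 2)
    (hbs : (∃ v, b v ≠ 0) ∨ s' ≠ 0) :
    ∃ k, ∑ v, b v * NR r s (rr t S₀ p) (Sum.inl v) (Sum.inr k) +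
      s' * ud s (rr t S₀ p) (Sum.inr k) ≠ 0 := by
  have h8 := d8 hM
  set w : ℕ → ZMod 2 := fun n => if h : n ∈ Vt t S₀ then b ⟨n, h⟩ else 0 with hw
  have hw1 : ∀ v : (Vt t S₀ : Finset ℕ), w v = b v := fun v => by
    rw [hw]
    exact dif_pos v.2
  have hw2 : ∀ n, n ∉ Vt t S₀ → w n = 0 := fun n hn => by
    rw [hw]
    exact dif_neg hn
  have hsub : Vt t S₀ ⊆ Bs M S₀ := (Vt_sub t S₀).trans (sub_Bs h8 hM0 S₀)
  obtain ⟨x, hx, hx2⟩ := hN w s' (by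
    rcases hbs with ⟨v, hv⟩ | h
    · exact Or.inl ⟨v, hsub v.2, by rw [hw1]; exact hv⟩
    · exact Or.inr h)
  obtain ⟨k, -, rfl⟩ := mem_image.1 hx
  refine ⟨k, ?_⟩
  have hur : ud s (rr t S₀ p) (Sum.inr k) = uu (p k) := if_neg (hp k).1.2
  rw [hur]
  intro h0
  apply hx2
  refine Eq.trans ?_ h0
  congr 1
  have c2 : ∑ v ∈ Vt t S₀, w v * nr (p k) v = ∑ v ∈ Bs M S₀, w v * nr (p k) v :=
    sum_subset hsub fun x _ hx => by rw [hw2 x hx, zero_mul]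
  have c3 : ∑ v : (Vt t S₀ : Finset ℕ), b v * NR r s (rr t S₀ p) (Sum.inl v) (Sum.inr k) =
      ∑ v ∈ Vt t S₀, w v * nr (p k) v := by
    rw [← Finset.sum_coe_sort (Vt t S₀)]
    refine sum_congr rfl fun v _ => ?_
    rw [hw1]
    congr 1
    exact sy_ne r s (hp k).1.2
  exact c2.symm.trans c3.symm

end

/-- **ramified** -/
theorem j17_w (hJM : JM) {M : ℕ} (hM : 136 ∣ M) (hM0 : 0 < M) {t : Bool} {r s : ZMod 2}
    {K : Finset ℕ} (hts : t = false → s = 0) (htr : t = true → r ≠ 0 ∨ s ≠ 0)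
    (hK : ∀ a ∈ K, a % 4 = (if s = 0 then 3 else 1) ∧ 17 ∣ a) :
    J17 M K t r s (Gw t r s) (eta * c2) := by
  have h8 := d8 hM
  have h4M : (4 : ℕ) ∣ M := Dvd.dvd.trans (by norm_num) hM
  have h17M : (17 : ℕ) ∣ M := Dvd.dvd.trans (by norm_num) hM
  intro ε hε
  obtain ⟨V₀, hV₀⟩ := ja_r hJM ε hε
  refine ⟨2 * V₀, ?_⟩
  intro ι _ _ S₀ p hS₀ hp hpi hpK hN hR R C _ _ A X Y a1 a2 a3 a4
  set r₀ := rr t S₀ p with hr₀
  have hrp : ∀ i, (r₀ i).Prime := prm hS₀ hp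
  have hrinj : Function.Injective r₀ := rr_inj t hpi (fun i => (hp i).2.1) fun i => (hp i).1.2
  have hK4 := (hK _ hpK).1
  have hK17 := (hK _ hpK).2
  rw [Nat.mod_mod_of_dvd _ h4M] at hK4
  have hK17' : 17 ∣ (∏ v ∈ S₀, v) * ∏ i, p i := (Nat.dvd_mod_iff h17M).1 hK17
  have h17S : 17 ∈ S₀ := by
    rcases (p17.dvd_mul).1 hK17' with h | h
    · obtain ⟨v, hv, hv'⟩ := (Prime.dvd_finset_prod_iff p17.prime _).1 h
      have := (Nat.prime_dvd_prime_iff_eq p17 (hS₀ v hv).1).1 hv'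
      rw [this]
      exact hv
    · obtain ⟨k, -, hk⟩ := (Prime.dvd_finset_prod_iff p17.prime _).1 h
      have h1 := (Nat.prime_dvd_prime_iff_eq p17 (hp k).1.1).1 hk
      have h2 := (hp k).2.2
      rw [← h1] at h2
      have := Nat.Coprime.eq_one_of_dvd h2 h17M
      omega
  have h17V : 17 ∈ Vt t S₀ := mem_Vt.2 (Or.inr h17S)
  obtain ⟨v0, hv0⟩ : ∃ v0 : (Vt t S₀ : Finset ℕ), (v0 : ℕ) = 17 := ⟨⟨17, h17V⟩, rfl⟩
  obtain ⟨e1, e2, e3, -⟩ := enoughJ (t := t) (s := s) hM hM0 hp hpi hR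
  have b1 : wd r r₀ (Sum.inl v0) = 1 := by
    have : wd r r₀ (Sum.inl v0) = if (v0 : ℕ) = 2 then r else 1 := rfl
    rw [this, hv0, if_neg (by norm_num)]
  have b2 : ud s r₀ (Sum.inl v0) = 0 := by
    have : ud s r₀ (Sum.inl v0) = if (v0 : ℕ) = 2 then s else uu (v0 : ℕ) := rfl
    rw [this, hv0, if_neg (by norm_num), uu17]
  have b3 : ∀ k, nv r₀ (Sum.inr k) = NR r s r₀ (Sum.inl v0) (Sum.inr k) := by
    intro k
    have h1 : NR r s r₀ (Sum.inl v0) (Sum.inr k) = nr (p k) (v0 : ℕ) := sy_ne r s (hp k).1.2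
    rw [h1, hv0]
    rfl
  have h2 := hV₀ (Vt t S₀) ι R C v0 (wd r r₀) (ud s r₀) (nv r₀) (NR r s r₀) A X Y
    (fun k => if_neg (hp k).1.2) (sum_ud hS₀ hp hpi hts hK4) b1 b2 b3
    (fun i j hij => rec_NR r s hrinj hrp i j hij) (uniq2 htr hS₀)
    (fun b s' hbs => ndgW hM hM0 hp hN b s' hbs)
    a1 a2 a3 (fun k l => by rw [a4, Lm_eq])
    e1 e2 e3
  refine ⟨fun σ => Kr (Sum.inl v0) (nv r₀) (ud s r₀) (Lm (pt (NR r s r₀) (sx σ))), ?_, h2⟩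
  intro q hqi hq
  rw [Gw_iff (v0 := Sum.inl v0) (rr_inj t hqi (fun i => (hq i).2.1) fun i => (hq i).1.2)
    (rr_im t) hv0]
  obtain ⟨b1, b2, b3⟩ := two_q (t := t) (r := r) (s := s) hM hM0 hS₀ hp hpi hqi hq
  rw [b1, b2, b3]

end Pool.Agent.N809.JT
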