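import Pool.Agent.N809.JT.Jo
import Pool.Agent.N916.MO.LaQ

/-!
# JT: moving one large index to the small indices in a linear system
-/

set_option autoImplicit false
set_option linter.all false

open scoped Classical

namespace Pool.Agent.N809.JT

open Finset Module
open Pool.Agent.N916.GB (pt ps sx eta)
open Pool.Agent.Y703.CQ (c2)
open Pool.Agent.N916.MO (mve mve_none mve_some mve_inr tau res sx_res sx_symm sx_self few)
open Pool.Agent.N916.PQ (Hy Gc IsS ev lp)

theorem aa2 (a : ZMod 2) : a + a = 0 := by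
  revert a
  decide

section
variable {R C J : Type} [Fintype R] [Fintype C] [Fintype J] [LinearOrder J] {k1 : J}

/-- the Laplacian of the symbols with `k1` -/
noncomputable def lt (τ : Pool.Agent.N916.MO.Ix k1 → ZMod 2) :
    Option R ⊕ Pool.Agent.N916.MO.Ix k1 → Option C ⊕ Pool.Agent.N916.MO.Ix k1 → ZMod 2
  | Sum.inl none, Sum.inl none => ∑ l, τ l
  | Sum.inl none, Sum.inr l => τ l
  | Sum.inr l, Sum.inl none => τ l
  | Sum.inr k, Sum.inr l => if k = l then τ k else 0
  | _, _ => 0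

/-- the matrix with the symbols of `k1` -/
noncomputable def Mτ (M : R ⊕ J → C ⊕ J → ZMod 2) (τ : Pool.Agent.N916.MO.Ix k1 → ZMod 2)
    (i : Option R ⊕ Pool.Agent.N916.MO.Ix k1) (j : Option C ⊕ Pool.Agent.N916.MO.Ix k1) : ZMod 2 :=
  M (mve k1 i) (mve k1 j) + lt τ i j

/-- a sum over the indices -/
theorem sum_mv {T : Type} [Fintype T] (f : T ⊕ J → ZMod 2) :
    ∑ i : Option T ⊕ Pool.Agent.N916.MO.Ix k1, f (mve k1 i) = ∑ i, f i :=
  Equiv.sum_comp (mve k1) f

theorem sum_split {T : Type} [Fintype T] (f : Option T ⊕ Pool.Agent.N916.MO.Ix k1 → ZMod 2) :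
    ∑ i, f i = f (Sum.inl none) + ∑ v, f (Sum.inl (some v)) + ∑ l, f (Sum.inr l) := by
  rw [Fintype.sum_sum_type, Fintype.sum_option]

/-- the row sums of the Laplacian -/
theorem lt_row (τ : Pool.Agent.N916.MO.Ix k1 → ZMod 2)
    (i : Option R ⊕ Pool.Agent.N916.MO.Ix k1) (y : Option C ⊕ Pool.Agent.N916.MO.Ix k1 → ZMod 2) :
    ∑ j, lt (R := R) τ i j * y j = match i with
      | Sum.inl none => ∑ l, (y (Sum.inr l) + y (Sum.inl none)) * τ l
      | Sum.inl (some _) => 0
      | Sum.inr l => (y (Sum.inl none) + y (Sum.inr l)) * τ l := by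
  rw [sum_split]
  rcases i with (_ | v) | k
  · show (∑ l, τ l) * y (Sum.inl none) + ∑ v : C, 0 * y (Sum.inl (some v)) +
      ∑ l, τ l * y (Sum.inr l) = ∑ l, (y (Sum.inr l) + y (Sum.inl none)) * τ l
    simp only [zero_mul, sum_const_zero, add_zero, sum_mul, ← sum_add_distrib]
    exact sum_congr rfl fun l _ => by ring
  · show 0 * y (Sum.inl none) + ∑ v : C, 0 * y (Sum.inl (some v)) + ∑ l, 0 * y (Sum.inr l) = 0
    simp only [zero_mul, sum_const_zero, add_zero]
  · show τ k * y (Sum.inl none) + ∑ v : C, 0 * y (Sum.inl (some v)) +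
      ∑ l, (if k = l then τ k else 0) * y (Sum.inr l) = _
    simp only [zero_mul, sum_const_zero, add_zero, ite_mul]
    rw [sum_ite_eq univ k, if_pos (mem_univ _)]
    ring

/-- the column sums of the Laplacian -/
theorem lt_col (τ : Pool.Agent.N916.MO.Ix k1 → ZMod 2)
    (j : Option C ⊕ Pool.Agent.N916.MO.Ix k1) (x : Option R ⊕ Pool.Agent.N916.MO.Ix k1 → ZMod 2)
    (h0 : x (Sum.inl none) = 1) (h1 : ∀ l, x (Sum.inr l) = 1) :
    ∑ i, x i * lt (C := C) τ i j = 0 := by
  rw [sum_split]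
  simp only [h0, h1, one_mul]
  rcases j with (_ | v) | k
  · show (∑ l, τ l) + ∑ v : R, x (Sum.inl (some v)) * 0 + ∑ l, τ l = 0
    simp only [mul_zero, sum_const_zero, add_zero]
    exact aa2 _
  · show 0 + ∑ v : R, x (Sum.inl (some v)) * 0 + ∑ l : Pool.Agent.N916.MO.Ix k1, (0 : ZMod 2) = 0
    simp only [mul_zero, sum_const_zero, add_zero]
  · show τ k + ∑ v : R, x (Sum.inl (some v)) * 0 + ∑ l, (if l = k then τ l else 0) = 0
    simp only [mul_zero, sum_const_zero, add_zero]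
    rw [sum_ite_eq' univ k, if_pos (mem_univ _)]
    exact aa2 _

theorem lt_row1 (τ : Pool.Agent.N916.MO.Ix k1 → ZMod 2)
    (i : Option R ⊕ Pool.Agent.N916.MO.Ix k1) (y : Option C ⊕ Pool.Agent.N916.MO.Ix k1 → ZMod 2)
    (h0 : y (Sum.inl none) = 1) (h1 : ∀ l, y (Sum.inr l) = 1) :
    ∑ j, lt (R := R) τ i j * y j = 0 := by
  rw [lt_row]
  rcases i with (_ | v) | k
  · show ∑ l, (y (Sum.inr l) + y (Sum.inl none)) * τ l = 0
    refine sum_eq_zero fun l _ => ?_
    rw [h0, h1, aa2, zero_mul]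
  · rfl
  · show (y (Sum.inl none) + y (Sum.inr k)) * τ k = 0
    rw [h0, h1, aa2, zero_mul]

variable {M : R ⊕ J → C ⊕ J → ZMod 2} {X : R ⊕ J → ZMod 2} {Y : C ⊕ J → ZMod 2} {u : J → ZMod 2}

theorem ev_mv (τ : Pool.Agent.N916.MO.Ix k1 → ZMod 2) (x : C ⊕ J → ZMod 2)
    (i : Option R ⊕ Pool.Agent.N916.MO.Ix k1) :
    ev (Mτ M τ) (fun j => x (mve k1 j)) i = ev M x (mve k1 i) +
      ∑ j, lt (R := R) τ i j * x (mve k1 j) := by
  unfold ev Mτ
  simp only [add_mul, sum_add_distrib]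
  congr 1
  exact sum_mv (fun j => M (mve k1 i) j * x j)

theorem isS_mv (σ : ps J → ZMod 2) (x : C ⊕ J → ZMod 2) :
    IsS M (sx σ) x ↔ IsS (Mτ M (tau k1 σ)) (sx (res k1 σ)) (fun j => x (mve k1 j)) := by
  have e1 : ev (Mτ M (tau k1 σ)) (fun j => x (mve k1 j)) (Sum.inl none) =
      ev M x (Sum.inr k1) + lp (sx σ) x k1 := by
    rw [ev_mv, lt_row]
    show ev M x (Sum.inr k1) + ∑ l : Pool.Agent.N916.MO.Ix k1, (x (Sum.inr (l : J)) +
      x (Sum.inr k1)) * sx σ k1 (l : J) = _
    congr 1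
    unfold Pool.Agent.N916.PQ.lp
    rw [Fintype.sum_eq_add_sum_subtype_ne _ k1, sx_self, mul_zero, zero_add]
  have e2 : ∀ v, ev (Mτ M (tau k1 σ)) (fun j => x (mve k1 j)) (Sum.inl (some v)) =
      ev M x (Sum.inl v) := by
    intro v
    rw [ev_mv, lt_row]
    exact add_zero _
  have e3 : ∀ l : Pool.Agent.N916.MO.Ix k1, ev (Mτ M (tau k1 σ)) (fun j => x (mve k1 j))
      (Sum.inr l) + lp (sx (res k1 σ)) (fun j => x (mve k1 j)) l =
      ev M x (Sum.inr (l : J)) + lp (sx σ) x l := by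
    intro l
    rw [ev_mv, lt_row]
    show ev M x (Sum.inr (l : J)) + (x (Sum.inr k1) + x (Sum.inr (l : J))) * sx σ k1 (l : J) +
      ∑ m : Pool.Agent.N916.MO.Ix k1, (x (Sum.inr (m : J)) + x (Sum.inr (l : J))) *
        sx (res k1 σ) l m = _
    simp only [sx_res]
    unfold Pool.Agent.N916.PQ.lp
    rw [Fintype.sum_eq_add_sum_subtype_ne (fun m => (x (Sum.inr m) + x (Sum.inr (l : J))) *
      sx σ (l : J) m) k1, sx_symm σ k1 l]
    ring
  constructor
  · rintro ⟨h1, h2⟩
    refine ⟨?_, fun l => ?_⟩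
    · rintro (_ | v)
      · rw [e1]
        exact h2 k1
      · rw [e2]
        exact h1 v
    · rw [e3]
      exact h2 l
  · rintro ⟨h1, h2⟩
    refine ⟨fun v => ?_, fun l => ?_⟩
    · rw [← e2]
      exact h1 (some v)
    · by_cases h : l = k1
      · rw [h, ← e1]
        exact h1 none
      · have := h2 ⟨l, h⟩
        rw [e3] at this
        exact this

theorem Gc_mv (σ : ps J → ZMod 2) : Gc M Y (sx σ) ↔
    Gc (Mτ M (tau k1 σ)) (fun j => Y (mve k1 j)) (sx (res k1 σ)) := by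
  constructor
  · intro h x hx
    have e : x = fun j => (fun c => x ((mve k1).symm c)) (mve k1 j) := by
      funext j
      show x j = x ((mve k1).symm (mve k1 j))
      rw [Equiv.symm_apply_apply]
    rw [e] at hx
    have hx' := (isS_mv (k1 := k1) (M := M) σ (fun c => x ((mve k1).symm c))).2 hx
    obtain ⟨β, hβ⟩ := h _ hx'
    refine ⟨β, fun c => ?_⟩
    have := hβ (mve k1 c)
    rw [Equiv.symm_apply_apply] at this
    exact this
  · intro h x hx
    rw [isS_mv (k1 := k1)] at hx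
    obtain ⟨β, hβ⟩ := h _ hx
    refine ⟨β, fun c => ?_⟩
    have := hβ ((mve k1).symm c)
    simp only [Equiv.apply_symm_apply] at this
    exact this

/-- the bad symbols -/
def bad (k1 : J) (M : R ⊕ J → C ⊕ J → ZMod 2) (τ : Pool.Agent.N916.MO.Ix k1 → ZMod 2) : Prop :=
  (∃ b : R → ZMod 2, ∀ l, τ l = M (Sum.inr k1) (Sum.inr (l : J)) +
    ∑ r, b r * M (Sum.inl r) (Sum.inr (l : J))) ∨
  (∃ b : C → ZMod 2, ∀ l, τ l = M (Sum.inr (l : J)) (Sum.inr k1) +
    ∑ c, M (Sum.inr (l : J)) (Sum.inl c) * b c)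

theorem card_bad (k1 : J) (M : R ⊕ J → C ⊕ J → ZMod 2) :
    (univ.filter fun τ => bad k1 M τ).card ≤ 2 ^ Fintype.card R + 2 ^ Fintype.card C := by
  have h1 : (univ.filter fun τ => bad k1 M τ) ⊆
      (univ : Finset (R → ZMod 2)).image (fun b (l : Pool.Agent.N916.MO.Ix k1) =>
        M (Sum.inr k1) (Sum.inr (l : J)) + ∑ r, b r * M (Sum.inl r) (Sum.inr (l : J))) ∪
      (univ : Finset (C → ZMod 2)).image (fun b (l : Pool.Agent.N916.MO.Ix k1) =>
        M (Sum.inr (l : J)) (Sum.inr k1) + ∑ c, M (Sum.inr (l : J)) (Sum.inl c) * b c) := by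
    intro τ hτ
    rw [mem_filter] at hτ
    rw [mem_union, mem_image, mem_image]
    rcases hτ.2 with ⟨b, hb⟩ | ⟨b, hb⟩
    · exact Or.inl ⟨b, mem_univ _, (funext hb).symm⟩
    · exact Or.inr ⟨b, mem_univ _, (funext hb).symm⟩
  refine (card_le_card h1).trans ((card_union_le _ _).trans ?_)
  refine add_le_add (card_image_le.trans ?_) (card_image_le.trans ?_)
  · rw [Finset.card_univ, Fintype.card_fun, ZMod.card]
  · rw [Finset.card_univ, Fintype.card_fun, ZMod.card]

/-- the hypotheses after moving `k1` -/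
theorem Hy_mv (H : Hy M X Y u)
    (hr : ∀ b : R → ZMod 2, (∀ l : Pool.Agent.N916.MO.Ix k1,
      ∑ r, b r * M (Sum.inl r) (Sum.inr (l : J)) = 0) → ∀ r, b r = 0)
    (hc : ∀ b : C → ZMod 2, (∀ l : Pool.Agent.N916.MO.Ix k1,
      ∑ c, M (Sum.inr (l : J)) (Sum.inl c) * b c = 0) → ∀ c, b c = 0)
    {τ : Pool.Agent.N916.MO.Ix k1 → ZMod 2} (hτ : ¬ bad k1 M τ) :
    Hy (Mτ M τ) (fun i => X (mve k1 i)) (fun j => Y (mve k1 j))
      (fun k : Pool.Agent.N916.MO.Ix k1 => u k) := by
  have hz : ∀ a : ZMod 2, a = 0 ∨ a = 1 := by decide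
  have ee : ∀ x y z : ZMod 2, 1 * (x + y) + z = 0 → y = x + z := by decide
  have ee' : ∀ x y z : ZMod 2, (x + y) * 1 + z = 0 → y = x + z := by decide
  refine ⟨fun l => H.x1 _, fun l => H.y1 _, ?_, ?_, ?_, ?_, ?_⟩
  · intro c
    unfold Mτ
    simp only [mul_add, sum_add_distrib]
    rw [lt_col τ c (fun i => X (mve k1 i)) (H.x1 _) fun l => H.x1 _, add_zero,
      sum_mv (fun r => X r * M r (mve k1 c))]
    exact H.kx _
  · intro r
    unfold Mτ
    simp only [add_mul, sum_add_distrib]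
    rw [lt_row1 τ r (fun i => Y (mve k1 i)) (H.y1 _) fun l => H.y1 _, add_zero,
      sum_mv (fun c => M (mve k1 r) c * Y c)]
    exact H.ky _
  · intro b hb
    have h1 : ∀ l : Pool.Agent.N916.MO.Ix k1, b none * (M (Sum.inr k1) (Sum.inr (l : J)) + τ l) +
        ∑ r, b (some r) * M (Sum.inl r) (Sum.inr (l : J)) = 0 := by
      intro l
      have := hb l
      rw [Fintype.sum_option] at this
      have h2 : ∀ r, Mτ M τ (Sum.inl (some r)) (Sum.inr l) = M (Sum.inl r) (Sum.inr (l : J)) :=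
        fun r => add_zero _
      simp only [h2] at this
      exact this
    rcases hz (b none) with h0 | h0
    · have h2 := hr (fun r => b (some r)) (fun l => by
        have := h1 l
        rwa [h0, zero_mul, zero_add] at this)
      rintro (_ | r)
      · exact h0
      · exact h2 r
    · exfalso
      refine hτ (Or.inl ⟨fun r => b (some r), fun l => ?_⟩)
      have := h1 l
      rw [h0] at this
      exact ee _ _ _ this
  · intro b hb
    have h1 : ∀ l : Pool.Agent.N916.MO.Ix k1, (M (Sum.inr (l : J)) (Sum.inr k1) + τ l) * b none +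
        ∑ r, M (Sum.inr (l : J)) (Sum.inl r) * b (some r) = 0 := by
      intro l
      have := hb l
      rw [Fintype.sum_option] at this
      have h2 : ∀ r, Mτ M τ (Sum.inr l) (Sum.inl (some r)) = M (Sum.inr (l : J)) (Sum.inl r) :=
        fun r => add_zero _
      simp only [h2] at this
      exact this
    rcases hz (b none) with h0 | h0
    · have h2 := hc (fun r => b (some r)) (fun l => by
        have := h1 l
        rwa [h0, mul_zero, zero_add] at this)
      rintro (_ | r)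
      · exact h0
      · exact h2 r
    · exfalso
      refine hτ (Or.inr ⟨fun r => b (some r), fun l => ?_⟩)
      have := h1 l
      rw [h0] at this
      exact ee' _ _ _ this
  · intro k l hkl
    have h1 : ∀ k l : Pool.Agent.N916.MO.Ix k1, k ≠ l → Mτ M τ (Sum.inr k) (Sum.inr l) =
        M (Sum.inr (k : J)) (Sum.inr (l : J)) := by
      intro k l h
      show M _ _ + (if k = l then τ k else 0) = _
      rw [if_neg h, add_zero]
      rfl
    rw [h1 k l hkl, h1 l k (Ne.symm hkl)]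
    exact H.tw _ _ fun h => hkl (Subtype.ext h)

/-- few indices suffice -/
theorem few_lin {T : Type} [Fintype T] (F : T → J → ZMod 2)
    (h : ∀ b : T → ZMod 2, (∀ l, ∑ r, b r * F r l = 0) → ∀ r, b r = 0) :
    ∃ J₀ : Finset J, J₀.card ≤ Fintype.card T ∧
      ∀ b : T → ZMod 2, (∀ l ∈ J₀, ∑ r, b r * F r l = 0) → ∀ r, b r = 0 := by
  let ff : J → ((T → ZMod 2) →ₗ[ZMod 2] ZMod 2) := fun l =>
    { toFun := fun b => ∑ r, b r * F r l
      map_add' := fun a b => by
        rw [← sum_add_distrib]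
        exact sum_congr rfl fun r _ => by rw [Pi.add_apply]; ring
      map_smul' := fun c a => by
        rw [RingHom.id_apply, smul_eq_mul, mul_sum]
        exact sum_congr rfl fun r _ => by rw [Pi.smul_apply, smul_eq_mul]; ring }
  obtain ⟨J₀, h1, h2⟩ := few (fun l : J => LinearMap.ker (ff l)) (by
    intro x hx
    exact funext (h x fun l => hx l))
  rw [Module.finrank_fintype_fun_eq_card] at h1
  refine ⟨J₀, h1, fun b hb r => ?_⟩
  have := h2 b fun l hl => hb l hl
  rw [this]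
  rfl

end

end Pool.Agent.N809.JT
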