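import Pool.Agent.N809.JT.Triple

/-!
# JT: the total densities for the curves of conductors 15, 17, 21
-/

set_option autoImplicit false
set_option linter.all false

open scoped Classical

namespace Pool.Agent.N809.JT

open Finset Filter
open Pool.Agent.N919.BS (NN NS NF HG Rt17 Fund core)
open Pool.Agent.N963.JT (Sp cls_NS cls_NF dens_NS dens_NF NS_cl NF_cl R15 R17)
open Pool.Agent.N969.Den (NS_close NF_close lim_close NS_top NF_top)
open Pool.Agent.N809.PQ (Sg15 Sg21 w15 w21)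
open Pool.Agent.N916.PQ (f15 f15_w15 f15_of_sg)
open Pool.Agent.N916.PQ.L21 (fO fO_iff f21_of_sg)
open Pool.Agent.N809.Red21 (f21 fD f21_iff fD_f21)
open Pool.Agent.N916.MO (G17)
open Pool.Agent.N916.GB (eta)
open Pool.Agent.Y703.CQ (c2)

/-- the densities of the classes -/
structure Dn (N : (ℤ → Prop) → ℕ → ℕ) : Prop where
  x17 : Tendsto (fun X : ℕ => (N (fun d => fD d = true ∧ Rt17 d) X : ℝ) /
    (N (fun _ => True) X : ℝ)) atTop (nhds (51 / 1024))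
  o17 : Tendsto (fun X : ℕ => (N (fun d => fO d = true ∧ Rt17 d) X : ℝ) /
    (N (fun _ => True) X : ℝ)) atTop (nhds (1849 / 9216))
  q : Tendsto (fun X : ℕ => (N Eqc X : ℝ) / (N (fun _ => True) X : ℝ)) atTop (nhds (21 / 512))
  n : Tendsto (fun X : ℕ => (N (fun d => (f15 d = true ∧ f21 d = true) ∧ ¬ Eqc d) X : ℝ) /
    (N (fun _ => True) X : ℝ)) atTop (nhds (317 / 1536))
  q17 : Tendsto (fun X : ℕ => (N (fun d => Eqc d ∧ Rt17 d) X : ℝ) /
    (N (fun _ => True) X : ℝ)) atTop (nhds (133 / 6144))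
  n17 : Tendsto (fun X : ℕ => (N (fun d => ((f15 d = true ∧ f21 d = true) ∧ ¬ Eqc d) ∧ Rt17 d) X :
    ℝ) / (N (fun _ => True) X : ℝ)) atTop (nhds (5671 / 55296))

/-- the total densities -/
structure Tot (N : (ℤ → Prop) → ℕ → ℕ) : Prop where
  t15 : Tendsto (fun X : ℕ => (N R15 X : ℝ) / (N (fun _ => True) X : ℝ)) atTop (nhds (eta / 2))
  t17 : Tendsto (fun X : ℕ => (N R17 X : ℝ) / (N (fun _ => True) X : ℝ)) atTop (nhds (c2 / 2))
  t21 : Tendsto (fun X : ℕ => (N R21 X : ℝ) / (N (fun _ => True) X : ℝ)) atTop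
    (nhds (137 / 256 * eta))
  t1517 : Tendsto (fun X : ℕ => (N (fun d => R15 d ∧ R17 d) X : ℝ) / (N (fun _ => True) X : ℝ))
    atTop (nhds (433 / 1728 * (eta * c2)))
  t1521 : Tendsto (fun X : ℕ => (N (fun d => R15 d ∧ R21 d) X : ℝ) / (N (fun _ => True) X : ℝ))
    atTop (nhds (443 / 3072 * eta))
  t1721 : Tendsto (fun X : ℕ => (N (fun d => R17 d ∧ R21 d) X : ℝ) / (N (fun _ => True) X : ℝ))
    atTop (nhds (2461 / 9216 * (eta * c2)))
  t3 : Tendsto (fun X : ℕ => (N (fun d => R15 d ∧ R17 d ∧ R21 d) X : ℝ) /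
    (N (fun _ => True) X : ℝ)) atTop (nhds (8065 / 110592 * (eta * c2)))
  or : Tendsto (fun X : ℕ => (N (fun d => R15 d ∨ R17 d ∨ R21 d) X : ℝ) /
    (N (fun _ => True) X : ℝ)) atTop
    (nhds (2737 / 3072 * eta + c2 / 2 - 16393 / 36864 * (eta * c2)))

theorem k15 (d : ℤ) (hs : Squarefree d) (h1 : d ≠ 1) (h2 : d ≠ -1) : Sg15 d ↔ R15 d :=
  Pool.Agent.N963.JT.r15_iff d hs h1 h2

theorem k21 (d : ℤ) (hs : Squarefree d) (h1 : d ≠ 1) (_ : d ≠ -1) : Sg21 d ↔ R21 d :=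
  (Pool.Agent.N809.D21.fin2_iff hs h1).symm

theorem k17 (d : ℤ) (hs : Squarefree d) (_ : d ≠ 1) (_ : d ≠ -1) : (Rt17 d ∧ G17 d) ↔ R17 d :=
  (Pool.Agent.N963.JT.r17_iff hs).symm

theorem k1521 (d : ℤ) (hs : Squarefree d) (h1 : d ≠ 1) (h2 : d ≠ -1) :
    ((f15 d = true ∧ f21 d = true) ∧ (Sg15 d ∧ Sg21 d)) ↔ (R15 d ∧ R21 d) := by
  rw [← k15 d hs h1 h2, ← k21 d hs h1 h2]
  exact ⟨fun h => h.2, fun h => ⟨⟨f15_of_sg hs h.1, f21_of_sg hs h.2⟩, h⟩⟩

theorem k1721 (d : ℤ) (hs : Squarefree d) (h1 : d ≠ 1) (h2 : d ≠ -1) :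
    ((f21 d = true ∧ Rt17 d) ∧ (Sg21 d ∧ G17 d)) ↔ (R17 d ∧ R21 d) := by
  rw [← k17 d hs h1 h2, ← k21 d hs h1 h2]
  exact ⟨fun h => ⟨⟨h.1.2, h.2.2⟩, h.2.1⟩, fun h => ⟨⟨f21_of_sg hs h.2, h.1.1⟩, h.2, h.1.2⟩⟩

theorem k3 (d : ℤ) (hs : Squarefree d) (h1 : d ≠ 1) (h2 : d ≠ -1) :
    (((f15 d = true ∧ f21 d = true) ∧ Rt17 d) ∧ ((Sg15 d ∧ Sg21 d) ∧ G17 d)) ↔
      (R15 d ∧ R17 d ∧ R21 d) := by
  rw [← k15 d hs h1 h2, ← k17 d hs h1 h2, ← k21 d hs h1 h2]
  constructor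
  · rintro ⟨⟨⟨a1, a2⟩, a3⟩, ⟨b1, b2⟩, b3⟩
    exact ⟨b1, ⟨a3, b3⟩, b2⟩
  · rintro ⟨b1, ⟨a3, b3⟩, b2⟩
    exact ⟨⟨⟨f15_of_sg hs b1, f21_of_sg hs b2⟩, a3⟩, ⟨b1, b2⟩, b3⟩

theorem eD {d : ℤ} (V : Prop) : (((f21 d = true ∧ V) ∧ fD d = true) ↔ (fD d = true ∧ V)) ∧
    (((f21 d = true ∧ V) ∧ ¬ fD d = true) ↔ (fO d = true ∧ V)) := by
  have hO := fO_iff d
  rw [← Bool.not_eq_true] at hO
  have := @fD_f21 d
  tauto

theorem eQ {d : ℤ} (V : Prop) :
    ((((f15 d = true ∧ f21 d = true) ∧ V) ∧ Eqc d) ↔ (Eqc d ∧ V)) ∧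
    ((((f15 d = true ∧ f21 d = true) ∧ V) ∧ ¬ Eqc d) ↔
      (((f15 d = true ∧ f21 d = true) ∧ ¬ Eqc d) ∧ V)) := by
  have := @eqc_roots d
  tauto

theorem eQ' {d : ℤ} : ((f15 d = true ∧ f21 d = true) ∧ Eqc d) ↔ Eqc d := by
  have := @eqc_roots d
  tauto

theorem ratio_congr {N : (ℤ → Prop) → ℕ → ℕ} {P Q : ℤ → Prop} {c : ℝ} (h : ∀ d, P d ↔ Q d)
    (hP : Tendsto (fun X : ℕ => (N P X : ℝ) / (N (fun _ => True) X : ℝ)) atTop (nhds c)) :
    Tendsto (fun X : ℕ => (N Q X : ℝ) / (N (fun _ => True) X : ℝ)) atTop (nhds c) := by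
  have e : Q = P := funext fun d => propext (h d).symm
  rw [e]
  exact hP

variable (H : Inp)

include H

/-- **the total densities (squarefree integers)** -/
theorem tot_sf (D : Dn NS) : Tot NS := by
  obtain ⟨g1, -, -⟩ := Pool.Agent.N963.JT.fin_NS jl
  have s15 := NS_cl k15 Pool.Agent.N916.PQ.sf15 NS_top
  have s17 := NS_cl k17 Pool.Agent.N916.MO.dens17_sf NS_top
  have s21 := NS_cl k21 Pool.Agent.N916.PQ.L21.sf21 NS_top
  have s1521 : Tendsto (fun X : ℕ => (NS (fun d => R15 d ∧ R21 d) X : ℝ) /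
      (NS (fun _ => True) X : ℝ)) atTop (nhds (443 / 3072 * eta)) := by
    have h := tot_NS (P := fun d => f15 d = true ∧ f21 d = true) (Q := Eqc)
      (HG.eq H.q1521.hg (fun d => eQ') fun d => Iff.rfl)
      (HG.eq H.n1521.hg (fun d => Iff.rfl) fun d => Iff.rfl) (by norm_num : (0 : ℝ) < 21 / 512)
      (by norm_num : (0 : ℝ) < 317 / 1536) (ratio_congr (fun d => eQ'.symm) D.q) D.n
    have e : eta * (21 / 512) + eta / 2 * (317 / 1536) = 443 / 3072 * eta := by ring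
    rw [e] at h
    exact NS_cl k1521 h NS_top
  have s1721 : Tendsto (fun X : ℕ => (NS (fun d => R17 d ∧ R21 d) X : ℝ) /
      (NS (fun _ => True) X : ℝ)) atTop (nhds (2461 / 9216 * (eta * c2))) := by
    have h := tot_NS (P := fun d => f21 d = true ∧ Rt17 d) (Q := fun d => fD d = true)
      (HG.eq H.d1721.hg (fun d => (eD _).1) fun d => Iff.rfl)
      (HG.eq H.o1721.hg (fun d => (eD _).2) fun d => Iff.rfl) (by norm_num : (0 : ℝ) < 51 / 1024)
      (by norm_num : (0 : ℝ) < 1849 / 9216) (ratio_congr (fun d => (eD _).1.symm) D.x17)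
      (ratio_congr (fun d => (eD _).2.symm) D.o17)
    have e : 4 / 3 * (eta * c2) * (51 / 1024) + eta * c2 * (1849 / 9216) =
      2461 / 9216 * (eta * c2) := by ring
    rw [e] at h
    exact NS_cl k1721 h NS_top
  have s3 : Tendsto (fun X : ℕ => (NS (fun d => R15 d ∧ R17 d ∧ R21 d) X : ℝ) /
      (NS (fun _ => True) X : ℝ)) atTop (nhds (8065 / 110592 * (eta * c2))) := by
    have h := tot_NS (P := fun d => (f15 d = true ∧ f21 d = true) ∧ Rt17 d) (Q := Eqc)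
      (HG.eq H.q3.hg (fun d => (eQ _).1) fun d => Iff.rfl)
      (HG.eq H.n3.hg (fun d => (eQ _).2) fun d => Iff.rfl) (by norm_num : (0 : ℝ) < 133 / 6144)
      (by norm_num : (0 : ℝ) < 5671 / 55296) (ratio_congr (fun d => (eQ _).1.symm) D.q17)
      (ratio_congr (fun d => (eQ _).2.symm) D.n17)
    have e : eta * c2 * (133 / 6144) + eta * c2 / 2 * (5671 / 55296) =
      8065 / 110592 * (eta * c2) := by ring
    rw [e] at h
    exact NS_cl k3 h NS_top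
  refine ⟨s15, s17, s21, g1, s1521, s1721, s3, ?_⟩
  have h := (((((s15.add s17).add s21).sub g1).sub s1521).sub s1721).add s3
  have e : eta / 2 + c2 / 2 + 137 / 256 * eta - 433 / 1728 * (eta * c2) - 443 / 3072 * eta -
      2461 / 9216 * (eta * c2) + 8065 / 110592 * (eta * c2) =
      2737 / 3072 * eta + c2 / 2 - 16393 / 36864 * (eta * c2) := by ring
  rw [e] at h
  refine h.congr fun X => ?_
  rw [NS_ie3]
  ring

/-- **the total densities (discriminants)** -/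
theorem tot_fd (D : Dn NF) : Tot NF := by
  obtain ⟨g1, -, -⟩ := Pool.Agent.N963.JT.fin_NF jl
  have s15 := NF_cl k15 Pool.Agent.N916.PQ.fd15 NF_top
  have s17 := NF_cl k17 Pool.Agent.N916.MO.dens17_fd NF_top
  have s21 := NF_cl k21 Pool.Agent.N916.PQ.L21.fd21 NF_top
  have s1521 : Tendsto (fun X : ℕ => (NF (fun d => R15 d ∧ R21 d) X : ℝ) /
      (NF (fun _ => True) X : ℝ)) atTop (nhds (443 / 3072 * eta)) := by
    have h := tot_NF (P := fun d => f15 d = true ∧ f21 d = true) (Q := Eqc)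
      (HG.eq H.q1521.hg (fun d => eQ') fun d => Iff.rfl)
      (HG.eq H.n1521.hg (fun d => Iff.rfl) fun d => Iff.rfl) (by norm_num : (0 : ℝ) < 21 / 512)
      (by norm_num : (0 : ℝ) < 317 / 1536) (ratio_congr (fun d => eQ'.symm) D.q) D.n
    have e : eta * (21 / 512) + eta / 2 * (317 / 1536) = 443 / 3072 * eta := by ring
    rw [e] at h
    exact NF_cl k1521 h NF_top
  have s1721 : Tendsto (fun X : ℕ => (NF (fun d => R17 d ∧ R21 d) X : ℝ) /
      (NF (fun _ => True) X : ℝ)) atTop (nhds (2461 / 9216 * (eta * c2))) := by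
    have h := tot_NF (P := fun d => f21 d = true ∧ Rt17 d) (Q := fun d => fD d = true)
      (HG.eq H.d1721.hg (fun d => (eD _).1) fun d => Iff.rfl)
      (HG.eq H.o1721.hg (fun d => (eD _).2) fun d => Iff.rfl) (by norm_num : (0 : ℝ) < 51 / 1024)
      (by norm_num : (0 : ℝ) < 1849 / 9216) (ratio_congr (fun d => (eD _).1.symm) D.x17)
      (ratio_congr (fun d => (eD _).2.symm) D.o17)
    have e : 4 / 3 * (eta * c2) * (51 / 1024) + eta * c2 * (1849 / 9216) =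
      2461 / 9216 * (eta * c2) := by ring
    rw [e] at h
    exact NF_cl k1721 h NF_top
  have s3 : Tendsto (fun X : ℕ => (NF (fun d => R15 d ∧ R17 d ∧ R21 d) X : ℝ) /
      (NF (fun _ => True) X : ℝ)) atTop (nhds (8065 / 110592 * (eta * c2))) := by
    have h := tot_NF (P := fun d => (f15 d = true ∧ f21 d = true) ∧ Rt17 d) (Q := Eqc)
      (HG.eq H.q3.hg (fun d => (eQ _).1) fun d => Iff.rfl)
      (HG.eq H.n3.hg (fun d => (eQ _).2) fun d => Iff.rfl) (by norm_num : (0 : ℝ) < 133 / 6144)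
      (by norm_num : (0 : ℝ) < 5671 / 55296) (ratio_congr (fun d => (eQ _).1.symm) D.q17)
      (ratio_congr (fun d => (eQ _).2.symm) D.n17)
    have e : eta * c2 * (133 / 6144) + eta * c2 / 2 * (5671 / 55296) =
      8065 / 110592 * (eta * c2) := by ring
    rw [e] at h
    exact NF_cl k3 h NF_top
  refine ⟨s15, s17, s21, g1, s1521, s1721, s3, ?_⟩
  have h := (((((s15.add s17).add s21).sub g1).sub s1521).sub s1721).add s3
  have e : eta / 2 + c2 / 2 + 137 / 256 * eta - 433 / 1728 * (eta * c2) - 443 / 3072 * eta -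
      2461 / 9216 * (eta * c2) + 8065 / 110592 * (eta * c2) =
      2737 / 3072 * eta + c2 / 2 - 16393 / 36864 * (eta * c2) := by ring
  rw [e] at h
  refine h.congr fun X => ?_
  rw [NF_ie3]
  ring

end Pool.Agent.N809.JT
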