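import Pool.Agent.N809.JT.Law
import Pool.Agent.N975.JT.Uni
import Pool.Agent.N809.D21.Main

/-!
# JT: weighted counts, classes which are divided into two parts
-/

set_option autoImplicit false
set_option linter.all false

open scoped Classical

namespace Pool.Agent.N809.JT

open Finset Filter
open Pool.Agent.N919.BS (NN NS NF HG Rt17 Fund core)
open Pool.Agent.N963.JT (Sp cls_NS cls_NF dens_NS dens_NF NS_cl NF_cl)
open Pool.Agent.N969.Den (NS_close NF_close lim_close NS_top NF_top)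

/-- the sum of the weights of the squarefree integers -/
noncomputable def WS (w : ℤ → ℝ) (P : ℤ → Prop) (X : ℕ) : ℝ :=
  ∑ d ∈ (Icc (-(X : ℤ)) X).filter (fun d => Squarefree d ∧ P d), w d

/-- the sum of the weights of the fundamental discriminants -/
noncomputable def WF (w : ℤ → ℝ) (P : ℤ → Prop) (X : ℕ) : ℝ :=
  ∑ D ∈ (Icc (-(X : ℤ)) X).filter (fun D => Fund D ∧ P (core D)), w (core D)

theorem NS_two (P Q : ℤ → Prop) (X : ℕ) :
    NS P X = NS (fun d => P d ∧ Q d) X + NS (fun d => P d ∧ ¬ Q d) X := by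
  unfold Pool.Agent.N919.BS.NS
  rw [← card_union_of_disjoint]
  · congr 1
    ext d
    simp only [mem_union, mem_filter]
    tauto
  · rw [disjoint_left]
    intro d h1 h2
    simp only [mem_filter] at h1 h2
    exact h2.2.2.2 h1.2.2.2

theorem NF_two (P Q : ℤ → Prop) (X : ℕ) :
    NF P X = NF (fun d => P d ∧ Q d) X + NF (fun d => P d ∧ ¬ Q d) X := by
  unfold Pool.Agent.N919.BS.NF
  rw [← card_union_of_disjoint]
  · congr 1
    ext d
    simp only [mem_union, mem_filter]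
    tauto
  · rw [disjoint_left]
    intro d h1 h2
    simp only [mem_filter] at h1 h2
    exact h2.2.2.2 h1.2.2.2

theorem WS_two {w : ℤ → ℝ} {P Q : ℤ → Prop} {a b c : ℝ} (h1 : ∀ d, P d → Q d → c * w d = a)
    (h2 : ∀ d, P d → ¬ Q d → c * w d = b) (X : ℕ) :
    c * WS w P X = a * (NS (fun d => P d ∧ Q d) X : ℝ) + b * (NS (fun d => P d ∧ ¬ Q d) X : ℝ) := by
  unfold WS Pool.Agent.N919.BS.NS
  rw [card_eq_sum_ones, card_eq_sum_ones]
  push_cast
  rw [mul_sum, mul_sum, mul_sum]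
  simp only [sum_filter]
  rw [← sum_add_distrib]
  refine sum_congr rfl fun d _ => ?_
  by_cases e1 : Squarefree d <;> by_cases e2 : P d <;> by_cases e3 : Q d
  · simp [e1, e2, e3, h1 d e2 e3]
  · simp [e1, e2, e3, h2 d e2 e3]
  all_goals simp [e1, e2, e3]

theorem WF_two {w : ℤ → ℝ} {P Q : ℤ → Prop} {a b c : ℝ} (h1 : ∀ d, P d → Q d → c * w d = a)
    (h2 : ∀ d, P d → ¬ Q d → c * w d = b) (X : ℕ) :
    c * WF w P X = a * (NF (fun d => P d ∧ Q d) X : ℝ) + b * (NF (fun d => P d ∧ ¬ Q d) X : ℝ) := by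
  unfold WF Pool.Agent.N919.BS.NF
  rw [card_eq_sum_ones, card_eq_sum_ones]
  push_cast
  rw [mul_sum, mul_sum, mul_sum]
  simp only [sum_filter]
  rw [← sum_add_distrib]
  refine sum_congr rfl fun D _ => ?_
  by_cases e1 : Fund D <;> by_cases e2 : P (core D) <;> by_cases e3 : Q (core D)
  · simp [e1, e2, e3, h1 _ e2 e3]
  · simp [e1, e2, e3, h2 _ e2 e3]
  all_goals simp [e1, e2, e3]

/-- the two parts of a class -/
structure Pt (P G : ℤ → Prop) (w : ℤ → ℝ) (c : ℝ) : Prop where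
  ex : ∃ (Q : ℤ → Prop) (a b : ℝ), HG (fun d => P d ∧ Q d) G a ∧ HG (fun d => P d ∧ ¬ Q d) G b ∧
    (∀ d, P d → Q d → c * w d = a) ∧ ∀ d, P d → ¬ Q d → c * w d = b

theorem andc {P Q G : ℤ → Prop} : (fun d => (P d ∧ Q d) ∧ G d) = fun d => (P d ∧ G d) ∧ Q d :=
  funext fun d => propext (by tauto)

/-- **the law of a class with weights** -/
theorem Pt.lim {P G : ℤ → Prop} {w : ℤ → ℝ} {c : ℝ} (h : Pt P G w c) :
    Tendsto (fun X : ℕ => ((NS (fun d => P d ∧ G d) X : ℝ) - c * WS w P X) / (X : ℝ)) atTop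
      (nhds 0) ∧
    Tendsto (fun X : ℕ => ((NF (fun d => P d ∧ G d) X : ℝ) - c * WF w P X) / (X : ℝ)) atTop
      (nhds 0) := by
  obtain ⟨Q, a, b, h1, h2, h3, h4⟩ := h.ex
  have n1 := (cls_NS h1).add (cls_NS h2)
  have n2 := (cls_NF h1).add (cls_NF h2)
  rw [add_zero] at n1 n2
  constructor
  · refine n1.congr fun X => ?_
    rw [WS_two h3 h4, NS_two (fun d => P d ∧ G d) Q, ← andc]
    have e : (fun d => (P d ∧ G d) ∧ ¬ Q d) = fun d => (P d ∧ ¬ Q d) ∧ G d :=
      funext fun d => propext (by tauto)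
    rw [e]
    push_cast
    ring
  · refine n2.congr fun X => ?_
    rw [WF_two h3 h4, NF_two (fun d => P d ∧ G d) Q, ← andc]
    have e : (fun d => (P d ∧ G d) ∧ ¬ Q d) = fun d => (P d ∧ ¬ Q d) ∧ G d :=
      funext fun d => propext (by tauto)
    rw [e]
    push_cast
    ring

theorem NN_false {P : ℤ → Prop} (h : ∀ d, ¬ P d) (s : ℤ) (k r Y : ℕ) : NN P s k r Y = 0 := by
  unfold Pool.Agent.N919.BS.NN
  rw [card_eq_zero, filter_eq_empty_iff]
  rintro n - ⟨-, -, h3⟩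
  exact h _ h3

theorem hg_false {P G : ℤ → Prop} (h : ∀ d, ¬ P d) (c : ℝ) : HG P G c := by
  intro s k r hs hk hr ε hε
  refine ⟨0, fun Y _ => ?_⟩
  rw [NN_false (fun d hd => h d hd.1), NN_false h, Nat.cast_zero, mul_zero, sub_zero, abs_zero]
  positivity

/-- one part only -/
theorem Pt.one {P G : ℤ → Prop} {w : ℤ → ℝ} {c : ℝ} (h : HG P G c) (hw : ∀ d, P d → w d = 1) :
    Pt P G w c := by
  refine ⟨fun _ => True, c, c, ?_, hg_false (fun d hd => hd.2 trivial) c, fun d hd _ => ?_,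
    fun d _ h' => absurd trivial h'⟩
  · simpa only [and_true] using h
  · rw [hw d hd, mul_one]

theorem Pt.two {P Q G : ℤ → Prop} {w : ℤ → ℝ} {c a b : ℝ} (h1 : HG (fun d => P d ∧ Q d) G a)
    (h2 : HG (fun d => P d ∧ ¬ Q d) G b) (h3 : ∀ d, P d → Q d → c * w d = a)
    (h4 : ∀ d, P d → ¬ Q d → c * w d = b) : Pt P G w c := ⟨⟨Q, a, b, h1, h2, h3, h4⟩⟩

/-- the total density of a class which is divided into two parts (squarefree integers) -/
theorem tot_NS {P Q G : ℤ → Prop} {a b α β : ℝ} (h1 : HG (fun d => P d ∧ Q d) G a)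
    (h2 : HG (fun d => P d ∧ ¬ Q d) G b) (hα : 0 < α) (hβ : 0 < β)
    (r1 : Tendsto (fun X : ℕ => (NS (fun d => P d ∧ Q d) X : ℝ) / (NS (fun _ => True) X : ℝ)) atTop
      (nhds α))
    (r2 : Tendsto (fun X : ℕ => (NS (fun d => P d ∧ ¬ Q d) X : ℝ) / (NS (fun _ => True) X : ℝ))
      atTop (nhds β)) :
    Tendsto (fun X : ℕ => (NS (fun d => P d ∧ G d) X : ℝ) / (NS (fun _ => True) X : ℝ)) atTop
      (nhds (a * α + b * β)) := by
  refine ((dens_NS h1 hα r1).1.add (dens_NS h2 hβ r2).1).congr fun X => ?_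
  rw [NS_two (fun d => P d ∧ G d) Q, ← andc]
  have e : (fun d => (P d ∧ G d) ∧ ¬ Q d) = fun d => (P d ∧ ¬ Q d) ∧ G d :=
    funext fun d => propext (by tauto)
  rw [e]
  push_cast
  ring

/-- the total density of a class which is divided into two parts (discriminants) -/
theorem tot_NF {P Q G : ℤ → Prop} {a b α β : ℝ} (h1 : HG (fun d => P d ∧ Q d) G a)
    (h2 : HG (fun d => P d ∧ ¬ Q d) G b) (hα : 0 < α) (hβ : 0 < β)
    (r1 : Tendsto (fun X : ℕ => (NF (fun d => P d ∧ Q d) X : ℝ) / (NF (fun _ => True) X : ℝ)) atTop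
      (nhds α))
    (r2 : Tendsto (fun X : ℕ => (NF (fun d => P d ∧ ¬ Q d) X : ℝ) / (NF (fun _ => True) X : ℝ))
      atTop (nhds β)) :
    Tendsto (fun X : ℕ => (NF (fun d => P d ∧ G d) X : ℝ) / (NF (fun _ => True) X : ℝ)) atTop
      (nhds (a * α + b * β)) := by
  refine ((dens_NF h1 hα r1).1.add (dens_NF h2 hβ r2).1).congr fun X => ?_
  rw [NF_two (fun d => P d ∧ G d) Q, ← andc]
  have e : (fun d => (P d ∧ G d) ∧ ¬ Q d) = fun d => (P d ∧ ¬ Q d) ∧ G d :=
    funext fun d => propext (by tauto)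
  rw [e]
  push_cast
  ring

/-- inclusion and exclusion for three properties -/
theorem NS_ie3 (A B C : ℤ → Prop) (X : ℕ) :
    (NS (fun d => A d ∨ B d ∨ C d) X : ℝ) = NS A X + NS B X + NS C X - NS (fun d => A d ∧ B d) X -
      NS (fun d => A d ∧ C d) X - NS (fun d => B d ∧ C d) X + NS (fun d => A d ∧ B d ∧ C d) X := by
  unfold Pool.Agent.N919.BS.NS
  simp only [card_filter]
  push_cast
  rw [← sum_add_distrib, ← sum_add_distrib, ← sum_sub_distrib, ← sum_sub_distrib,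
    ← sum_sub_distrib, ← sum_add_distrib]
  refine sum_congr rfl fun d _ => ?_
  by_cases e0 : Squarefree d <;> by_cases e1 : A d <;> by_cases e2 : B d <;> by_cases e3 : C d <;>
    simp [e0, e1, e2, e3]

theorem NF_ie3 (A B C : ℤ → Prop) (X : ℕ) :
    (NF (fun d => A d ∨ B d ∨ C d) X : ℝ) = NF A X + NF B X + NF C X - NF (fun d => A d ∧ B d) X -
      NF (fun d => A d ∧ C d) X - NF (fun d => B d ∧ C d) X + NF (fun d => A d ∧ B d ∧ C d) X := by
  unfold Pool.Agent.N919.BS.NF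
  simp only [card_filter]
  push_cast
  rw [← sum_add_distrib, ← sum_add_distrib, ← sum_sub_distrib, ← sum_sub_distrib,
    ← sum_sub_distrib, ← sum_add_distrib]
  refine sum_congr rfl fun D _ => ?_
  by_cases e0 : Fund D <;> by_cases e1 : A (core D) <;> by_cases e2 : B (core D) <;>
    by_cases e3 : C (core D) <;> simp [e0, e1, e2, e3]

/-- finitely many exceptions do not matter -/
theorem close_w {A A' : ℕ → ℕ} {B : ℕ → ℝ}
    (h : Tendsto (fun X : ℕ => ((A X : ℝ) - B X) / (X : ℝ)) atTop (nhds 0))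
    (h1 : ∀ X, A X ≤ A' X + 2) (h2 : ∀ X, A' X ≤ A X + 2) :
    Tendsto (fun X : ℕ => ((A' X : ℝ) - B X) / (X : ℝ)) atTop (nhds 0) := by
  refine tendsto_of_tendsto_of_dist h ?_
  have h3 : Tendsto (fun X : ℕ => 2 / (X : ℝ)) atTop (nhds 0) :=
    tendsto_const_nhds.div_atTop tendsto_natCast_atTop_atTop
  refine squeeze_zero (fun X => dist_nonneg) (fun X => ?_) h3
  rw [Real.dist_eq, ← sub_div, abs_div, abs_of_nonneg (Nat.cast_nonneg X : (0 : ℝ) ≤ _)]
  refine div_le_div_of_nonneg_right ?_ (Nat.cast_nonneg _)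
  have h4 : (A X : ℝ) ≤ A' X + 2 := by exact_mod_cast h1 X
  have h5 : (A' X : ℝ) ≤ A X + 2 := by exact_mod_cast h2 X
  rw [abs_le]
  constructor <;> linarith

end Pool.Agent.N809.JT
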